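import Mathlib

set_option autoImplicit false
set_option linter.unusedSectionVars false

/-!
# Walsh expansion of functions on the subsets of a finite type
-/

namespace Pool.Agent.H637R3.UC

open Finset

variable {α : Type*} [Fintype α] [DecidableEq α]

/-- the sign of `i` with respect to `A` -/
def sg1 (A : Finset α) (i : α) : ℝ := if i ∈ A then -1 else 1

/-- the Walsh character -/
noncomputable def sg (A S : Finset α) : ℝ := ∏ i ∈ S, sg1 A i

/-- the (not normalised) Walsh coefficient -/
noncomputable def ft (f : Finset α → ℝ) (S : Finset α) : ℝ := ∑ A, f A * sg A S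

theorem sg1_symm (A B : Finset α) (i : α) : sg1 (symmDiff A B) i = sg1 A i * sg1 B i := by
  unfold sg1
  by_cases h1 : i ∈ A <;> by_cases h2 : i ∈ B <;> simp [Finset.mem_symmDiff, h1, h2]

theorem sg_symm (A B S : Finset α) : sg (symmDiff A B) S = sg A S * sg B S := by
  unfold sg
  rw [← Finset.prod_mul_distrib]
  exact Finset.prod_congr rfl (fun i _ => sg1_symm A B i)

theorem sg_empty (A : Finset α) : sg A ∅ = 1 := by simp [sg]

theorem sg_singleton (A : Finset α) (i : α) : sg A {i} = if i ∈ A then -1 else 1 := by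
  unfold sg
  rw [Finset.prod_singleton]
  rfl

theorem orth (A B : Finset α) :
    ∑ S : Finset α, sg A S * sg B S = if A = B then (2 : ℝ) ^ Fintype.card α else 0 := by
  have h1 : ∀ S : Finset α, sg A S * sg B S = ∏ i ∈ S, (sg1 A i * sg1 B i) := by
    intro S
    unfold sg
    rw [← Finset.prod_mul_distrib]
  have h2 : ∑ S : Finset α, sg A S * sg B S = ∏ i : α, (1 + sg1 A i * sg1 B i) := by
    rw [Finset.prod_one_add, Finset.powerset_univ]
    exact Finset.sum_congr rfl (fun S _ => h1 S)
  rw [h2]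
  split_ifs with h
  · subst h
    have h3 : ∀ i ∈ (univ : Finset α), (1 + sg1 A i * sg1 A i) = 2 := by
      intro i _
      unfold sg1
      split_ifs <;> norm_num
    rw [Finset.prod_congr rfl h3, Finset.prod_const, Finset.card_univ]
  · have h3 : ∃ i, ¬ (i ∈ A ↔ i ∈ B) := by
      by_contra hcon
      push Not at hcon
      exact h (Finset.ext hcon)
    obtain ⟨i, hi⟩ := h3
    apply Finset.prod_eq_zero (Finset.mem_univ i)
    unfold sg1
    by_cases h4 : i ∈ A <;> by_cases h5 : i ∈ B <;> simp_all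

/-- Parseval -/
theorem parseval (f : Finset α → ℝ) :
    ∑ S, ft f S ^ 2 = 2 ^ Fintype.card α * ∑ A, f A ^ 2 := by
  have h1 : ∀ S : Finset α, ft f S ^ 2 = ∑ A, ∑ B, f A * f B * (sg A S * sg B S) := by
    intro S
    unfold ft
    rw [sq, Finset.sum_mul_sum]
    refine Finset.sum_congr rfl (fun A _ => Finset.sum_congr rfl (fun B _ => by ring))
  simp_rw [h1]
  rw [Finset.sum_comm]
  have h2 : ∀ A : Finset α, ∑ S, ∑ B, f A * f B * (sg A S * sg B S) =
      2 ^ Fintype.card α * f A ^ 2 := by
    intro A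
    rw [Finset.sum_comm]
    have h3 : ∀ B : Finset α, ∑ S, f A * f B * (sg A S * sg B S) =
        if A = B then f A * f B * 2 ^ Fintype.card α else 0 := by
      intro B
      rw [← Finset.mul_sum, orth]
      split_ifs <;> ring
    simp_rw [h3]
    rw [Finset.sum_ite_eq]
    simp
    ring
  rw [Finset.sum_congr rfl (fun A _ => h2 A), ← Finset.mul_sum]

/-- translation -/
theorem ft_shift (f : Finset α → ℝ) (B S : Finset α) :
    ft (fun A => f (symmDiff A B)) S = sg B S * ft f S := by
  unfold ft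
  rw [Finset.mul_sum]
  refine Finset.sum_bij' (fun A _ => symmDiff A B) (fun A _ => symmDiff A B) ?_ ?_ ?_ ?_ ?_
  · intro A _; exact Finset.mem_univ _
  · intro A _; exact Finset.mem_univ _
  · intro A _; simp
  · intro A _; simp
  · intro A _
    rw [sg_symm]
    have h : sg B S * sg B S = 1 := by
      unfold sg
      rw [← Finset.prod_mul_distrib]
      refine Finset.prod_eq_one (fun i _ => ?_)
      unfold sg1
      split_ifs <;> norm_num
    linear_combination (-(f (symmDiff A B) * sg A S)) * h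

theorem ft_sub (f g : Finset α → ℝ) (S : Finset α) :
    ft (fun A => f A - g A) S = ft f S - ft g S := by
  unfold ft
  rw [← Finset.sum_sub_distrib]
  exact Finset.sum_congr rfl (fun A _ => by ring)

theorem diff_sum (f : Finset α → ℝ) (B : Finset α) :
    2 ^ Fintype.card α * ∑ A, (f A - f (symmDiff A B)) ^ 2 =
      ∑ S, (1 - sg B S) ^ 2 * ft f S ^ 2 := by
  rw [← parseval]
  refine Finset.sum_congr rfl (fun S _ => ?_)
  rw [ft_sub, ft_shift]
  ring

theorem diff_sum_single (f : Finset α → ℝ) (i : α) :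
    2 ^ Fintype.card α * ∑ A, (f A - f (symmDiff A {i})) ^ 2 =
      ∑ S, (if i ∈ S then 4 else 0) * ft f S ^ 2 := by
  rw [diff_sum]
  refine Finset.sum_congr rfl (fun S _ => ?_)
  congr 1
  by_cases h : i ∈ S
  · rw [if_pos h]
    have h1 : sg ({i} : Finset α) S = -1 := by
      unfold sg
      rw [← Finset.mul_prod_erase S _ h]
      rw [Finset.prod_eq_one]
      · simp [sg1]
      · intro j hj
        have : j ≠ i := (Finset.mem_erase.1 hj).1
        simp [sg1, this]
    rw [h1]; norm_num
  · rw [if_neg h]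
    have h1 : sg ({i} : Finset α) S = 1 := by
      unfold sg
      refine Finset.prod_eq_one (fun j hj => ?_)
      have : j ≠ i := fun h2 => h (h2 ▸ hj)
      simp [sg1, this]
    rw [h1]; norm_num

theorem sg_univ (S : Finset α) : sg (univ : Finset α) S = (-1) ^ S.card := by
  unfold sg
  simp [sg1]

/-- the Dirichlet form -/
theorem dirichlet (f : Finset α → ℝ) :
    2 ^ Fintype.card α * ∑ i, ∑ A, (f A - f (symmDiff A {i})) ^ 2 =
      ∑ S, 4 * (S.card : ℝ) * ft f S ^ 2 := by
  rw [Finset.mul_sum]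
  simp_rw [diff_sum_single]
  rw [Finset.sum_comm]
  refine Finset.sum_congr rfl (fun S _ => ?_)
  rw [← Finset.sum_mul]
  congr 1
  rw [Finset.sum_ite_mem]
  simp
  ring

theorem sum_level_one (g : Finset α → ℝ) :
    ∑ S : Finset α, (if S.card = 1 then g S else 0) = ∑ i, g {i} := by
  rw [← Finset.sum_filter]
  have h : (univ : Finset (Finset α)).filter (fun S => S.card = 1) = powersetCard 1 univ := by
    ext S
    simp [Finset.mem_powersetCard]
  rw [h, Finset.powersetCard_one, Finset.sum_map]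
  rfl

/-- level one and two inequality -/
theorem level_ineq (f : Finset α → ℝ) :
    8 * ∑ S, ft f S ^ 2 - 8 * ft f ∅ ^ 2 - 4 * ∑ i, ft f {i} ^ 2 ≤
      2 ^ Fintype.card α * ∑ i, ∑ A, (f A - f (symmDiff A {i})) ^ 2 := by
  rw [dirichlet, ← sum_level_one (fun S => ft f S ^ 2)]
  have h0 : ft f ∅ ^ 2 = ∑ S : Finset α, (if S = ∅ then ft f S ^ 2 else 0) := by
    rw [Finset.sum_ite_eq']
    simp
  rw [h0, Finset.mul_sum, Finset.mul_sum, Finset.mul_sum, ← Finset.sum_sub_distrib,
    ← Finset.sum_sub_distrib]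
  refine Finset.sum_le_sum (fun S _ => ?_)
  have hsq : 0 ≤ ft f S ^ 2 := sq_nonneg _
  by_cases h1 : S = ∅
  · subst h1
    simp
  · rw [if_neg h1]
    have h2 : 1 ≤ S.card := Finset.card_pos.2 (Finset.nonempty_iff_ne_empty.2 h1)
    by_cases h3 : S.card = 1
    · rw [if_pos h3, h3]
      push_cast
      linarith
    · rw [if_neg h3]
      have h4 : 2 ≤ S.card := by omega
      have h5 : (2 : ℝ) ≤ S.card := by exact_mod_cast h4
      nlinarith

/-- the variant with the antipodal map -/
theorem level_ineq_compl (f : Finset α → ℝ) :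
    8 * ∑ S, ft f S ^ 2 - 8 * ft f ∅ ^ 2 - 8 * ∑ i, ft f {i} ^ 2 +
        2 ^ Fintype.card α * ∑ A, (f A - f Aᶜ) ^ 2 ≤
      2 ^ Fintype.card α * ∑ i, ∑ A, (f A - f (symmDiff A {i})) ^ 2 := by
  have hc : ∑ A, (f A - f Aᶜ) ^ 2 = ∑ A, (f A - f (symmDiff A univ)) ^ 2 := by
    refine Finset.sum_congr rfl (fun A _ => ?_)
    have : symmDiff A univ = Aᶜ := by
      ext x; simp [Finset.mem_symmDiff]
    rw [this]
  rw [dirichlet, hc, diff_sum, ← sum_level_one (fun S => ft f S ^ 2)]
  have h0 : ft f ∅ ^ 2 = ∑ S : Finset α, (if S = ∅ then ft f S ^ 2 else 0) := by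
    rw [Finset.sum_ite_eq']
    simp
  rw [h0, Finset.mul_sum, Finset.mul_sum, Finset.mul_sum, ← Finset.sum_sub_distrib,
    ← Finset.sum_sub_distrib, ← Finset.sum_add_distrib]
  refine Finset.sum_le_sum (fun S _ => ?_)
  have hsq : 0 ≤ ft f S ^ 2 := sq_nonneg _
  rw [sg_univ]
  by_cases h1 : S = ∅
  · subst h1
    simp
  · rw [if_neg h1]
    have h2 : 1 ≤ S.card := Finset.card_pos.2 (Finset.nonempty_iff_ne_empty.2 h1)
    by_cases h3 : S.card = 1
    · rw [if_pos h3, h3]
      push_cast
      nlinarith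
    · rw [if_neg h3]
      by_cases h4 : S.card = 2
      · rw [h4]
        push_cast
        nlinarith
      · have h5 : 3 ≤ S.card := by omega
        have h6 : (3 : ℝ) ≤ S.card := by exact_mod_cast h5
        have h7 : (1 - (-1 : ℝ) ^ S.card) ^ 2 ≤ 4 := by
          rcases neg_one_pow_eq_or ℝ S.card with h | h <;> rw [h] <;> norm_num
        nlinarith

end Pool.Agent.H637R3.UC
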