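import Mathlib
import Pool.Agent.H637R3.UC.Fourier

set_option autoImplicit false
set_option linter.unusedSectionVars false

/-!
# Dense union-closed families
-/

namespace Pool.Agent.H637R3.UC

open Finset

variable {α : Type*} [Fintype α] [DecidableEq α]

/-- indicator function of a family -/
def ind (F : Finset (Finset α)) (A : Finset α) : ℝ := if A ∈ F then 1 else 0

theorem ind_sq (F : Finset (Finset α)) (A : Finset α) : ind F A ^ 2 = ind F A := by
  unfold ind; split_ifs <;> norm_num

theorem split_sum (g : Finset α → ℝ) (i : α) :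
    ∑ A, g A = ∑ P ∈ univ.filter (fun P : Finset α => i ∉ P), (g P + g (insert i P)) := by
  rw [← Finset.sum_filter_add_sum_filter_not univ (fun P : Finset α => i ∉ P),
    Finset.sum_add_distrib]
  congr 1
  refine (Finset.sum_bij' (fun P _ => insert i P) (fun P _ => P.erase i) ?_ ?_ ?_ ?_ ?_).symm
  · intro P _; simp
  · intro P _; simp
  · intro P hP
    simp at hP
    simp [hP]
  · intro P hP
    simp at hP
    simp [hP]
  · intro P _; rfl

theorem symm_single_of_notMem {P : Finset α} {i : α} (h : i ∉ P) :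
    symmDiff P {i} = insert i P := by
  ext x
  by_cases hx : x = i
  · subst hx; simp [Finset.mem_symmDiff, h]
  · simp [Finset.mem_symmDiff, hx]

theorem symm_single_insert {P : Finset α} {i : α} (h : i ∉ P) :
    symmDiff (insert i P) {i} = P := by
  ext x
  by_cases hx : x = i
  · subst hx; simp [Finset.mem_symmDiff, h]
  · simp [Finset.mem_symmDiff, hx]

/-- the bias of `i` -/
noncomputable def bias (F : Finset (Finset α)) (i : α) : ℝ :=
  ∑ P ∈ univ.filter (fun P : Finset α => i ∉ P), (ind F P - ind F (insert i P))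

/-- number of members `P` of the family with `P ∪ {i}` outside the family -/
noncomputable def upb (F : Finset (Finset α)) (i : α) : ℝ :=
  ∑ P ∈ univ.filter (fun P : Finset α => i ∉ P), ind F P * (1 - ind F (insert i P))

theorem ft_single (F : Finset (Finset α)) (i : α) : ft (ind F) {i} = bias F i := by
  unfold ft bias
  rw [split_sum _ i]
  refine Finset.sum_congr rfl (fun P hP => ?_)
  simp at hP
  rw [sg_singleton, sg_singleton, if_neg hP, if_pos (Finset.mem_insert_self i P)]
  ring

theorem ft_empty (F : Finset (Finset α)) : ft (ind F) ∅ = F.card := by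
  unfold ft ind
  simp [sg_empty]

theorem sum_ft_sq (F : Finset (Finset α)) :
    ∑ S, ft (ind F) S ^ 2 = 2 ^ Fintype.card α * F.card := by
  rw [parseval]
  simp_rw [ind_sq]
  unfold ind
  simp

theorem edge_sum (F : Finset (Finset α)) (i : α) :
    ∑ A, (ind F A - ind F (symmDiff A {i})) ^ 2 = 4 * upb F i - 2 * bias F i := by
  unfold upb bias
  rw [split_sum _ i, Finset.mul_sum, Finset.mul_sum, ← Finset.sum_sub_distrib]
  refine Finset.sum_congr rfl (fun P hP => ?_)
  simp at hP
  rw [symm_single_of_notMem hP, symm_single_insert hP]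
  have h1 := ind_sq F P
  have h2 := ind_sq F (insert i P)
  nlinarith

theorem upb_sum_le (F : Finset (Finset α)) (hF : ∀ X ∈ F, ∀ Y ∈ F, X ∪ Y ∈ F) :
    ∑ i, upb F i ≤ 2 ^ Fintype.card α - F.card := by
  have h1 : ∑ i, upb F i = (((univ : Finset (α × Finset α)).filter
      (fun p => p.1 ∉ p.2 ∧ p.2 ∈ F ∧ insert p.1 p.2 ∉ F)).card : ℝ) := by
    rw [Finset.card_filter]
    push_cast
    rw [Fintype.sum_prod_type]
    refine Finset.sum_congr rfl (fun i _ => ?_)
    unfold upb
    rw [Finset.sum_filter]
    refine Finset.sum_congr rfl (fun P _ => ?_)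
    unfold ind
    by_cases h1 : i ∉ P <;> by_cases h2 : P ∈ F <;> by_cases h3 : insert i P ∈ F <;>
      simp [h1, h2, h3]
  have h2 : ((univ : Finset (α × Finset α)).filter
      (fun p => p.1 ∉ p.2 ∧ p.2 ∈ F ∧ insert p.1 p.2 ∉ F)).card ≤ Fᶜ.card := by
    refine Finset.card_le_card_of_injOn (fun p => insert p.1 p.2) ?_ ?_
    · intro p hp
      simp at hp ⊢
      exact hp.2.2
    · rintro ⟨i, P⟩ hp ⟨j, Q⟩ hq heq
      simp at hp hq heq
      obtain ⟨hp1, hp2, hp3⟩ := hp
      obtain ⟨hq1, hq2, hq3⟩ := hq
      by_cases hij : i = j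
      · subst hij
        have h4 : P = Q := by
          have h5 := congrArg (fun s => Finset.erase s i) heq
          simpa [Finset.erase_insert hp1, Finset.erase_insert hq1] using h5
        rw [h4]
      · exfalso
        apply hp3
        have h4 : insert i P = P ∪ Q := by
          ext x
          constructor
          · intro hx
            by_cases hxi : x = i
            · subst hxi
              have h5 : x ∈ insert j Q := heq ▸ Finset.mem_insert_self x P
              rcases Finset.mem_insert.1 h5 with h6 | h6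
              · exact (hij h6).elim
              · exact Finset.mem_union_right _ h6
            · rcases Finset.mem_insert.1 hx with h6 | h6
              · exact (hxi h6).elim
              · exact Finset.mem_union_left _ h6
          · intro hx
            rcases Finset.mem_union.1 hx with h6 | h6
            · exact Finset.mem_insert_of_mem h6
            · rw [heq]; exact Finset.mem_insert_of_mem h6
        rw [h4]
        exact hF P hp2 Q hq2
  rw [h1]
  have h3 : (Fᶜ.card : ℝ) = 2 ^ Fintype.card α - F.card := by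
    rw [Finset.card_compl, Fintype.card_finset, Nat.cast_sub]
    · push_cast; ring
    · have := Finset.card_le_univ F
      rwa [Fintype.card_finset] at this
  rw [← h3]
  exact_mod_cast h2

theorem bias_eq (F : Finset (Finset α)) (i : α) :
    bias F i = ((F.filter (fun S => i ∉ S)).card : ℝ) - (F.filter (fun S => i ∈ S)).card := by
  rw [← ft_single]
  unfold ft ind
  simp_rw [sg_singleton]
  rw [Finset.card_filter, Finset.card_filter]
  push_cast
  rw [← Finset.sum_sub_distrib]
  have h : ∀ A : Finset α, ((if A ∈ F then (1 : ℝ) else 0) * (if i ∈ A then -1 else 1)) =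
      if A ∈ F then ((if i ∉ A then (1 : ℝ) else 0) - (if i ∈ A then 1 else 0)) else 0 := by
    intro A
    by_cases h1 : A ∈ F <;> by_cases h2 : i ∈ A <;> simp [h1, h2]
  simp_rw [h]
  rw [Finset.sum_ite_mem, Finset.univ_inter]

theorem card_split (F : Finset (Finset α)) (i : α) :
    ((F.filter (fun S => i ∉ S)).card : ℝ) + (F.filter (fun S => i ∈ S)).card = F.card := by
  have h := Finset.card_filter_add_card_filter_not (s := F) (fun S => i ∈ S)
  rw [← h]
  push_cast
  ring

theorem card_notMem_le (F : Finset (Finset α)) (i : α) :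
    2 * ((F.filter (fun S => i ∉ S)).card : ℝ) ≤ 2 ^ Fintype.card α := by
  have h1 := split_sum (fun _ : Finset α => (1 : ℝ)) i
  have h2 : ((F.filter (fun S => i ∉ S)).card : ℝ) ≤
      ((univ.filter (fun P : Finset α => i ∉ P)).card : ℝ) := by
    exact_mod_cast Finset.card_le_card (Finset.filter_subset_filter _ (Finset.subset_univ F))
  simp at h1
  rw [h1]
  linarith

/-- The main inequality. -/
theorem main_ineq (F : Finset (Finset α)) (hF : ∀ X ∈ F, ∀ Y ∈ F, X ∪ Y ∈ F) :
    ∑ i, bias F i * (2 ^ Fintype.card α - 2 * bias F i) ≤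
      2 * (2 ^ Fintype.card α - F.card) * (2 ^ Fintype.card α - 2 * F.card) := by
  have h1 := level_ineq (ind F)
  rw [sum_ft_sq, ft_empty] at h1
  simp_rw [ft_single, edge_sum] at h1
  rw [Finset.sum_sub_distrib, ← Finset.mul_sum, ← Finset.mul_sum] at h1
  have h2 := upb_sum_le F hF
  have h3 : (0 : ℝ) < 2 ^ Fintype.card α := by positivity
  have h4 : ∑ i, bias F i * (2 ^ Fintype.card α - 2 * bias F i) =
      2 ^ Fintype.card α * ∑ i, bias F i - 2 * ∑ i, bias F i ^ 2 := by
    rw [Finset.mul_sum, Finset.mul_sum, ← Finset.sum_sub_distrib]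
    exact Finset.sum_congr rfl (fun i _ => by ring)
  rw [h4]
  have h5 := mul_le_mul_of_nonneg_left h2 h3.le
  nlinarith

/-- The main inequality with the antipodal term. -/
theorem main_ineq_compl (F : Finset (Finset α)) (hF : ∀ X ∈ F, ∀ Y ∈ F, X ∪ Y ∈ F) :
    ∑ i, bias F i * (2 ^ Fintype.card α - 4 * bias F i) +
        2 ^ Fintype.card α / 2 * ∑ A, (ind F A - ind F Aᶜ) ^ 2 ≤
      2 * (2 ^ Fintype.card α - F.card) * (2 ^ Fintype.card α - 2 * F.card) := by
  have h1 := level_ineq_compl (ind F)
  rw [sum_ft_sq, ft_empty] at h1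
  simp_rw [ft_single, edge_sum] at h1
  rw [Finset.sum_sub_distrib, ← Finset.mul_sum, ← Finset.mul_sum] at h1
  have h2 := upb_sum_le F hF
  have h3 : (0 : ℝ) < 2 ^ Fintype.card α := by positivity
  have h4 : ∑ i, bias F i * (2 ^ Fintype.card α - 4 * bias F i) =
      2 ^ Fintype.card α * ∑ i, bias F i - 4 * ∑ i, bias F i ^ 2 := by
    rw [Finset.mul_sum, Finset.mul_sum, ← Finset.sum_sub_distrib]
    exact Finset.sum_congr rfl (fun i _ => by ring)
  rw [h4]
  have h5 := mul_le_mul_of_nonneg_left h2 h3.le
  nlinarith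

/-- A union-closed and complement-closed separating family is the power set. -/
theorem eq_univ_of_compl (F : Finset (Finset α)) (hF : ∀ X ∈ F, ∀ Y ∈ F, X ∪ Y ∈ F)
    (hc : ∀ X ∈ F, Xᶜ ∈ F) (hne : F.Nonempty)
    (hsep : ∀ x y : α, x ≠ y → ∃ S ∈ F, (x ∈ S ∧ y ∉ S) ∨ (y ∈ S ∧ x ∉ S)) :
    F = univ := by
  obtain ⟨X, hX⟩ := hne
  have htop : (univ : Finset α) ∈ F := by
    have h := hF X hX Xᶜ (hc X hX)
    rwa [Finset.union_compl] at h
  have hbot : (∅ : Finset α) ∈ F := by
    have h := hc _ htop
    rwa [Finset.compl_univ] at h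
  have hsep' : ∀ i j : α, i ≠ j → ∃ B ∈ F, j ∈ B ∧ i ∉ B := by
    intro i j hij
    obtain ⟨S, hS, h | h⟩ := hsep i j hij
    · exact ⟨Sᶜ, hc S hS, by simp [h.2], by simp [h.1]⟩
    · exact ⟨S, hS, h.1, h.2⟩
  have hT : ∀ (i : α) (T : Finset α), i ∉ T → ∃ B ∈ F, T ⊆ B ∧ i ∉ B := by
    intro i T
    induction T using Finset.induction_on with
    | empty => intro _; exact ⟨∅, hbot, by simp, by simp⟩
    | insert j T hj ih =>
      intro hi
      rw [Finset.mem_insert] at hi
      push Not at hi
      obtain ⟨B, hB, hB1, hB2⟩ := ih hi.2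
      obtain ⟨C, hC, hC1, hC2⟩ := hsep' i j hi.1
      refine ⟨B ∪ C, hF B hB C hC, ?_, ?_⟩
      · intro x hx
        rcases Finset.mem_insert.1 hx with h | h
        · subst h; exact Finset.mem_union_right _ hC1
        · exact Finset.mem_union_left _ (hB1 h)
      · simp [hB2, hC2]
  have hsing : ∀ i : α, ({i} : Finset α) ∈ F := by
    intro i
    obtain ⟨B, hB, hB1, hB2⟩ := hT i ({i}ᶜ) (by simp)
    have h : Bᶜ = {i} := by
      ext x
      simp only [Finset.mem_compl, Finset.mem_singleton]
      constructor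
      · intro hx
        by_contra hxi
        exact hx (hB1 (by simp [hxi]))
      · intro hx
        subst hx
        exact hB2
    have h2 := hc B hB
    rwa [h] at h2
  rw [Finset.eq_univ_iff_forall]
  intro S
  induction S using Finset.induction_on with
  | empty => exact hbot
  | insert j T hj ih =>
    have h := hF {j} (hsing j) T ih
    rwa [← Finset.insert_eq] at h

/-- Dense case of Poonen's strengthening, for families on a finite type. -/
theorem dense_fin (F : Finset (Finset α)) (hF : ∀ X ∈ F, ∀ Y ∈ F, X ∪ Y ∈ F)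
    (hU : ∀ i : α, ∃ S ∈ F, i ∈ S)
    (hsep : ∀ x y : α, x ≠ y → ∃ S ∈ F, (x ∈ S ∧ y ∉ S) ∨ (y ∈ S ∧ x ∉ S))
    (hne : F ≠ univ) (hd : 2 ^ Fintype.card α ≤ 2 * F.card) :
    ∃ i : α, F.card < 2 * (F.filter (fun S => i ∈ S)).card := by
  by_contra hcon
  push Not at hcon
  have hN : (0 : ℝ) < 2 ^ Fintype.card α := by positivity
  have hlt : (F.card : ℝ) < 2 ^ Fintype.card α := by
    have h1 : F.card < Fintype.card (Finset α) := by
      rcases (Finset.card_le_univ F).lt_or_eq with h | h
      · exact h
      · exact (hne ((Finset.card_eq_iff_eq_univ F).1 h)).elim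
    rw [Fintype.card_finset] at h1
    exact_mod_cast h1
  have hd' : (2 : ℝ) ^ Fintype.card α ≤ 2 * F.card := by exact_mod_cast hd
  have hb0 : ∀ i, 0 ≤ bias F i := by
    intro i
    rw [bias_eq]
    have h1 := card_split F i
    have h2 : (2 : ℝ) * (F.filter (fun S => i ∈ S)).card ≤ F.card := by exact_mod_cast hcon i
    linarith
  have hb1 : ∀ i, 2 * bias F i ≤ 2 ^ Fintype.card α -
      2 * (F.filter (fun S => i ∈ S)).card := by
    intro i
    rw [bias_eq]
    have h1 := card_notMem_le F i
    linarith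
  have hb2 : ∀ i, 2 * bias F i < 2 ^ Fintype.card α := by
    intro i
    obtain ⟨S, hS, hiS⟩ := hU i
    have h1 : 0 < (F.filter (fun S => i ∈ S)).card :=
      Finset.card_pos.2 ⟨S, Finset.mem_filter.2 ⟨hS, hiS⟩⟩
    have h2 : (0 : ℝ) < (F.filter (fun S => i ∈ S)).card := by exact_mod_cast h1
    linarith [hb1 i]
  have hterm : ∀ i ∈ (univ : Finset α), 0 ≤ bias F i * (2 ^ Fintype.card α - 2 * bias F i) := by
    intro i _
    exact mul_nonneg (hb0 i) (by linarith [hb2 i])
  have hmain := main_ineq F hF
  have hs := Finset.sum_nonneg hterm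
  have heq : 2 * (F.card : ℝ) = 2 ^ Fintype.card α := by
    by_contra hcon2
    have h1 : (2 : ℝ) ^ Fintype.card α < 2 * F.card := lt_of_le_of_ne hd' (Ne.symm hcon2)
    nlinarith
  have hz : ∑ i, bias F i * (2 ^ Fintype.card α - 2 * bias F i) = 0 := by
    apply le_antisymm _ hs
    rw [heq] at hmain
    linarith
  have hb3 : ∀ i, bias F i = 0 := by
    intro i
    have h1 := (Finset.sum_eq_zero_iff_of_nonneg hterm).1 hz i (Finset.mem_univ i)
    rcases mul_eq_zero.1 h1 with h2 | h2
    · exact h2
    · linarith [hb2 i]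
  have hmain2 := main_ineq_compl F hF
  simp_rw [hb3] at hmain2
  rw [heq] at hmain2
  simp only [zero_mul, Finset.sum_const_zero, zero_add, sub_self, mul_zero] at hmain2
  have hz2 : ∑ A, (ind F A - ind F Aᶜ) ^ 2 = 0 := by
    apply le_antisymm
    · by_contra hcon2
      push Not at hcon2
      have := mul_pos (half_pos hN) hcon2
      linarith
    · exact Finset.sum_nonneg (fun A _ => sq_nonneg _)
  have hcl : ∀ X ∈ F, Xᶜ ∈ F := by
    intro X hX
    have h1 := (Finset.sum_eq_zero_iff_of_nonneg (fun A _ => sq_nonneg _)).1 hz2 X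
      (Finset.mem_univ X)
    by_contra hXc
    have h2 : ind F X = 1 := by simp [ind, hX]
    have h3 : ind F Xᶜ = 0 := by simp [ind, hXc]
    rw [h2, h3] at h1
    norm_num at h1
  have hnonempty : F.Nonempty := by
    rw [← Finset.card_pos]
    have h1 : (0 : ℝ) < F.card := by linarith
    exact_mod_cast h1
  exact hne (eq_univ_of_compl F hF hcl hnonempty hsep)

end Pool.Agent.H637R3.UC
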