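import Mathlib
import Pool.Agent.H637R3.UC.Dense

set_option autoImplicit false
set_option linter.unusedSectionVars false

/-!
# Normalised Walsh coefficients, restrictions and derivatives
-/

namespace Pool.Agent.H637R3.UC

open Finset

variable {α : Type*} [Fintype α] [DecidableEq α]

/-- average over the cube -/
noncomputable def av (f : Finset α → ℝ) : ℝ := (∑ A, f A) / 2 ^ Fintype.card α

/-- normalised Walsh coefficient -/
noncomputable def cf (f : Finset α → ℝ) (S : Finset α) : ℝ := ft f S / 2 ^ Fintype.card α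

theorem npos : (0 : ℝ) < 2 ^ Fintype.card α := by positivity

theorem cf_eq (f : Finset α → ℝ) (S : Finset α) : cf f S = av (fun A => f A * sg A S) := rfl

theorem cf_empty (f : Finset α → ℝ) : cf f ∅ = av f := by
  rw [cf_eq]
  simp [sg_empty]

theorem cf_parseval (f : Finset α → ℝ) : ∑ S, cf f S ^ 2 = av (fun A => f A ^ 2) := by
  have h := parseval f
  have hN := (npos (α := α)).ne'
  unfold cf av
  simp_rw [div_pow]
  rw [← Finset.sum_div, h]
  field_simp

theorem av_mono {f g : Finset α → ℝ} (h : ∀ A, f A ≤ g A) : av f ≤ av g := by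
  unfold av
  exact div_le_div_of_nonneg_right (Finset.sum_le_sum (fun A _ => h A)) npos.le

theorem av_nonneg {f : Finset α → ℝ} (h : ∀ A, 0 ≤ f A) : 0 ≤ av f := by
  unfold av
  exact div_nonneg (Finset.sum_nonneg (fun A _ => h A)) npos.le

theorem av_add (f g : Finset α → ℝ) : av (fun A => f A + g A) = av f + av g := by
  unfold av
  rw [Finset.sum_add_distrib, add_div]

theorem av_sub (f g : Finset α → ℝ) : av (fun A => f A - g A) = av f - av g := by
  unfold av
  rw [Finset.sum_sub_distrib, sub_div]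

theorem av_mul (c : ℝ) (f : Finset α → ℝ) : av (fun A => c * f A) = c * av f := by
  unfold av
  rw [← Finset.mul_sum, mul_div_assoc]

theorem av_const (c : ℝ) : av (fun _ : Finset α => c) = c := by
  unfold av
  rw [Finset.sum_const, Finset.card_univ, Fintype.card_finset, nsmul_eq_mul]
  push_cast
  have hN := (npos (α := α)).ne'
  field_simp

theorem av_sum {ι : Type*} (s : Finset ι) (f : ι → Finset α → ℝ) :
    av (fun A => ∑ i ∈ s, f i A) = ∑ i ∈ s, av (f i) := by
  unfold av
  rw [Finset.sum_comm, Finset.sum_div]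

/-- Cauchy-Schwarz -/
theorem av_cs (f g : Finset α → ℝ) :
    av (fun A => f A * g A) ^ 2 ≤ av (fun A => f A ^ 2) * av (fun A => g A ^ 2) := by
  unfold av
  have h := Finset.sum_mul_sq_le_sq_mul_sq univ f g
  rw [div_pow, div_mul_div_comm, ← sq]
  exact div_le_div_of_nonneg_right h (by positivity)

/-- lower restriction, seen as a function on the whole cube -/
def lo (i : α) (f : Finset α → ℝ) (A : Finset α) : ℝ := f (A.erase i)

/-- upper restriction -/
def hi (i : α) (f : Finset α → ℝ) (A : Finset α) : ℝ := f (insert i A)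

theorem sg_insert {i : α} {S : Finset α} (h : i ∉ S) (A : Finset α) :
    sg A (insert i S) = sg1 A i * sg A S := by
  unfold sg
  rw [Finset.prod_insert h]

theorem sg_insert_left_of_notMem {i : α} {S : Finset α} (h : i ∉ S) (P : Finset α) :
    sg (insert i P) S = sg P S := by
  unfold sg
  refine Finset.prod_congr rfl (fun j hj => ?_)
  have hji : j ≠ i := fun h2 => h (h2 ▸ hj)
  unfold sg1
  simp [hji]

theorem sg_insert_left_of_mem {i : α} {S P : Finset α} (h : i ∈ S) (hP : i ∉ P) :
    sg (insert i P) S = - sg P S := by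
  have hS : S = insert i (S.erase i) := (Finset.insert_erase h).symm
  rw [hS, sg_insert (Finset.notMem_erase i S), sg_insert (Finset.notMem_erase i S),
    sg_insert_left_of_notMem (Finset.notMem_erase i S)]
  simp [sg1, hP]

theorem cf_lo (i : α) (f : Finset α → ℝ) (S : Finset α) :
    cf (lo i f) S = if i ∈ S then 0 else cf f S + cf f (insert i S) := by
  unfold cf
  split_ifs with h
  · rw [div_eq_zero_iff]
    left
    unfold ft lo
    rw [split_sum _ i]
    refine Finset.sum_eq_zero (fun P hP => ?_)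
    simp at hP
    rw [sg_insert_left_of_mem h hP, Finset.erase_insert hP, Finset.erase_eq_of_notMem hP]
    ring
  · rw [← add_div]
    congr 1
    unfold ft lo
    rw [split_sum _ i, split_sum (fun A => f A * sg A S) i,
      split_sum (fun A => f A * sg A (insert i S)) i, ← Finset.sum_add_distrib]
    refine Finset.sum_congr rfl (fun P hP => ?_)
    simp at hP
    rw [sg_insert h, sg_insert h, sg_insert_left_of_notMem h, Finset.erase_insert hP,
      Finset.erase_eq_of_notMem hP]
    simp [sg1, hP]
    ring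

theorem cf_hi (i : α) (f : Finset α → ℝ) (S : Finset α) :
    cf (hi i f) S = if i ∈ S then 0 else cf f S - cf f (insert i S) := by
  unfold cf
  split_ifs with h
  · rw [div_eq_zero_iff]
    left
    unfold ft hi
    rw [split_sum _ i]
    refine Finset.sum_eq_zero (fun P hP => ?_)
    simp at hP
    rw [sg_insert_left_of_mem h hP, Finset.insert_idem]
    ring
  · rw [← sub_div]
    congr 1
    unfold ft hi
    rw [split_sum _ i, split_sum (fun A => f A * sg A S) i,
      split_sum (fun A => f A * sg A (insert i S)) i, ← Finset.sum_sub_distrib]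
    refine Finset.sum_congr rfl (fun P hP => ?_)
    simp at hP
    rw [sg_insert h, sg_insert h, sg_insert_left_of_notMem h, Finset.insert_idem]
    simp [sg1, hP]

/-- the derivative in direction `i` -/
def dd (i : α) (f : Finset α → ℝ) (A : Finset α) : ℝ := lo i f A - hi i f A

theorem cf_sub (f g : Finset α → ℝ) (S : Finset α) :
    cf (fun A => f A - g A) S = cf f S - cf g S := by
  unfold cf
  rw [ft_sub, sub_div]

theorem cf_dd (i : α) (f : Finset α → ℝ) (S : Finset α) :
    cf (dd i f) S = if i ∈ S then 0 else 2 * cf f (insert i S) := by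
  have h : cf (dd i f) S = cf (lo i f) S - cf (hi i f) S := cf_sub _ _ _
  rw [h, cf_lo, cf_hi]
  split_ifs
  · ring
  · ring

theorem sum_insert_eq (φ : Finset α → ℝ) (i : α) :
    ∑ S : Finset α, (if i ∈ S then 0 else φ (insert i S)) =
      ∑ S : Finset α, (if i ∈ S then φ S else 0) := by
  rw [split_sum _ i, split_sum (fun S => if i ∈ S then φ S else 0) i]
  refine Finset.sum_congr rfl (fun P hP => ?_)
  simp at hP
  simp [hP]

theorem dd_sq (i : α) (f : Finset α → ℝ) :
    av (fun A => dd i f A ^ 2) = ∑ S : Finset α, (if i ∈ S then 4 * cf f S ^ 2 else 0) := by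
  rw [← cf_parseval, ← sum_insert_eq (fun S => 4 * cf f S ^ 2) i]
  refine Finset.sum_congr rfl (fun S _ => ?_)
  rw [cf_dd]
  split_ifs
  · ring
  · ring

theorem sum_dd_sq (f : Finset α → ℝ) :
    ∑ i, av (fun A => dd i f A ^ 2) = ∑ S : Finset α, 4 * (S.card : ℝ) * cf f S ^ 2 := by
  simp_rw [dd_sq]
  rw [Finset.sum_comm]
  refine Finset.sum_congr rfl (fun S _ => ?_)
  rw [Finset.sum_ite_mem]
  simp
  ring

theorem dd_sq_pt (i : α) (f : Finset α → ℝ) (A : Finset α) :
    dd i f A ^ 2 = (f A - f (symmDiff A {i})) ^ 2 := by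
  unfold dd lo hi
  by_cases h : i ∈ A
  · have h1 : symmDiff A {i} = A.erase i := by
      have h2 := symm_single_insert (Finset.notMem_erase i A)
      rwa [Finset.insert_erase h] at h2
    rw [h1, Finset.insert_eq_of_mem h]
    ring
  · rw [symm_single_of_notMem h, Finset.erase_eq_of_notMem h]

/-- the level at least three weight -/
noncomputable def th (f : Finset α → ℝ) : ℝ := ∑ S : Finset α, ((S.card - 2 : ℕ) : ℝ) * cf f S ^ 2

theorem th_nonneg (f : Finset α → ℝ) : 0 ≤ th f :=
  Finset.sum_nonneg (fun S _ => mul_nonneg (Nat.cast_nonneg _) (sq_nonneg _))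

theorem cf_level_one_sum (f : Finset α → ℝ) :
    ∑ S : Finset α, (if S.card = 1 then cf f S ^ 2 else 0) = ∑ i, cf f {i} ^ 2 :=
  sum_level_one (fun S => cf f S ^ 2)

theorem cf_empty_sum (f : Finset α → ℝ) :
    ∑ S : Finset α, (if S = ∅ then cf f S ^ 2 else 0) = av f ^ 2 := by
  rw [Finset.sum_ite_eq']
  simp [cf_empty]

/-- decomposition of the Dirichlet form -/
theorem dirichlet_eq (f : Finset α → ℝ) :
    ∑ i, av (fun A => dd i f A ^ 2) =
      8 * av (fun A => f A ^ 2) - 8 * av f ^ 2 - 4 * ∑ i, cf f {i} ^ 2 + 4 * th f := by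
  rw [sum_dd_sq, ← cf_parseval, ← cf_empty_sum, ← cf_level_one_sum, th, Finset.mul_sum,
    Finset.mul_sum, Finset.mul_sum, Finset.mul_sum, ← Finset.sum_sub_distrib,
    ← Finset.sum_sub_distrib, ← Finset.sum_add_distrib]
  refine Finset.sum_congr rfl (fun S _ => ?_)
  by_cases h1 : S = ∅
  · subst h1; simp
  · have h2 : 1 ≤ S.card := Finset.card_pos.2 (Finset.nonempty_iff_ne_empty.2 h1)
    rw [if_neg h1]
    by_cases h3 : S.card = 1
    · rw [if_pos h3, h3]; norm_num; ring
    · rw [if_neg h3]
      have h4 : 2 ≤ S.card := by omega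
      rw [Nat.cast_sub h4]
      push_cast
      ring

theorem av_ind (F : Finset (Finset α)) : av (ind F) = F.card / 2 ^ Fintype.card α := by
  unfold av ind
  simp

theorem cf_single (F : Finset (Finset α)) (i : α) :
    cf (ind F) {i} = bias F i / 2 ^ Fintype.card α := by
  unfold cf
  rw [ft_single]

theorem av_dd (F : Finset (Finset α)) (i : α) :
    av (fun A => dd i (ind F) A ^ 2) =
      (4 * upb F i - 2 * bias F i) / 2 ^ Fintype.card α := by
  unfold av
  simp_rw [dd_sq_pt]
  rw [edge_sum]

theorem av_ind_sq (F : Finset (Finset α)) : av (fun A => ind F A ^ 2) = av (ind F) := by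
  simp_rw [ind_sq]

/-- The main inequality, normalised. -/
theorem norm_ineq (F : Finset (Finset α)) (hF : ∀ X ∈ F, ∀ Y ∈ F, X ∪ Y ∈ F) :
    ∑ i, cf (ind F) {i} * (1 - 2 * cf (ind F) {i}) + 2 * th (ind F) ≤
      2 * (1 - av (ind F)) * (1 - 2 * av (ind F)) := by
  have h1 := dirichlet_eq (ind F)
  simp_rw [av_dd] at h1
  rw [← Finset.sum_div, Finset.sum_sub_distrib, ← Finset.mul_sum, ← Finset.mul_sum,
    av_ind_sq] at h1
  have h2 := upb_sum_le F hF
  have hN : (0 : ℝ) < 2 ^ Fintype.card α := npos
  have h3 : ∑ i, cf (ind F) {i} = (∑ i, bias F i) / 2 ^ Fintype.card α := by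
    simp_rw [cf_single]
    rw [Finset.sum_div]
  have h4 : ∑ i, cf (ind F) {i} * (1 - 2 * cf (ind F) {i}) =
      ∑ i, cf (ind F) {i} - 2 * ∑ i, cf (ind F) {i} ^ 2 := by
    rw [Finset.mul_sum, ← Finset.sum_sub_distrib]
    exact Finset.sum_congr rfl (fun i _ => by ring)
  have h5 : (∑ i, upb F i) / 2 ^ Fintype.card α ≤ 1 - av (ind F) := by
    rw [av_ind, div_le_iff₀ hN]
    field_simp
    linarith
  have h6 : (4 * ∑ i, upb F i - 2 * ∑ i, bias F i) / 2 ^ Fintype.card α =
      4 * ((∑ i, upb F i) / 2 ^ Fintype.card α) - 2 * ∑ i, cf (ind F) {i} := by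
    rw [h3]; ring
  rw [h4]
  rw [h6] at h1
  nlinarith

end Pool.Agent.H637R3.UC
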