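import Mathlib
import Pool.Agent.H637R3.UC.Norm

set_option autoImplicit false
set_option linter.unusedSectionVars false

/-!
# Fourth moments of linear forms, and the level one weight of functions with values -1, 0, 1
-/

namespace Pool.Agent.H637R3.UC

open Finset

variable {α : Type*} [Fintype α] [DecidableEq α]

theorem av_flip_zero (i : α) (g : Finset α → ℝ)
    (h : ∀ P : Finset α, i ∉ P → g (insert i P) = - g P) : av g = 0 := by
  unfold av
  rw [split_sum g i]
  rw [Finset.sum_eq_zero]
  · simp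
  · intro P hP
    simp at hP
    rw [h P hP]
    ring

/-- linear form -/
def lin (c : α → ℝ) (T : Finset α) (A : Finset α) : ℝ := ∑ k ∈ T, c k * sg1 A k

theorem lin_insert_left (c : α → ℝ) (T : Finset α) (i : α) (h : i ∉ T) (P : Finset α) :
    lin c T (insert i P) = lin c T P := by
  unfold lin
  refine Finset.sum_congr rfl (fun k hk => ?_)
  have hki : k ≠ i := fun h2 => h (h2 ▸ hk)
  unfold sg1
  simp [hki]

theorem sg1_insert_self (i : α) (P : Finset α) (h : i ∉ P) :
    sg1 (insert i P) i = - sg1 P i := by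
  simp [sg1, h]

theorem sg1_sq (A : Finset α) (i : α) : sg1 A i ^ 2 = 1 := by
  unfold sg1; split_ifs <;> norm_num

theorem lin_moments (c : α → ℝ) (T : Finset α) :
    av (fun A => lin c T A ^ 2) = ∑ k ∈ T, c k ^ 2 ∧
      av (fun A => lin c T A ^ 4) ≤ 3 * (∑ k ∈ T, c k ^ 2) ^ 2 := by
  induction T using Finset.induction_on with
  | empty =>
    constructor
    · simp [lin, av]
    · simp [lin, av]
  | insert t T ht ih =>
    obtain ⟨ih1, ih2⟩ := ih
    have hl : ∀ A, lin c (insert t T) A = lin c T A + c t * sg1 A t := by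
      intro A
      unfold lin
      rw [Finset.sum_insert ht]
      ring
    have h2 : ∀ A, lin c (insert t T) A ^ 2 =
        lin c T A ^ 2 + ((2 * c t) * (lin c T A * sg1 A t) + c t ^ 2) := by
      intro A
      rw [hl]
      have := sg1_sq A t
      linear_combination (c t ^ 2) * this
    have h4 : ∀ A, lin c (insert t T) A ^ 4 =
        lin c T A ^ 4 + ((6 * c t ^ 2) * lin c T A ^ 2 + (c t ^ 4 +
          ((4 * c t) * (lin c T A ^ 3 * sg1 A t) + (4 * c t ^ 3) * (lin c T A * sg1 A t)))) := by
      intro A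
      rw [hl]
      have := sg1_sq A t
      have h5 : sg1 A t ^ 3 = sg1 A t := by
        calc sg1 A t ^ 3 = sg1 A t ^ 2 * sg1 A t := by ring
          _ = sg1 A t := by rw [this]; ring
      have h6 : sg1 A t ^ 4 = 1 := by
        calc sg1 A t ^ 4 = (sg1 A t ^ 2) ^ 2 := by ring
          _ = 1 := by rw [this]; ring
      linear_combination (6 * c t ^ 2 * lin c T A ^ 2) * this + (4 * c t ^ 3 * lin c T A) * h5 +
        (c t ^ 4) * h6
    have z1 : av (fun A => lin c T A * sg1 A t) = 0 := by
      apply av_flip_zero t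
      intro P hP
      rw [lin_insert_left c T t ht, sg1_insert_self t P hP]
      ring
    have z2 : av (fun A => lin c T A ^ 3 * sg1 A t) = 0 := by
      apply av_flip_zero t
      intro P hP
      rw [lin_insert_left c T t ht, sg1_insert_self t P hP]
      ring
    rw [Finset.sum_insert ht]
    constructor
    · simp_rw [h2]
      rw [av_add, av_add, av_mul, av_const, z1, ih1]
      ring
    · simp_rw [h4]
      rw [av_add, av_add, av_add, av_add, av_mul, av_mul, av_mul, av_const, z1, z2, ih1]
      nlinarith [sq_nonneg (c t ^ 2)]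

/-- For a function with values in `{-1, 0, 1}` the level one weight is small compared to its
mean square, if the latter is small. -/
theorem level_one_small (g : Finset α → ℝ) (hg : ∀ A, g A ^ 3 = g A) :
    (∑ k, cf g {k} ^ 2) ^ 2 ≤ 3 * av (fun A => g A ^ 2) ^ 3 := by
  set L := ∑ k, cf g {k} ^ 2 with hL
  set v := av (fun A => g A ^ 2) with hv
  set l : Finset α → ℝ := lin (fun k => cf g {k}) univ with hl
  have hLnn : 0 ≤ L := Finset.sum_nonneg (fun k _ => sq_nonneg _)
  have hvnn : 0 ≤ v := av_nonneg (fun A => sq_nonneg _)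
  have h1 : av (fun A => g A * l A) = L := by
    have h2 : ∀ A, g A * l A = ∑ k, cf g {k} * (g A * sg A {k}) := by
      intro A
      rw [hl]
      unfold lin
      rw [Finset.mul_sum]
      refine Finset.sum_congr rfl (fun k _ => ?_)
      rw [sg_singleton]
      unfold sg1
      ring
    simp_rw [h2]
    rw [av_sum]
    simp_rw [av_mul]
    rw [hL]
    refine Finset.sum_congr rfl (fun k _ => ?_)
    rw [← cf_eq]
    ring
  obtain ⟨_, h4⟩ := lin_moments (fun k => cf g {k}) (univ : Finset α)
  rw [← hl, ← hL] at h4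
  have hg4 : ∀ A, g A ^ 4 = g A ^ 2 := by
    intro A
    calc g A ^ 4 = g A ^ 3 * g A := by ring
      _ = g A ^ 2 := by rw [hg]; ring
  -- first Cauchy-Schwarz
  have c1 : L ^ 2 ≤ v * av (fun A => g A ^ 2 * l A ^ 2) := by
    have h5 := av_cs g (fun A => g A ^ 2 * l A)
    have h6 : (fun A => g A * (g A ^ 2 * l A)) = fun A => g A * l A := by
      funext A
      calc g A * (g A ^ 2 * l A) = g A ^ 3 * l A := by ring
        _ = g A * l A := by rw [hg]
    have h7 : (fun A => (g A ^ 2 * l A) ^ 2) = fun A => g A ^ 2 * l A ^ 2 := by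
      funext A
      calc (g A ^ 2 * l A) ^ 2 = g A ^ 4 * l A ^ 2 := by ring
        _ = g A ^ 2 * l A ^ 2 := by rw [hg4]
    rw [h6, h7, h1] at h5
    exact h5
  -- second Cauchy-Schwarz
  have c2 : av (fun A => g A ^ 2 * l A ^ 2) ^ 2 ≤ v * (3 * L ^ 2) := by
    have h5 := av_cs (fun A => g A ^ 2) (fun A => l A ^ 2)
    have h6 : (fun A => (g A ^ 2) ^ 2) = fun A => g A ^ 2 := by
      funext A
      rw [← pow_mul]
      exact hg4 A
    have h7 : (fun A => (l A ^ 2) ^ 2) = fun A => l A ^ 4 := by
      funext A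
      rw [← pow_mul]
    rw [h6, h7] at h5
    exact h5.trans (mul_le_mul_of_nonneg_left h4 hvnn)
  rcases hLnn.eq_or_lt with h0 | hpos
  · rw [← h0]
    have := pow_nonneg hvnn 3
    linarith
  · have hW : 0 ≤ av (fun A => g A ^ 2 * l A ^ 2) :=
      av_nonneg (fun A => mul_nonneg (sq_nonneg _) (sq_nonneg _))
    have c3 : L ^ 2 * L ^ 2 ≤ 3 * v ^ 3 * L ^ 2 := by
      calc L ^ 2 * L ^ 2 ≤ (v * av (fun A => g A ^ 2 * l A ^ 2)) *
            (v * av (fun A => g A ^ 2 * l A ^ 2)) :=
            mul_le_mul c1 c1 (sq_nonneg _) (mul_nonneg hvnn hW)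
        _ = v ^ 2 * av (fun A => g A ^ 2 * l A ^ 2) ^ 2 := by ring
        _ ≤ v ^ 2 * (v * (3 * L ^ 2)) := mul_le_mul_of_nonneg_left c2 (sq_nonneg _)
        _ = 3 * v ^ 3 * L ^ 2 := by ring
    have hL2 : 0 < L ^ 2 := by positivity
    exact le_of_mul_le_mul_right c3 hL2

end Pool.Agent.H637R3.UC
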