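import Mathlib
import Pool.Agent.H637R3.UC.Norm

set_option autoImplicit false
set_option linter.unusedSectionVars false

/-!
# The edge isoperimetric inequality in the cube
-/

namespace Pool.Agent.H637R3.UC

open Finset Real

variable {α : Type*} [Fintype α] [DecidableEq α]

theorem entropy_ge {p : ℝ} (h0 : 0 ≤ p) (h1 : p ≤ 1 / 2) : 2 * p * log 2 ≤ binEntropy p := by
  have hc := Real.strictConcave_binEntropy.concaveOn
  have h := hc.2 (show (0 : ℝ) ∈ Set.Icc (0 : ℝ) 1 by constructor <;> norm_num)
    (show (2⁻¹ : ℝ) ∈ Set.Icc (0 : ℝ) 1 by constructor <;> norm_num)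
    (show (0 : ℝ) ≤ 1 - 2 * p by linarith) (show (0 : ℝ) ≤ 2 * p by linarith)
    (by ring)
  simp only [smul_eq_mul, Real.binEntropy_zero, Real.binEntropy_two_inv, mul_zero, zero_add] at h
  have h2 : 2 * p * 2⁻¹ = p := by ring
  rwa [h2] at h

theorem log_ineq_aux {a b : ℝ} (hb : 0 ≤ b) (hba : b ≤ a) :
    a * log a + b * log b + 2 * log 2 * b ≤ (a + b) * log (a + b) := by
  rcases hb.eq_or_lt with h | h
  · rw [← h]; simp
  · have ha : 0 < a := lt_of_lt_of_le h hba
    have hs : 0 < a + b := by linarith
    have hp0 : 0 ≤ b / (a + b) := by positivity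
    have hp1 : b / (a + b) ≤ 1 / 2 := by
      rw [div_le_iff₀ hs]; linarith
    have h2 := entropy_ge hp0 hp1
    have h3 : 1 - b / (a + b) = a / (a + b) := by field_simp; ring
    rw [Real.binEntropy, h3, inv_div, inv_div, Real.log_div hs.ne' h.ne',
      Real.log_div hs.ne' ha.ne'] at h2
    have h4 := mul_le_mul_of_nonneg_left h2 hs.le
    have h5 : (a + b) * (2 * (b / (a + b)) * log 2) = 2 * log 2 * b := by
      field_simp
    have h6 : (a + b) * (b / (a + b) * (log (a + b) - log b) +
        a / (a + b) * (log (a + b) - log a)) =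
        (a + b) * log (a + b) - a * log a - b * log b := by
      field_simp
      ring
    rw [h5, h6] at h4
    linarith

theorem log_ineq {a b : ℝ} (ha : 0 ≤ a) (hb : 0 ≤ b) :
    a * log a + b * log b + 2 * log 2 * min a b ≤ (a + b) * log (a + b) := by
  rcases le_total b a with h | h
  · rw [min_eq_right h]; exact log_ineq_aux hb h
  · rw [min_eq_left h]
    have := log_ineq_aux ha h
    rw [add_comm b a] at this
    linarith

/-- inner edges in direction `l` -/
def ie (G : Finset (Finset α)) (l : α) : ℕ := (G.filter (fun P => l ∉ P ∧ insert l P ∈ G)).card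

theorem ie_le_left (G : Finset (Finset α)) (l : α) :
    ie G l ≤ (G.filter (fun P => l ∉ P)).card := by
  unfold ie
  refine Finset.card_le_card ?_
  intro P hP
  rw [Finset.mem_filter] at *
  exact ⟨hP.1, hP.2.1⟩

theorem ie_le_right (G : Finset (Finset α)) (l : α) :
    ie G l ≤ (G.filter (fun P => l ∈ P)).card := by
  unfold ie
  refine Finset.card_le_card_of_injOn (fun P => insert l P) ?_ ?_
  · intro P hP
    simp at hP ⊢
    exact hP.2.2
  · intro P hP Q hQ h
    simp at hP hQ
    have h5 := congrArg (fun s => Finset.erase s l) h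
    simpa [Finset.erase_insert hP.2.1, Finset.erase_insert hQ.2.1] using h5

theorem ie_split (G : Finset (Finset α)) (t l : α) (h : l ≠ t) :
    ie G l = ie (G.filter (fun P => t ∉ P)) l + ie (G.filter (fun P => t ∈ P)) l := by
  unfold ie
  rw [← Finset.card_filter_add_card_filter_not (s := G.filter (fun P => l ∉ P ∧ insert l P ∈ G))
    (fun P => t ∉ P)]
  congr 1
  · congr 1
    ext P
    simp only [Finset.mem_filter, Finset.mem_insert]
    constructor
    · rintro ⟨⟨h1, h2, h3⟩, h4⟩
      exact ⟨⟨h1, h4⟩, h2, h3, by rintro (h5 | h5); exacts [h h5.symm, h4 h5]⟩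
    · rintro ⟨⟨h1, h4⟩, h2, h3, _⟩
      exact ⟨⟨h1, h2, h3⟩, h4⟩
  · congr 1
    ext P
    simp only [Finset.mem_filter, Finset.mem_insert, not_not]
    constructor
    · rintro ⟨⟨h1, h2, h3⟩, h4⟩
      exact ⟨⟨h1, h4⟩, h2, h3, Or.inr h4⟩
    · rintro ⟨⟨h1, h4⟩, h2, h3, _⟩
      exact ⟨⟨h1, h2, h3⟩, h4⟩

theorem iso (T : Finset α) : ∀ G : Finset (Finset α),
    2 * log 2 * ((∑ l ∈ T, ie G l : ℕ) : ℝ) ≤ G.card * log G.card := by
  induction T using Finset.induction_on with
  | empty =>
    intro G
    simp
    rcases Nat.eq_zero_or_pos G.card with h | h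
    · simp [h]
    · have h1 : (1 : ℝ) ≤ G.card := by exact_mod_cast h
      have := Real.log_nonneg h1
      positivity
  | insert t T ht ih =>
    intro G
    rw [Finset.sum_insert ht]
    have h1 : ∑ l ∈ T, ie G l = ∑ l ∈ T, ie (G.filter (fun P => t ∉ P)) l +
        ∑ l ∈ T, ie (G.filter (fun P => t ∈ P)) l := by
      rw [← Finset.sum_add_distrib]
      refine Finset.sum_congr rfl (fun l hl => ie_split G t l ?_)
      rintro rfl
      exact ht hl
    have h2 := ih (G.filter (fun P => t ∉ P))
    have h3 := ih (G.filter (fun P => t ∈ P))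
    have h4 : (ie G t : ℝ) ≤ min ((G.filter (fun P => t ∉ P)).card : ℝ)
        ((G.filter (fun P => t ∈ P)).card : ℝ) := by
      apply le_min
      · exact_mod_cast ie_le_left G t
      · exact_mod_cast ie_le_right G t
    have h5 := log_ineq (a := ((G.filter (fun P => t ∉ P)).card : ℝ))
      (b := ((G.filter (fun P => t ∈ P)).card : ℝ)) (Nat.cast_nonneg _) (Nat.cast_nonneg _)
    rw [card_split] at h5
    rw [h1]
    push_cast at *
    have hl2 : 0 < log 2 := Real.log_pos (by norm_num)
    have h6 := mul_le_mul_of_nonneg_left h4 (show (0 : ℝ) ≤ 2 * log 2 by positivity)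
    linarith

theorem sum_prod_ind (G : Finset (Finset α)) (l : α) :
    ∑ A, ind G A * ind G (symmDiff A {l}) = 2 * ie G l := by
  rw [split_sum _ l]
  have h : ∀ P ∈ univ.filter (fun P : Finset α => l ∉ P),
      (ind G P * ind G (symmDiff P {l}) +
        ind G (insert l P) * ind G (symmDiff (insert l P) {l})) =
      2 * (if P ∈ G ∧ insert l P ∈ G then 1 else 0) := by
    intro P hP
    simp at hP
    rw [symm_single_of_notMem hP, symm_single_insert hP]
    unfold ind
    by_cases h1 : P ∈ G <;> by_cases h2 : insert l P ∈ G <;> simp [h1, h2]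
    norm_num
  rw [Finset.sum_congr rfl h, ← Finset.mul_sum]
  congr 1
  unfold ie
  rw [Finset.card_filter]
  push_cast
  rw [← Finset.sum_filter, Finset.filter_filter, ← Finset.sum_filter]
  rw [Finset.sum_const, Finset.sum_const]
  congr 2
  ext P
  simp
  tauto

theorem boundary_eq (G : Finset (Finset α)) (l : α) :
    ∑ A, (ind G A - ind G (symmDiff A {l})) ^ 2 = 2 * G.card - 4 * ie G l := by
  have h1 : ∀ A, (ind G A - ind G (symmDiff A {l})) ^ 2 =
      ind G A + ind G (symmDiff A {l}) - 2 * (ind G A * ind G (symmDiff A {l})) := by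
    intro A
    have h2 := ind_sq G A
    have h3 := ind_sq G (symmDiff A {l})
    linear_combination h2 + h3
  simp_rw [h1]
  rw [Finset.sum_sub_distrib, Finset.sum_add_distrib, ← Finset.mul_sum, sum_prod_ind]
  have h4 : ∑ A, ind G A = G.card := by unfold ind; simp
  have h5 : ∑ A, ind G (symmDiff A {l}) = G.card := by
    rw [← h4]
    exact Finset.sum_bij' (fun A _ => symmDiff A {l}) (fun A _ => symmDiff A {l})
      (by simp) (by simp) (by simp) (by simp) (by simp)
  rw [h4, h5]
  ring

/-- strict isoperimetric inequality for small families -/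
theorem boundary_lower (G : Finset (Finset α)) (m : ℕ) (h0 : 0 < G.card)
    (hm : G.card * 2 ^ m < 2 ^ Fintype.card α) :
    2 * (m : ℝ) * G.card < ∑ l, ∑ A, (ind G A - ind G (symmDiff A {l})) ^ 2 := by
  simp_rw [boundary_eq]
  have h1 := iso (univ : Finset α) G
  rw [Finset.sum_sub_distrib, ← Finset.mul_sum, ← Finset.mul_sum, Finset.sum_const,
    Finset.card_univ]
  push_cast at h1
  have hl2 : 0 < log 2 := Real.log_pos (by norm_num)
  have hg : (0 : ℝ) < G.card := by exact_mod_cast h0
  have h2 : (G.card : ℝ) * 2 ^ m < 2 ^ Fintype.card α := by exact_mod_cast hm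
  have h3 := Real.log_lt_log (by positivity) h2
  rw [Real.log_mul hg.ne' (by positivity), Real.log_pow, Real.log_pow] at h3
  have h4 : (G.card : ℝ) * log G.card < G.card * ((Fintype.card α - m) * log 2) := by
    apply mul_lt_mul_of_pos_left _ hg
    linarith
  have h5 : 2 * log 2 * (∑ l, (ie G l : ℝ)) < G.card * ((Fintype.card α - m) * log 2) :=
    lt_of_le_of_lt h1 h4
  have h6 : 2 * (∑ l, (ie G l : ℝ)) < G.card * (Fintype.card α - m) := by
    by_contra hcon
    push Not at hcon
    have := mul_le_mul_of_nonneg_right hcon hl2.le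
    nlinarith
  rw [nsmul_eq_mul]
  nlinarith

end Pool.Agent.H637R3.UC
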