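import Mathlib
import Pool.Agent.H637R3.UC.Iso

set_option autoImplicit false
set_option linter.unusedSectionVars false
set_option linter.dupNamespace false

/-!
# Slices of union-closed families
-/

namespace Pool.Agent.H637R3.UC

open Finset

variable {α : Type*} [Fintype α] [DecidableEq α]

/-- union-closed -/
def UC (F : Finset (Finset α)) : Prop := ∀ X ∈ F, ∀ Y ∈ F, X ∪ Y ∈ F

def loF (i : α) (F : Finset (Finset α)) : Finset (Finset α) :=
  univ.filter (fun A => A.erase i ∈ F)

def hiF (i : α) (F : Finset (Finset α)) : Finset (Finset α) :=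
  univ.filter (fun A => insert i A ∈ F)

theorem ind_loF (i : α) (F : Finset (Finset α)) : ind (loF i F) = lo i (ind F) := by
  funext A
  unfold ind lo loF
  simp

theorem ind_hiF (i : α) (F : Finset (Finset α)) : ind (hiF i F) = hi i (ind F) := by
  funext A
  unfold ind hi hiF
  simp

theorem mem_loF {i : α} {F : Finset (Finset α)} {A : Finset α} :
    A ∈ loF i F ↔ A.erase i ∈ F := by simp [loF]

theorem mem_hiF {i : α} {F : Finset (Finset α)} {A : Finset α} :
    A ∈ hiF i F ↔ insert i A ∈ F := by simp [hiF]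

/-- `K` absorbs `K0` -/
def Abs (K0 K : Finset (Finset α)) : Prop := ∀ X ∈ K0, ∀ Y ∈ K, X ∪ Y ∈ K

theorem abs_lo_lo {i : α} {K0 K : Finset (Finset α)} (h : Abs K0 K) : Abs (loF i K0) (loF i K) := by
  intro X hX Y hY
  rw [mem_loF] at *
  rw [Finset.erase_union_distrib]
  exact h _ hX _ hY

theorem abs_lo_hi {i : α} {K0 K : Finset (Finset α)} (h : Abs K0 K) : Abs (loF i K0) (hiF i K) := by
  intro X hX Y hY
  rw [mem_loF] at hX
  rw [mem_hiF] at *
  have h1 : insert i (X ∪ Y) = X.erase i ∪ insert i Y := by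
    ext x
    by_cases hx : x = i <;> simp [hx]
  rw [h1]
  exact h _ hX _ hY

theorem uc_abs {F : Finset (Finset α)} (h : UC F) : Abs F F := h

theorem uc_lo {i : α} {F : Finset (Finset α)} (h : UC F) : UC (loF i F) := abs_lo_lo (i := i) h

theorem uc_hi {i : α} {F : Finset (Finset α)} (h : UC F) : UC (hiF i F) := by
  intro X hX Y hY
  rw [mem_hiF] at *
  rw [Finset.insert_union_distrib]
  exact h _ hX _ hY

theorem upb_sum_le' (K0 K : Finset (Finset α)) (hK : UC K) (hA : Abs K0 K) :
    ∑ i, upb K i ≤ 2 ^ Fintype.card α - K0.card := by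
  have h1 : ∑ i, upb K i = (((univ : Finset (α × Finset α)).filter
      (fun p => p.1 ∉ p.2 ∧ p.2 ∈ K ∧ insert p.1 p.2 ∉ K)).card : ℝ) := by
    rw [Finset.card_filter]
    push_cast
    rw [Fintype.sum_prod_type]
    refine Finset.sum_congr rfl (fun i _ => ?_)
    unfold upb
    rw [Finset.sum_filter]
    refine Finset.sum_congr rfl (fun P _ => ?_)
    unfold ind
    by_cases h1 : i ∉ P <;> by_cases h2 : P ∈ K <;> by_cases h3 : insert i P ∈ K <;>
      simp [h1, h2, h3]
  have h2 : ((univ : Finset (α × Finset α)).filter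
      (fun p => p.1 ∉ p.2 ∧ p.2 ∈ K ∧ insert p.1 p.2 ∉ K)).card ≤ K0ᶜ.card := by
    refine Finset.card_le_card_of_injOn (fun p => insert p.1 p.2) ?_ ?_
    · rintro ⟨i, P⟩ hp
      simp at hp ⊢
      intro h3
      apply hp.2.2
      have h4 := hA _ h3 _ hp.2.1
      have h5 : insert i P ∪ P = insert i P := by
        ext x; simp
      rwa [h5] at h4
    · rintro ⟨i, P⟩ hp ⟨j, Q⟩ hq heq
      simp at hp hq heq
      obtain ⟨hp1, hp2, hp3⟩ := hp
      obtain ⟨hq1, hq2, hq3⟩ := hq
      by_cases hij : i = j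
      · subst hij
        have h4 : P = Q := by
          have h5 := congrArg (fun s => Finset.erase s i) heq
          simpa [Finset.erase_insert hp1, Finset.erase_insert hq1] using h5
        rw [h4]
      · exfalso
        apply hp3
        have h4 : insert i P = P ∪ Q := by
          ext x
          constructor
          · intro hx
            by_cases hxi : x = i
            · subst hxi
              have h5 : x ∈ insert j Q := heq ▸ Finset.mem_insert_self x P
              rcases Finset.mem_insert.1 h5 with h6 | h6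
              · exact (hij h6).elim
              · exact Finset.mem_union_right _ h6
            · rcases Finset.mem_insert.1 hx with h6 | h6
              · exact (hxi h6).elim
              · exact Finset.mem_union_left _ h6
          · intro hx
            rcases Finset.mem_union.1 hx with h6 | h6
            · exact Finset.mem_insert_of_mem h6
            · rw [heq]; exact Finset.mem_insert_of_mem h6
        rw [h4]
        exact hK P hp2 Q hq2
  rw [h1]
  have h3 : (K0ᶜ.card : ℝ) = 2 ^ Fintype.card α - K0.card := by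
    rw [Finset.card_compl, Fintype.card_finset, Nat.cast_sub]
    · push_cast; ring
    · have := Finset.card_le_univ K0
      rwa [Fintype.card_finset] at this
  rw [← h3]
  exact_mod_cast h2

/-- normalised sum of the upper boundary -/
noncomputable def ub (K : Finset (Finset α)) : ℝ := (∑ i, upb K i) / 2 ^ Fintype.card α

/-- sum of the biases -/
noncomputable def sw (K : Finset (Finset α)) : ℝ := ∑ i, cf (ind K) {i}

theorem ub_le (K0 K : Finset (Finset α)) (hK : UC K) (hA : Abs K0 K) :
    ub K ≤ 1 - av (ind K0) := by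
  have h := upb_sum_le' K0 K hK hA
  have hN : (0 : ℝ) < 2 ^ Fintype.card α := npos
  unfold ub
  rw [av_ind, div_le_iff₀ hN]
  field_simp
  linarith

theorem ind_nonneg (F : Finset (Finset α)) (A : Finset α) : 0 ≤ ind F A := by
  unfold ind; split_ifs <;> norm_num

theorem ind_le_one (F : Finset (Finset α)) (A : Finset α) : ind F A ≤ 1 := by
  unfold ind; split_ifs <;> norm_num

theorem upb_nonneg (K : Finset (Finset α)) (i : α) : 0 ≤ upb K i := by
  unfold upb
  refine Finset.sum_nonneg (fun P _ => mul_nonneg (ind_nonneg _ _) ?_)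
  linarith [ind_le_one K (insert i P)]

theorem ub_nonneg (K : Finset (Finset α)) : 0 ≤ ub K :=
  div_nonneg (Finset.sum_nonneg (fun i _ => upb_nonneg K i)) npos.le

theorem sw_eq (K : Finset (Finset α)) :
    ∑ i, av (fun A => dd i (ind K) A ^ 2) = 4 * ub K - 2 * sw K := by
  simp_rw [av_dd]
  rw [← Finset.sum_div, Finset.sum_sub_distrib, ← Finset.mul_sum, ← Finset.mul_sum]
  unfold ub sw
  simp_rw [cf_single]
  rw [← Finset.sum_div]
  ring

theorem bias_le_upb (K : Finset (Finset α)) (i : α) : bias K i ≤ upb K i := by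
  unfold bias upb
  refine Finset.sum_le_sum (fun P _ => ?_)
  have h1 := ind_nonneg K P
  have h2 := ind_nonneg K (insert i P)
  have h3 := ind_le_one K P
  nlinarith

theorem sw_le_ub (K : Finset (Finset α)) : sw K ≤ ub K := by
  unfold sw ub
  simp_rw [cf_single]
  rw [← Finset.sum_div]
  exact div_le_div_of_nonneg_right (Finset.sum_le_sum (fun i _ => bias_le_upb K i)) npos.le

theorem poincare (f : Finset α → ℝ) :
    4 * (av (fun A => f A ^ 2) - av f ^ 2) ≤ ∑ i, av (fun A => dd i f A ^ 2) := by
  rw [sum_dd_sq, ← cf_parseval, ← cf_empty_sum, ← Finset.sum_sub_distrib, Finset.mul_sum]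
  refine Finset.sum_le_sum (fun S _ => ?_)
  by_cases h1 : S = ∅
  · subst h1; simp
  · have h2 : 1 ≤ S.card := Finset.card_pos.2 (Finset.nonempty_iff_ne_empty.2 h1)
    have h3 : (1 : ℝ) ≤ S.card := by exact_mod_cast h2
    rw [if_neg h1]
    nlinarith [sq_nonneg (cf f S)]

/-- strict upper bound for the sum of biases of a very dense family -/
theorem sw_dense (K : Finset (Finset α)) (hK : UC K) (m : ℕ) (h0 : av (ind K) < 1)
    (hm : (1 - av (ind K)) * 2 ^ m < 1) : sw K < (2 - (m : ℝ)) * (1 - av (ind K)) := by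
  have hN : (0 : ℝ) < 2 ^ Fintype.card α := npos
  have h1 : (Kᶜ.card : ℝ) = 2 ^ Fintype.card α * (1 - av (ind K)) := by
    rw [Finset.card_compl, Fintype.card_finset, Nat.cast_sub, av_ind]
    · push_cast; field_simp
    · have := Finset.card_le_univ K
      rwa [Fintype.card_finset] at this
  have h2 : 0 < Kᶜ.card := by
    have : (0 : ℝ) < Kᶜ.card := by
      rw [h1]; exact mul_pos hN (by linarith)
    exact_mod_cast this
  have h3 : Kᶜ.card * 2 ^ m < 2 ^ Fintype.card α := by
    have : (Kᶜ.card : ℝ) * 2 ^ m < 2 ^ Fintype.card α := by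
      rw [h1, mul_assoc]
      calc 2 ^ Fintype.card α * ((1 - av (ind K)) * 2 ^ m) < 2 ^ Fintype.card α * 1 :=
            mul_lt_mul_of_pos_left hm hN
        _ = 2 ^ Fintype.card α := mul_one _
    exact_mod_cast this
  have h4 := boundary_lower Kᶜ m h2 h3
  have h5 : ∀ A, ind Kᶜ A = 1 - ind K A := by
    intro A
    unfold ind
    by_cases h : A ∈ K <;> simp [h]
  have h6 : ∑ l, ∑ A, (ind Kᶜ A - ind Kᶜ (symmDiff A {l})) ^ 2 =
      2 ^ Fintype.card α * ∑ i, av (fun A => dd i (ind K) A ^ 2) := by
    rw [Finset.mul_sum]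
    refine Finset.sum_congr rfl (fun l _ => ?_)
    unfold av
    rw [mul_div_cancel₀ _ hN.ne']
    refine Finset.sum_congr rfl (fun A _ => ?_)
    show _ = dd l (ind K) A ^ 2
    rw [dd_sq_pt, h5, h5]
    ring
  rw [h6, sw_eq, h1] at h4
  have h7 := ub_le K K hK (uc_abs hK)
  have h8 : 2 * (m : ℝ) * (1 - av (ind K)) < 4 * ub K - 2 * sw K := by
    by_contra hcon
    push Not at hcon
    have := mul_le_mul_of_nonneg_left hcon hN.le
    nlinarith
  nlinarith

theorem cf_lo_single (i : α) (f : Finset α → ℝ) (l : α) :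
    cf (lo i f) {l} = if l = i then 0 else cf f {l} + cf f {i, l} := by
  rw [cf_lo]
  by_cases h : l = i
  · simp [h]
  · have : i ∉ ({l} : Finset α) := by simp; exact fun h2 => h h2.symm
    rw [if_neg this, if_neg h]

theorem cf_hi_single (i : α) (f : Finset α → ℝ) (l : α) :
    cf (hi i f) {l} = if l = i then 0 else cf f {l} - cf f {i, l} := by
  rw [cf_hi]
  by_cases h : l = i
  · simp [h]
  · have : i ∉ ({l} : Finset α) := by simp; exact fun h2 => h h2.symm
    rw [if_neg this, if_neg h]

/-- sum over the two slices in direction `i` -/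
theorem cf_slices_single (i : α) (f : Finset α → ℝ) (l : α) :
    cf (lo i f) {l} + cf (hi i f) {l} = if l = i then 0 else 2 * cf f {l} := by
  rw [cf_lo_single, cf_hi_single]
  split_ifs <;> ring

theorem sw_slices (i : α) (F : Finset (Finset α)) (h : ∀ l, 0 ≤ cf (ind F) {l}) :
    0 ≤ sw (loF i F) + sw (hiF i F) := by
  unfold sw
  rw [ind_loF, ind_hiF, ← Finset.sum_add_distrib]
  refine Finset.sum_nonneg (fun l _ => ?_)
  rw [cf_slices_single]
  split_ifs
  · exact le_rfl
  · linarith [h l]

theorem sw_slices2 (i k : α) (F : Finset (Finset α)) (h : ∀ l, 0 ≤ cf (ind F) {l}) :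
    0 ≤ sw (loF k (loF i F)) + sw (hiF k (loF i F)) + (sw (loF k (hiF i F)) + sw (hiF k (hiF i F))) := by
  unfold sw
  simp_rw [ind_loF, ind_hiF, ind_loF]
  rw [← Finset.sum_add_distrib, ← Finset.sum_add_distrib, ← Finset.sum_add_distrib]
  refine Finset.sum_nonneg (fun l _ => ?_)
  rw [cf_slices_single, cf_slices_single]
  split_ifs with h1
  · simp
  · have h2 := cf_slices_single i (ind F) l
    split_ifs at h2 with h3
    · linarith
    · linarith [h l]

/-- Dictator case: if the family contains more than `7/8` of the sets avoiding `i`, then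
some element is frequent, unless it contains all of them. -/
theorem dict_case (F : Finset (Finset α)) (hF : UC F) (i : α)
    (h : ∀ l, 0 ≤ cf (ind F) {l}) (h1 : 7 / 8 < av (ind F) + cf (ind F) {i}) :
    av (ind F) + cf (ind F) {i} = 1 := by
  have hav : av (ind (loF i F)) = av (ind F) + cf (ind F) {i} := by
    rw [← cf_empty, ind_loF, cf_lo]
    simp [cf_empty]
  have hle : av (ind (loF i F)) ≤ 1 := by
    have := av_mono (f := ind (loF i F)) (g := fun _ => 1) (fun A => ind_le_one _ _)
    rwa [av_const] at this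
  rcases hle.eq_or_lt with h2 | h2
  · rw [← hav]; exact h2
  · exfalso
    have h3 := sw_dense (loF i F) (uc_lo hF) 3 h2 (by rw [hav]; linarith)
    have h4 := (sw_le_ub (hiF i F)).trans
      (ub_le (loF i F) (hiF i F) (uc_hi hF) (abs_lo_hi (uc_abs hF)))
    have h5 := sw_slices i F h
    push_cast at h3
    linarith

theorem av_lo (i : α) (f : Finset α → ℝ) : av (lo i f) = av f + cf f {i} := by
  rw [← cf_empty, cf_lo]
  simp [cf_empty]

theorem av_hi (i : α) (f : Finset α → ℝ) : av (hi i f) = av f - cf f {i} := by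
  rw [← cf_empty, cf_hi]
  simp [cf_empty]

theorem av_ind_le_one (F : Finset (Finset α)) : av (ind F) ≤ 1 := by
  have := av_mono (f := ind F) (g := fun _ => 1) (fun A => ind_le_one _ _)
  rwa [av_const] at this

theorem av_ind_nonneg (F : Finset (Finset α)) : 0 ≤ av (ind F) := av_nonneg (ind_nonneg F)

theorem zero_or_one (K : Finset (Finset α)) (h1 : ub K = 0) (h2 : sw K = 0) :
    av (ind K) = 0 ∨ av (ind K) = 1 := by
  have h3 := poincare (ind K)
  rw [sw_eq, h1, h2, av_ind_sq] at h3
  have h4 := av_ind_le_one K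
  have h5 := av_ind_nonneg K
  have h6 : av (ind K) * (1 - av (ind K)) = 0 := by
    apply le_antisymm
    · nlinarith
    · exact mul_nonneg h5 (by linarith)
  rcases mul_eq_zero.1 h6 with h | h
  · left; exact h
  · right; linarith

/-- The case of two twins: the slice avoiding `i` and `k` is very dense. -/
theorem pair_case (F : Finset (Finset α)) (hF : UC F) (i k : α)
    (h : ∀ l, 0 ≤ cf (ind F) {l}) (hd1 : 1 / 4 < av (ind F)) (hd2 : av (ind F) < 1 / 2)
    (h1 : 31 / 32 < av (ind (loF k (loF i F)))) : False := by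
  set K0 := loF k (loF i F) with hK0
  set K1 := hiF k (loF i F) with hK1
  set K2 := loF k (hiF i F) with hK2
  set K3 := hiF k (hiF i F) with hK3
  have u0 : UC K0 := uc_lo (uc_lo hF)
  have u1 : UC K1 := uc_hi (uc_lo hF)
  have u2 : UC K2 := uc_lo (uc_hi hF)
  have u3 : UC K3 := uc_hi (uc_hi hF)
  have a1 : Abs K0 K1 := abs_lo_hi (uc_abs (uc_lo hF))
  have a2 : Abs K0 K2 := abs_lo_lo (abs_lo_hi (uc_abs hF))
  have a3 : Abs K0 K3 := abs_lo_hi (abs_lo_hi (uc_abs hF))
  have b0 := ub_le K0 K0 u0 u0
  have b1 := ub_le K0 K1 u1 a1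
  have b2 := ub_le K0 K2 u2 a2
  have b3 := ub_le K0 K3 u3 a3
  have c0 := sw_le_ub K0
  have c1 := sw_le_ub K1
  have c2 := sw_le_ub K2
  have c3 := sw_le_ub K3
  have hs := sw_slices2 i k F h
  rw [← hK0, ← hK1, ← hK2, ← hK3] at hs
  rcases (av_ind_le_one K0).eq_or_lt with h2 | h2
  · rw [h2, sub_self] at b0 b1 b2 b3
    have n0 := ub_nonneg K0
    have n1 := ub_nonneg K1
    have n2 := ub_nonneg K2
    have n3 := ub_nonneg K3
    have z1 := zero_or_one K1 (by linarith) (by linarith)
    have z2 := zero_or_one K2 (by linarith) (by linarith)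
    have z3 := zero_or_one K3 (by linarith) (by linarith)
    have hsum : av (ind K0) + av (ind K1) + av (ind K2) + av (ind K3) = 4 * av (ind F) := by
      rw [hK0, hK1, hK2, hK3]
      simp only [ind_loF, ind_hiF, av_lo, av_hi]
      ring
    rcases z1 with z1 | z1 <;> rcases z2 with z2 | z2 <;> rcases z3 with z3 | z3 <;>
      rw [h2, z1, z2, z3] at hsum <;> linarith
  · have h3 := sw_dense K0 u0 5 h2 (by linarith)
    push_cast at h3
    linarith

end Pool.Agent.H637R3.UC
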