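import Mathlib
import Pool.Agent.H637R3.UC.Slice
import Pool.Agent.H637R3.UC.Fourth

set_option autoImplicit false
set_option linter.unusedSectionVars false
set_option linter.dupNamespace false

/-!
# The stability argument
-/

namespace Pool.Agent.H637R3.UC

open Finset

variable {α : Type*} [Fintype α] [DecidableEq α]

theorem sum_mem_card (φ : Finset α → ℝ) :
    ∑ i, ∑ S : Finset α, (if i ∈ S then φ S else 0) = ∑ S : Finset α, (S.card : ℝ) * φ S := by
  rw [Finset.sum_comm]
  refine Finset.sum_congr rfl (fun S _ => ?_)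
  rw [Finset.sum_ite_mem]
  simp

/-- level one weight of the derivative -/
noncomputable def lv (i : α) (f : Finset α → ℝ) : ℝ := ∑ k, cf (dd i f) {k} ^ 2

theorem lv_eq (i : α) (f : Finset α → ℝ) :
    lv i f = ∑ S : Finset α, (if i ∈ S then (if S.card = 2 then 4 * cf f S ^ 2 else 0) else 0) := by
  unfold lv
  rw [← cf_level_one_sum, ← sum_insert_eq (fun S => if S.card = 2 then 4 * cf f S ^ 2 else 0) i]
  refine Finset.sum_congr rfl (fun S _ => ?_)
  rw [cf_dd]
  by_cases h : i ∈ S
  · simp [h]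
  · rw [if_neg h, if_neg h, Finset.card_insert_of_notMem h]
    by_cases h2 : S.card = 1
    · rw [if_pos h2, if_pos (by omega)]; ring
    · rw [if_neg h2, if_neg (by omega)]

theorem lv_eq' (i : α) (f : Finset α → ℝ) :
    lv i f = ∑ k ∈ univ.erase i, 4 * cf f {i, k} ^ 2 := by
  unfold lv
  rw [← Finset.add_sum_erase univ _ (Finset.mem_univ i)]
  have h0 : cf (dd i f) {i} = 0 := by rw [cf_dd]; simp
  rw [h0]
  have : ∀ k ∈ univ.erase i, cf (dd i f) {k} ^ 2 = 4 * cf f {i, k} ^ 2 := by
    intro k hk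
    have hki : k ≠ i := (Finset.mem_erase.1 hk).1
    rw [cf_dd, if_neg (by simp; exact fun h => hki h.symm)]
    ring
  rw [Finset.sum_congr rfl this]
  ring

theorem lv_rest (i : α) (f : Finset α → ℝ) :
    av (fun A => dd i f A ^ 2) - lv i f ≤ 4 * cf f {i} ^ 2 + 4 * th f := by
  rw [dd_sq, lv_eq, th, Finset.mul_sum, ← Finset.sum_sub_distrib]
  have h0 : 4 * cf f {i} ^ 2 = ∑ S : Finset α, (if S = {i} then 4 * cf f S ^ 2 else 0) := by
    rw [Finset.sum_ite_eq']
    simp
  rw [h0, ← Finset.sum_add_distrib]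
  refine Finset.sum_le_sum (fun S _ => ?_)
  have hsq : 0 ≤ cf f S ^ 2 := sq_nonneg _
  have hnn : (0 : ℝ) ≤ ((S.card - 2 : ℕ) : ℝ) := Nat.cast_nonneg _
  by_cases h : i ∈ S
  · rw [if_pos h, if_pos h]
    by_cases h2 : S.card = 2
    · rw [if_pos h2]
      split_ifs <;> nlinarith
    · rw [if_neg h2]
      by_cases h3 : S.card = 1
      · obtain ⟨x, hx⟩ := Finset.card_eq_one.1 h3
        have h4 : S = {i} := by
          rw [hx] at h ⊢
          rw [Finset.mem_singleton] at h
          rw [h]
        rw [if_pos h4]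
        nlinarith
      · have h4 : 1 ≤ S.card := Finset.card_pos.2 ⟨i, h⟩
        have h5 : 1 ≤ S.card - 2 := by omega
        have h6 : (1 : ℝ) ≤ ((S.card - 2 : ℕ) : ℝ) := by exact_mod_cast h5
        split_ifs <;> nlinarith
  · rw [if_neg h, if_neg h]
    split_ifs <;> nlinarith

theorem dd_cube (i : α) (F : Finset (Finset α)) (A : Finset α) :
    dd i (ind F) A ^ 3 = dd i (ind F) A := by
  unfold dd lo hi ind
  split_ifs <;> norm_num

/-- If all influences are small, then the variance is small. -/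
theorem small_influences (F : Finset (Finset α))
    (h : ∀ i, av (fun A => dd i (ind F) A ^ 2) < 1 / 12) :
    8 * av (ind F) * (1 - av (ind F)) ≤
      12 * ∑ i, cf (ind F) {i} ^ 2 + 20 * th (ind F) := by
  have h1 : ∀ i, 2 * lv i (ind F) ≤ av (fun A => dd i (ind F) A ^ 2) := by
    intro i
    have h2 := level_one_small (dd i (ind F)) (dd_cube i F)
    have h3 : 0 ≤ av (fun A => dd i (ind F) A ^ 2) := av_nonneg (fun A => sq_nonneg _)
    have h4 : 0 ≤ lv i (ind F) := Finset.sum_nonneg (fun k _ => sq_nonneg _)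
    have h5 : (2 * lv i (ind F)) ^ 2 ≤ av (fun A => dd i (ind F) A ^ 2) ^ 2 := by
      have h6 : lv i (ind F) ^ 2 ≤ 3 * av (fun A => dd i (ind F) A ^ 2) ^ 3 := h2
      have h7 := h i
      nlinarith [mul_nonneg (sq_nonneg (av (fun A => dd i (ind F) A ^ 2))) (sub_nonneg.2 h7.le)]
    exact abs_le_of_sq_le_sq' h5 h3 |>.2
  have h2 : 2 * ∑ i, lv i (ind F) ≤ ∑ i, av (fun A => dd i (ind F) A ^ 2) := by
    rw [Finset.mul_sum]
    exact Finset.sum_le_sum (fun i _ => h1 i)
  simp_rw [lv_eq] at h2
  rw [sum_mem_card, sum_dd_sq] at h2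
  have h3 : 8 * av (ind F) * (1 - av (ind F)) - 12 * ∑ i, cf (ind F) {i} ^ 2 -
      20 * th (ind F) ≤ 2 * ∑ S : Finset α, (S.card : ℝ) *
        (if S.card = 2 then 4 * cf (ind F) S ^ 2 else 0) -
        ∑ S : Finset α, 4 * (S.card : ℝ) * cf (ind F) S ^ 2 := by
    have e1 : 8 * av (ind F) * (1 - av (ind F)) = 8 * av (fun A => ind F A ^ 2) -
        8 * av (ind F) ^ 2 := by rw [av_ind_sq]; ring
    rw [e1, ← cf_parseval, ← cf_empty_sum, ← cf_level_one_sum, th, Finset.mul_sum,
      Finset.mul_sum, Finset.mul_sum, Finset.mul_sum, Finset.mul_sum, ← Finset.sum_sub_distrib,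
      ← Finset.sum_sub_distrib, ← Finset.sum_sub_distrib, ← Finset.sum_sub_distrib]
    refine Finset.sum_le_sum (fun S _ => ?_)
    have hsq : 0 ≤ cf (ind F) S ^ 2 := sq_nonneg _
    by_cases h1 : S = ∅
    · subst h1; simp
    · have h2 : 1 ≤ S.card := Finset.card_pos.2 (Finset.nonempty_iff_ne_empty.2 h1)
      rw [if_neg h1]
      by_cases h3 : S.card = 1
      · rw [if_pos h3, if_neg (by omega), h3]
        norm_num
        nlinarith
      · rw [if_neg h3]
        by_cases h4 : S.card = 2
        · rw [if_pos h4, h4]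
          norm_num
          nlinarith
        · rw [if_neg h4]
          have h5 : 3 ≤ S.card := by omega
          have h6 : (3 : ℝ) ≤ S.card := by exact_mod_cast h5
          rw [Nat.cast_sub (by omega)]
          push_cast
          nlinarith
  linarith

/-- the second derivative -/
noncomputable def vr (i k : α) (f : Finset α → ℝ) : ℝ :=
  av (fun A => dd i (dd k f) A ^ 2) - 16 * cf f {i, k} ^ 2

theorem av_dd2 {i k : α} (hik : k ≠ i) (f : Finset α → ℝ) :
    av (dd i (dd k f)) = 4 * cf f {i, k} := by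
  rw [← cf_empty, cf_dd, if_neg (Finset.notMem_empty i), cf_dd, if_neg]
  · have : insert k (insert i (∅ : Finset α)) = {i, k} := by
      ext x; simp; tauto
    rw [this]; ring
  · simp; exact hik

theorem av_dd2_sq {i k : α} (hik : k ≠ i) (f : Finset α → ℝ) :
    av (fun A => dd i (dd k f) A ^ 2) = ∑ S : Finset α,
      (if k ∈ S then (if i ∈ S then 16 * cf f S ^ 2 else 0) else 0) := by
  rw [dd_sq, ← sum_insert_eq (fun S => if i ∈ S then 16 * cf f S ^ 2 else 0) k]
  refine Finset.sum_congr rfl (fun S _ => ?_)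
  rw [cf_dd]
  have h1 : i ∈ insert k S ↔ i ∈ S := by
    rw [Finset.mem_insert]
    constructor
    · rintro (h | h)
      · exact (hik h.symm).elim
      · exact h
    · exact Or.inr
  by_cases h2 : k ∈ S <;> by_cases h3 : i ∈ S <;> simp [h2, h3]
  · ring
  · intro h4; exact (hik h4.symm).elim

theorem vr_nonneg {i k : α} (hik : k ≠ i) (f : Finset α → ℝ) : 0 ≤ vr i k f := by
  unfold vr
  have h1 := av_cs (dd i (dd k f)) (fun _ => 1)
  simp only [mul_one, one_pow] at h1
  rw [av_const] at h1
  have h2 := av_dd2 hik f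
  have h3 : av (dd i (dd k f)) ^ 2 = 16 * cf f {i, k} ^ 2 := by rw [h2]; ring
  have h4 : (fun A => dd i (dd k f) A) = dd i (dd k f) := rfl
  rw [h4, h3] at h1
  linarith

theorem sum_vr_le (i : α) (f : Finset α → ℝ) :
    ∑ k ∈ univ.erase i, vr i k f ≤ 32 * th f := by
  unfold vr
  rw [Finset.sum_sub_distrib]
  have h1 : ∑ k ∈ univ.erase i, 16 * cf f {i, k} ^ 2 = 4 * lv i f := by
    rw [lv_eq', Finset.mul_sum]
    exact Finset.sum_congr rfl (fun k _ => by ring)
  have h2 : ∑ k ∈ univ.erase i, av (fun A => dd i (dd k f) A ^ 2) =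
      ∑ S : Finset α, (if i ∈ S then ((S.card : ℝ) - 1) * (16 * cf f S ^ 2) else 0) := by
    have h3 : ∀ k ∈ univ.erase i, av (fun A => dd i (dd k f) A ^ 2) = ∑ S : Finset α,
        (if k ∈ S then (if i ∈ S then 16 * cf f S ^ 2 else 0) else 0) :=
      fun k hk => av_dd2_sq (Finset.mem_erase.1 hk).1 f
    rw [Finset.sum_congr rfl h3, Finset.sum_comm]
    refine Finset.sum_congr rfl (fun S _ => ?_)
    rw [Finset.sum_ite_mem]
    by_cases h : i ∈ S
    · rw [if_pos h, if_pos h, Finset.sum_const, nsmul_eq_mul]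
      have h4 : univ.erase i ∩ S = S.erase i := by
        ext x; simp
      rw [h4, Finset.card_erase_of_mem h, Nat.cast_sub (Finset.card_pos.2 ⟨i, h⟩)]
      simp
    · rw [if_neg h]
      simp [h]
  rw [h1, h2, lv_eq, th, Finset.mul_sum, Finset.mul_sum, ← Finset.sum_sub_distrib]
  refine Finset.sum_le_sum (fun S _ => ?_)
  have hsq : 0 ≤ cf f S ^ 2 := sq_nonneg _
  have hnn : (0 : ℝ) ≤ ((S.card - 2 : ℕ) : ℝ) := Nat.cast_nonneg _
  by_cases h : i ∈ S
  · rw [if_pos h, if_pos h]
    have h4 : 1 ≤ S.card := Finset.card_pos.2 ⟨i, h⟩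
    by_cases h2 : S.card = 2
    · rw [if_pos h2, h2]
      norm_num
      nlinarith
    · rw [if_neg h2]
      by_cases h3 : S.card = 1
      · rw [h3]; norm_num
      · have h5 : 3 ≤ S.card := by omega
        have h6 : (3 : ℝ) ≤ S.card := by exact_mod_cast h5
        rw [Nat.cast_sub (by omega)]
        push_cast
        nlinarith
  · rw [if_neg h, if_neg h]
    nlinarith

theorem av_zero_one (F : Finset (Finset α)) (i k : α) (hik : k ≠ i) (hF : UC F) (A : Finset α) :
    lo i (hi k (ind F)) A + hi i (lo k (ind F)) A ≤ 1 + hi i (hi k (ind F)) A := by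
  unfold lo hi
  by_cases h1 : insert k (A.erase i) ∈ F
  · by_cases h2 : (insert i A).erase k ∈ F
    · have h3 := hF _ h1 _ h2
      have h4 : insert k (A.erase i) ∪ (insert i A).erase k = insert k (insert i A) := by
        ext x
        simp only [Finset.mem_union, Finset.mem_insert, Finset.mem_erase]
        by_cases hx : x = k
        · simp [hx]
        · by_cases hx2 : x = i
          · simp [hx, hx2]
            tauto
          · simp [hx, hx2]
      rw [h4] at h3
      simp [ind, h1, h2, h3]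
    · have := ind_nonneg F (insert k (insert i A))
      have h5 : ind F ((insert i A).erase k) = 0 := by simp [ind, h2]
      have := ind_le_one F (insert k (A.erase i))
      linarith
  · have := ind_nonneg F (insert k (insert i A))
    have h5 : ind F (insert k (A.erase i)) = 0 := by simp [ind, h1]
    have := ind_le_one F ((insert i A).erase k)
    linarith

theorem second_lower (F : Finset (Finset α)) (i k : α) (hik : k ≠ i) (hF : UC F) :
    av (ind F) + cf (ind F) {i} + cf (ind F) {k} ≤ 1 + 3 * cf (ind F) {i, k} := by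
  have h1 := av_mono (av_zero_one F i k hik hF)
  rw [av_add, av_add, av_const] at h1
  have e1 : av (fun A => lo i (hi k (ind F)) A) = av (lo i (hi k (ind F))) := rfl
  have e2 : av (fun A => hi i (lo k (ind F)) A) = av (hi i (lo k (ind F))) := rfl
  have e3 : av (fun A => hi i (hi k (ind F)) A) = av (hi i (hi k (ind F))) := rfl
  have hc : ({k, i} : Finset α) = {i, k} := Finset.pair_comm k i
  rw [e1, e2, e3] at h1
  simp only [av_lo, av_hi, cf_hi_single, cf_lo_single, if_neg hik.symm, hc] at h1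
  linarith

theorem dd2_int (F : Finset (Finset α)) (i k : α) (A : Finset α) :
    0 ≤ dd i (dd k (ind F)) A ^ 2 + dd i (dd k (ind F)) A := by
  simp only [dd, lo, hi, ind]
  split_ifs <;> norm_num

theorem second_var (F : Finset (Finset α)) (i k : α) (hik : k ≠ i) :
    -(4 * cf (ind F) {i, k}) * (1 + 4 * cf (ind F) {i, k}) ≤ vr i k (ind F) := by
  have h1 := av_nonneg (dd2_int F i k)
  rw [av_add] at h1
  have e1 : av (fun A => dd i (dd k (ind F)) A) = av (dd i (dd k (ind F))) := rfl
  rw [e1, av_dd2 hik] at h1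
  unfold vr
  nlinarith

/-- the negative part of second order coefficients is controlled by the variance -/
theorem neg_part (F : Finset (Finset α)) (hF : UC F) (i k : α) (hik : k ≠ i)
    (h : ∀ l, 0 ≤ cf (ind F) {l}) (ha : 49 / 100 ≤ av (ind F)) (hv : vr i k (ind F) ≤ 1 / 10) :
    -(vr i k (ind F) / 2) ≤ cf (ind F) {i, k} := by
  have h1 := second_lower F i k hik hF
  have h2 := second_var F i k hik
  have h3 := vr_nonneg hik (ind F)
  by_contra hcon
  push Not at hcon
  have h4 : cf (ind F) {i, k} < 0 := by linarith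
  by_cases h5 : 1 / 2 ≤ 1 + 4 * cf (ind F) {i, k}
  · nlinarith [h i, h k]
  · push Not at h5
    nlinarith [h i, h k]

end Pool.Agent.H637R3.UC
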