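import Mathlib
import Pool.Agent.H637R3.UC.Core

set_option autoImplicit false
set_option linter.unusedSectionVars false
set_option linter.dupNamespace false

/-!
# The upper boundary of a union-closed family has at most half of all sets

Proof through the signed adjacency operator of the hypercube.
-/

namespace Pool.Agent.H637R3.UC

open Finset

variable {α : Type*} [Fintype α] [DecidableEq α]

/-- numbering of the ground set -/
noncomputable def num (i : α) : ℕ := (Fintype.equivFin α i : ℕ)

theorem num_inj {i k : α} (h : num i = num k) : i = k := by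
  unfold num at h
  exact (Fintype.equivFin α).injective (Fin.ext h)

/-- the signing -/
noncomputable def sn (S : Finset α) (i : α) : ℝ :=
  ∏ k ∈ S, (if num k < num i then (-1 : ℝ) else 1)

theorem sn_sq (S : Finset α) (i : α) : sn S i * sn S i = 1 := by
  unfold sn
  rw [← Finset.prod_mul_distrib]
  refine Finset.prod_eq_one (fun k _ => ?_)
  split_ifs <;> norm_num

theorem sn_insert {S : Finset α} {j : α} (hj : j ∉ S) (i : α) :
    sn (insert j S) i = (if num j < num i then (-1 : ℝ) else 1) * sn S i := by
  unfold sn
  rw [Finset.prod_insert hj]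

theorem sn_symm (S : Finset α) (j i : α) :
    sn (symmDiff S {j}) i = (if num j < num i then (-1 : ℝ) else 1) * sn S i := by
  by_cases h : j ∈ S
  · have h1 : symmDiff S {j} = S.erase j := by
      have h2 := symm_single_insert (Finset.notMem_erase j S)
      rwa [Finset.insert_erase h] at h2
    have h3 : S = insert j (S.erase j) := (Finset.insert_erase h).symm
    rw [h1]
    conv_rhs => rw [h3]
    rw [sn_insert (Finset.notMem_erase j S), ← mul_assoc]
    split_ifs <;> norm_num
  · rw [symm_single_of_notMem h, sn_insert h]

/-- signed sum over neighbours in the directions of `I` -/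
noncomputable def nb (I : Finset α) (f : Finset α → ℝ) (S : Finset α) : ℝ :=
  ∑ i ∈ I, sn S i * f (symmDiff S {i})

theorem sum_symm (j : α) (g : Finset α → ℝ) : ∑ S, g (symmDiff S {j}) = ∑ S, g S := by
  have hinv : Function.Involutive (fun S : Finset α => symmDiff S {j}) := by
    intro S
    simp [symmDiff_assoc]
  exact Equiv.sum_comp hinv.toPerm g

theorem cross_zero (f : Finset α → ℝ) (i k : α) (h : i ≠ k) :
    ∑ S, (sn S i * f (symmDiff S {i})) * (sn S k * f (symmDiff S {k})) = 0 := by
  have h1 : ∑ S, (sn S i * f (symmDiff S {i})) * (sn S k * f (symmDiff S {k})) =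
      ∑ S, (fun S => (sn S i * f (symmDiff S {i})) * (sn S k * f (symmDiff S {k})))
        (symmDiff (symmDiff S {i}) {k}) :=
    ((sum_symm i (fun T => (fun S => (sn S i * f (symmDiff S {i})) *
      (sn S k * f (symmDiff S {k}))) (symmDiff T {k}))).trans
      (sum_symm k (fun S => (sn S i * f (symmDiff S {i})) *
      (sn S k * f (symmDiff S {k}))))).symm
  have h2 : ∀ S : Finset α, (fun S => (sn S i * f (symmDiff S {i})) *
      (sn S k * f (symmDiff S {k}))) (symmDiff (symmDiff S {i}) {k}) =
      -((sn S i * f (symmDiff S {i})) * (sn S k * f (symmDiff S {k}))) := by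
    intro S
    have e1 : symmDiff (symmDiff (symmDiff S {i}) {k}) {i} = symmDiff S {k} := by
      rw [symmDiff_right_comm, symmDiff_assoc S {i} {i}, symmDiff_self]
      simp
    have e2 : symmDiff (symmDiff (symmDiff S {i}) {k}) {k} = symmDiff S {i} := by
      rw [symmDiff_assoc, symmDiff_self]
      simp
    simp only [e1, e2, sn_symm]
    have hne : num i ≠ num k := fun h2 => h (num_inj h2)
    have hirr : ¬ num i < num i := lt_irrefl _
    have hirr2 : ¬ num k < num k := lt_irrefl _
    rw [if_neg hirr, if_neg hirr2]
    rcases lt_or_gt_of_ne hne with h3 | h3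
    · rw [if_pos h3, if_neg (by omega)]
      ring
    · rw [if_pos h3, if_neg (by omega)]
      ring
  have h3 := h1
  rw [Finset.sum_congr rfl (fun S _ => h2 S), Finset.sum_neg_distrib] at h3
  linarith

/-- the operator multiplies norms by the square root of the number of directions -/
theorem nb_norm (I : Finset α) (f : Finset α → ℝ) :
    ∑ S, nb I f S ^ 2 = (I.card : ℝ) * ∑ S, f S ^ 2 := by
  have h1 : ∀ S, nb I f S ^ 2 = ∑ i ∈ I, ∑ k ∈ I,
      (sn S i * f (symmDiff S {i})) * (sn S k * f (symmDiff S {k})) := by
    intro S
    unfold nb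
    rw [sq, Finset.sum_mul_sum]
  simp_rw [h1]
  rw [Finset.sum_comm]
  have h2 : ∀ i ∈ I, ∑ S : Finset α, ∑ k ∈ I,
      (sn S i * f (symmDiff S {i})) * (sn S k * f (symmDiff S {k})) = ∑ S, f S ^ 2 := by
    intro i hi
    rw [Finset.sum_comm, Finset.sum_eq_single i]
    · rw [← sum_symm i (fun S => f S ^ 2)]
      refine Finset.sum_congr rfl (fun S _ => ?_)
      have := sn_sq S i
      linear_combination (f (symmDiff S {i})) ^ 2 * this
    · intro k _ hk
      exact cross_zero f i k (Ne.symm hk)
    · intro h; exact (h hi).elim
  rw [Finset.sum_congr rfl h2, Finset.sum_const, nsmul_eq_mul]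

/-- A set `D` of vertices of the cube such that every vertex carries a label, labels agree
along edges inside `D`, and edges inside `D` avoid the direction of the label, has at most
half of the vertices. -/
theorem half_of_labels (D : Finset (Finset α)) (lab : Finset α → α)
    (h1 : ∀ S ∈ D, ∀ i, symmDiff S {i} ∈ D → i ≠ lab S ∧ lab (symmDiff S {i}) = lab S) :
    2 * D.card ≤ 2 ^ Fintype.card α := by
  classical
  let T : ({S // S ∈ D} → ℝ) →ₗ[ℝ] ({S // S ∉ D} → ℝ) :=
    { toFun := fun g S => nb univ (fun R => if h : R ∈ D then g ⟨R, h⟩ else 0) S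
      map_add' := by
        intro g g'
        funext S
        simp only [Pi.add_apply, nb]
        rw [← Finset.sum_add_distrib]
        refine Finset.sum_congr rfl (fun i _ => ?_)
        split_ifs <;> ring
      map_smul' := by
        intro c g
        funext S
        simp only [Pi.smul_apply, nb, smul_eq_mul, RingHom.id_apply]
        rw [Finset.mul_sum]
        refine Finset.sum_congr rfl (fun i _ => ?_)
        split_ifs <;> ring }
  have hinj : Function.Injective T := by
    rw [← LinearMap.ker_eq_bot, LinearMap.ker_eq_bot']
    intro g hg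
    set f : Finset α → ℝ := fun R => if h : R ∈ D then g ⟨R, h⟩ else 0 with hf
    have hfz : ∀ R, R ∉ D → f R = 0 := by
      intro R hR
      simp [hf, hR]
    have hz : ∀ S, S ∉ D → nb univ f S = 0 := by
      intro S hS
      exact congrFun hg ⟨S, hS⟩
    have hnorm := nb_norm (univ : Finset α) f
    -- bound the norm on D
    have hb : ∑ S, nb univ f S ^ 2 ≤ ((Fintype.card α : ℝ) - 1) * ∑ S, f S ^ 2 := by
      have e1 : ∑ S, nb univ f S ^ 2 = ∑ j, ∑ S, (if S ∈ D ∧ lab S = j then nb univ f S ^ 2 else 0) := by
        rw [Finset.sum_comm]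
        refine Finset.sum_congr rfl (fun S _ => ?_)
        by_cases hS : S ∈ D
        · simp [hS]
        · simp [hS, hz S hS]
      have e2 : ∑ S, f S ^ 2 = ∑ j, ∑ S, (if S ∈ D ∧ lab S = j then f S else 0) ^ 2 := by
        rw [Finset.sum_comm]
        refine Finset.sum_congr rfl (fun S _ => ?_)
        by_cases hS : S ∈ D
        · simp [hS]
        · simp [hS, hfz S hS]
      rw [e1, e2, Finset.mul_sum]
      refine Finset.sum_le_sum (fun j _ => ?_)
      have e3 := nb_norm (univ.erase j) (fun S => if S ∈ D ∧ lab S = j then f S else 0)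
      rw [Finset.card_erase_of_mem (Finset.mem_univ j), Finset.card_univ] at e3
      have hpos : 1 ≤ Fintype.card α := Fintype.card_pos_iff.2 ⟨j⟩
      rw [Nat.cast_sub hpos, Nat.cast_one] at e3
      rw [← e3]
      refine Finset.sum_le_sum (fun S _ => ?_)
      split_ifs with hS
      · have e4 : nb univ f S = nb (univ.erase j) (fun S => if S ∈ D ∧ lab S = j then f S else 0) S := by
          unfold nb
          rw [← Finset.add_sum_erase univ _ (Finset.mem_univ j)]
          have e5 : f (symmDiff S {j}) = 0 := by
            apply hfz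
            intro h2
            exact (h1 S hS.1 j h2).1 hS.2.symm
          rw [e5, mul_zero, zero_add]
          refine Finset.sum_congr rfl (fun i _ => ?_)
          by_cases h2 : symmDiff S {i} ∈ D
          · have h3 := (h1 S hS.1 i h2).2
            dsimp only
            rw [if_pos ⟨h2, h3.trans hS.2⟩]
          · dsimp only
            rw [hfz _ h2, if_neg (fun h3 => h2 h3.1)]
        rw [e4]
      · exact sq_nonneg _
    rw [hnorm, Finset.card_univ] at hb
    have hle : ∑ S, f S ^ 2 ≤ 0 := by linarith
    have h0 : ∀ S, f S = 0 := by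
      intro S
      have h2 := (Finset.sum_eq_zero_iff_of_nonneg (fun S _ => sq_nonneg (f S))).1
        (le_antisymm hle (Finset.sum_nonneg (fun S _ => sq_nonneg (f S)))) S (Finset.mem_univ S)
      exact pow_eq_zero_iff (two_ne_zero) |>.1 h2
    funext S
    have h2 := h0 S.1
    simp only [hf] at h2
    rw [dif_pos S.2] at h2
    exact h2
  have hrank := LinearMap.finrank_le_finrank_of_injective hinj
  rw [Module.finrank_fintype_fun_eq_card, Module.finrank_fintype_fun_eq_card] at hrank
  have hc1 : Fintype.card {S // S ∈ D} = D.card := by simp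
  have hc2 : Fintype.card {S // S ∉ D} = 2 ^ Fintype.card α - D.card := by
    rw [Fintype.card_subtype_compl, Fintype.card_finset]
    simp
  rw [hc1, hc2] at hrank
  have hle := Finset.card_le_univ D
  rw [Fintype.card_finset] at hle
  omega

/-- The upper boundary of a union-closed family has at most half of all sets. -/
theorem boundary_half (F : Finset (Finset α)) (hF : UC F) :
    2 * (univ.filter (fun Z : Finset α => Z ∉ F ∧ ∃ j ∈ Z, Z.erase j ∈ F)).card ≤
      2 ^ Fintype.card α := by
  classical
  by_cases hα : IsEmpty α
  · have : (univ.filter (fun Z : Finset α => Z ∉ F ∧ ∃ j ∈ Z, Z.erase j ∈ F)) = ∅ := by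
      rw [Finset.filter_eq_empty_iff]
      rintro Z _ ⟨_, j, _⟩
      exact hα.elim j
    rw [this]
    simp
  · rw [not_isEmpty_iff] at hα
    obtain ⟨x0⟩ := hα
    have hex : ∀ Z : Finset α, ∃ j : α, (Z ∉ F ∧ ∃ j ∈ Z, Z.erase j ∈ F) → j ∈ Z ∧ Z.erase j ∈ F := by
      intro Z
      by_cases h : Z ∉ F ∧ ∃ j ∈ Z, Z.erase j ∈ F
      · obtain ⟨_, j, hj⟩ := h
        exact ⟨j, fun _ => hj⟩
      · exact ⟨x0, fun h2 => (h h2).elim⟩
    choose lab hlab using hex
    refine half_of_labels _ lab ?_
    intro S hS i hi
    rw [Finset.mem_filter] at hS hi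
    have hS2 := hlab S hS.2
    have hi2 := hlab _ hi.2
    have hS3 := hS.2.1
    have hi3 := hi.2.1
    by_cases hiS : i ∈ S
    · have e1 : symmDiff S {i} = S.erase i := by
        have h2 := symm_single_insert (Finset.notMem_erase i S)
        rwa [Finset.insert_erase hiS] at h2
      rw [e1] at hi2 hi3 ⊢
      have hne : i ≠ lab S := by
        intro h; rw [h] at hi3; exact hi3 hS2.2
      refine ⟨hne, ?_⟩
      by_contra hcon
      apply hS3
      have h3 := hF _ hS2.2 _ hi2.2
      have h4 : S.erase (lab S) ∪ (S.erase i).erase (lab (S.erase i)) = S := by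
        ext x
        simp only [Finset.mem_union, Finset.mem_erase]
        constructor
        · rintro (h | h)
          · exact h.2
          · exact h.2.2
        · intro hx
          by_cases hx2 : x = lab S
          · right
            refine ⟨?_, ?_, hx⟩
            · rw [hx2]; exact fun h => hcon h.symm
            · rw [hx2]; exact hne.symm
          · left; exact ⟨hx2, hx⟩
      rwa [h4] at h3
    · have e1 : symmDiff S {i} = insert i S := symm_single_of_notMem hiS
      rw [e1] at hi2 hi3 ⊢
      have hne : i ≠ lab S := by
        intro h; rw [h] at hiS; exact hiS hS2.1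
      refine ⟨hne, ?_⟩
      have hne2 : lab (insert i S) ≠ i := by
        intro h
        rw [h, Finset.erase_insert hiS] at hi2
        exact hS3 hi2.2
      by_contra hcon
      apply hi3
      have h3 := hF _ hS2.2 _ hi2.2
      have h4 : S.erase (lab S) ∪ (insert i S).erase (lab (insert i S)) = insert i S := by
        ext x
        simp only [Finset.mem_union, Finset.mem_erase, Finset.mem_insert]
        constructor
        · rintro (h | h)
          · exact Or.inr h.2
          · exact h.2
        · rintro (hx | hx)
          · right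
            exact ⟨by rw [hx]; exact hne2.symm, Or.inl hx⟩
          · by_cases hx2 : x = lab S
            · right
              exact ⟨by rw [hx2]; exact fun h => hcon h.symm, Or.inr hx⟩
            · left; exact ⟨hx2, hx⟩
      rwa [h4] at h3

end Pool.Agent.H637R3.UC
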