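import Mathlib
import Pool.Agent.H637R3.UC.Huang

set_option autoImplicit false
set_option linter.unusedSectionVars false
set_option linter.dupNamespace false

/-!
# Improved main inequality
-/

namespace Pool.Agent.H637R3.UC

open Finset

variable {α : Type*} [Fintype α] [DecidableEq α]

theorem upb_sum_half (K : Finset (Finset α)) (hK : UC K) :
    2 * ∑ i, upb K i ≤ 2 ^ Fintype.card α := by
  have h1 : ∑ i, upb K i = (((univ : Finset (α × Finset α)).filter
      (fun p => p.1 ∉ p.2 ∧ p.2 ∈ K ∧ insert p.1 p.2 ∉ K)).card : ℝ) := by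
    rw [Finset.card_filter]
    push_cast
    rw [Fintype.sum_prod_type]
    refine Finset.sum_congr rfl (fun i _ => ?_)
    unfold upb
    rw [Finset.sum_filter]
    refine Finset.sum_congr rfl (fun P _ => ?_)
    unfold ind
    by_cases h1 : i ∉ P <;> by_cases h2 : P ∈ K <;> by_cases h3 : insert i P ∈ K <;>
      simp [h1, h2, h3]
  have h2 : ((univ : Finset (α × Finset α)).filter
      (fun p => p.1 ∉ p.2 ∧ p.2 ∈ K ∧ insert p.1 p.2 ∉ K)).card ≤
      (univ.filter (fun Z : Finset α => Z ∉ K ∧ ∃ j ∈ Z, Z.erase j ∈ K)).card := by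
    refine Finset.card_le_card_of_injOn (fun p => insert p.1 p.2) ?_ ?_
    · rintro ⟨i, P⟩ hp
      simp only [Finset.coe_filter, Finset.mem_univ, true_and, Set.mem_setOf_eq] at hp ⊢
      exact ⟨hp.2.2, i, Finset.mem_insert_self i P, by rw [Finset.erase_insert hp.1]; exact hp.2.1⟩
    · rintro ⟨i, P⟩ hp ⟨j, Q⟩ hq heq
      simp at hp hq heq
      obtain ⟨hp1, hp2, hp3⟩ := hp
      obtain ⟨hq1, hq2, hq3⟩ := hq
      by_cases hij : i = j
      · subst hij
        have h4 : P = Q := by
          have h5 := congrArg (fun s => Finset.erase s i) heq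
          simpa [Finset.erase_insert hp1, Finset.erase_insert hq1] using h5
        rw [h4]
      · exfalso
        apply hp3
        have h4 : insert i P = P ∪ Q := by
          ext x
          constructor
          · intro hx
            by_cases hxi : x = i
            · subst hxi
              have h5 : x ∈ insert j Q := heq ▸ Finset.mem_insert_self x P
              rcases Finset.mem_insert.1 h5 with h6 | h6
              · exact (hij h6).elim
              · exact Finset.mem_union_right _ h6
            · rcases Finset.mem_insert.1 hx with h6 | h6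
              · exact (hxi h6).elim
              · exact Finset.mem_union_left _ h6
          · intro hx
            rcases Finset.mem_union.1 hx with h6 | h6
            · exact Finset.mem_insert_of_mem h6
            · rw [heq]; exact Finset.mem_insert_of_mem h6
        rw [h4]
        exact hK P hp2 Q hq2
  have h3 := boundary_half K hK
  rw [h1]
  have h4 : 2 * ((univ : Finset (α × Finset α)).filter
      (fun p => p.1 ∉ p.2 ∧ p.2 ∈ K ∧ insert p.1 p.2 ∉ K)).card ≤ 2 ^ Fintype.card α := by omega
  exact_mod_cast h4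

/-- The improved main inequality, normalised. -/
theorem norm_half (F : Finset (Finset α)) (hF : UC F) :
    ∑ i, cf (ind F) {i} * (1 - 2 * cf (ind F) {i}) + 2 * th (ind F) ≤
      (1 - 2 * av (ind F)) ^ 2 := by
  have h1 := dirichlet_eq (ind F)
  simp_rw [av_dd] at h1
  rw [← Finset.sum_div, Finset.sum_sub_distrib, ← Finset.mul_sum, ← Finset.mul_sum,
    av_ind_sq] at h1
  have h2 := upb_sum_half F hF
  have hN : (0 : ℝ) < 2 ^ Fintype.card α := npos
  have h3 : ∑ i, cf (ind F) {i} = (∑ i, bias F i) / 2 ^ Fintype.card α := by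
    simp_rw [cf_single]
    rw [Finset.sum_div]
  have h4 : ∑ i, cf (ind F) {i} * (1 - 2 * cf (ind F) {i}) =
      ∑ i, cf (ind F) {i} - 2 * ∑ i, cf (ind F) {i} ^ 2 := by
    rw [Finset.mul_sum, ← Finset.sum_sub_distrib]
    exact Finset.sum_congr rfl (fun i _ => by ring)
  have h5 : (∑ i, upb F i) / 2 ^ Fintype.card α ≤ 1 / 2 := by
    rw [div_le_iff₀ hN]
    linarith
  have h6 : (4 * ∑ i, upb F i - 2 * ∑ i, bias F i) / 2 ^ Fintype.card α =
      4 * ((∑ i, upb F i) / 2 ^ Fintype.card α) - 2 * ∑ i, cf (ind F) {i} := by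
    rw [h3]; ring
  rw [h4]
  rw [h6] at h1
  nlinarith

/-- If all influences are below one eighth, then the variance is small. -/
theorem small_influences' (F : Finset (Finset α))
    (h : ∀ i, av (fun A => dd i (ind F) A ^ 2) < 1 / 8) :
    24 * av (ind F) * (1 - av (ind F)) ≤
      44 * ∑ i, cf (ind F) {i} ^ 2 + 84 * th (ind F) := by
  have h1 : ∀ i, 8 * lv i (ind F) ≤ 5 * av (fun A => dd i (ind F) A ^ 2) := by
    intro i
    have h2 := level_one_small (dd i (ind F)) (dd_cube i F)
    have h3 : 0 ≤ av (fun A => dd i (ind F) A ^ 2) := av_nonneg (fun A => sq_nonneg _)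
    have h4 : 0 ≤ lv i (ind F) := Finset.sum_nonneg (fun k _ => sq_nonneg _)
    have h5 : (8 * lv i (ind F)) ^ 2 ≤ (5 * av (fun A => dd i (ind F) A ^ 2)) ^ 2 := by
      have h6 : lv i (ind F) ^ 2 ≤ 3 * av (fun A => dd i (ind F) A ^ 2) ^ 3 := h2
      have h7 := h i
      nlinarith [mul_nonneg (sq_nonneg (av (fun A => dd i (ind F) A ^ 2))) (sub_nonneg.2 h7.le)]
    exact abs_le_of_sq_le_sq' h5 (by linarith) |>.2
  have h2 : 8 * ∑ i, lv i (ind F) ≤ 5 * ∑ i, av (fun A => dd i (ind F) A ^ 2) := by
    rw [Finset.mul_sum, Finset.mul_sum]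
    exact Finset.sum_le_sum (fun i _ => h1 i)
  simp_rw [lv_eq] at h2
  rw [sum_mem_card, sum_dd_sq] at h2
  have h3 : 24 * av (ind F) * (1 - av (ind F)) - 44 * ∑ i, cf (ind F) {i} ^ 2 -
      84 * th (ind F) ≤ 8 * ∑ S : Finset α, (S.card : ℝ) *
        (if S.card = 2 then 4 * cf (ind F) S ^ 2 else 0) -
        5 * ∑ S : Finset α, 4 * (S.card : ℝ) * cf (ind F) S ^ 2 := by
    have e1 : 24 * av (ind F) * (1 - av (ind F)) = 24 * av (fun A => ind F A ^ 2) -
        24 * av (ind F) ^ 2 := by rw [av_ind_sq]; ring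
    rw [e1, ← cf_parseval, ← cf_empty_sum, ← cf_level_one_sum, th, Finset.mul_sum,
      Finset.mul_sum, Finset.mul_sum, Finset.mul_sum, Finset.mul_sum, Finset.mul_sum,
      ← Finset.sum_sub_distrib, ← Finset.sum_sub_distrib, ← Finset.sum_sub_distrib,
      ← Finset.sum_sub_distrib]
    refine Finset.sum_le_sum (fun S _ => ?_)
    have hsq : 0 ≤ cf (ind F) S ^ 2 := sq_nonneg _
    by_cases h1 : S = ∅
    · subst h1; simp
    · have h2 : 1 ≤ S.card := Finset.card_pos.2 (Finset.nonempty_iff_ne_empty.2 h1)
      rw [if_neg h1]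
      by_cases h3 : S.card = 1
      · rw [if_pos h3, if_neg (by omega), h3]
        norm_num
        nlinarith
      · rw [if_neg h3]
        by_cases h4 : S.card = 2
        · rw [if_pos h4, h4]
          norm_num
          nlinarith
        · rw [if_neg h4]
          have h5 : 3 ≤ S.card := by omega
          have h6 : (3 : ℝ) ≤ S.card := by exact_mod_cast h5
          rw [Nat.cast_sub (by omega)]
          push_cast
          nlinarith
  linarith

/-- the negative part of second order coefficients is controlled by the variance -/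
theorem neg_part' (F : Finset (Finset α)) (hF : UC F) (i k : α) (hik : k ≠ i)
    (h : ∀ l, 0 ≤ cf (ind F) {l}) (ha : 9 / 20 ≤ av (ind F)) (hv : vr i k (ind F) ≤ 4 / 25) :
    -(5 / 16 * vr i k (ind F)) ≤ cf (ind F) {i, k} := by
  have h1 := second_lower F i k hik hF
  have h2 := second_var F i k hik
  have h3 := vr_nonneg hik (ind F)
  by_contra hcon
  push Not at hcon
  have h4 : cf (ind F) {i, k} < 0 := by linarith
  by_cases h5 : 4 / 5 ≤ 1 + 4 * cf (ind F) {i, k}
  · nlinarith [h i, h k]
  · push Not at h5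
    nlinarith [h i, h k]

end Pool.Agent.H637R3.UC
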