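import Mathlib
import Pool.Agent.H637R3.UC.Half

set_option autoImplicit false
set_option linter.unusedSectionVars false
set_option linter.dupNamespace false
set_option linter.unusedVariables false
set_option maxHeartbeats 4000000

/-!
# Families with density between nine twentieths and one half
-/

namespace Pool.Agent.H637R3.UC

open Finset

variable {α : Type*} [Fintype α] [DecidableEq α]

theorem cf_le_av' (F : Finset (Finset α)) (i : α) : cf (ind F) {i} ≤ av (ind F) := by
  have h := av_ind_nonneg (hiF i F)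
  rw [ind_hiF, av_hi] at h
  linarith

/-- partial sums of variances, as a sum over all sets -/
theorem sum_vr_eq (i k : α) (hik : k ≠ i) (f : Finset α → ℝ) :
    ∑ l ∈ (univ.erase i).erase k, vr i l f = ∑ S : Finset α,
      ((if i ∈ S then ((((univ.erase i).erase k ∩ S).card : ℝ)) * (16 * cf f S ^ 2) else 0) -
        4 * (if i ∈ S then (if S.card = 2 then 4 * cf f S ^ 2 else 0) else 0) +
        (if S = {i, k} then 16 * cf f S ^ 2 else 0)) := by
  unfold vr
  have hki : k ∈ univ.erase i := Finset.mem_erase.2 ⟨hik, Finset.mem_univ k⟩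
  have h1 : ∑ l ∈ (univ.erase i).erase k, 16 * cf f {i, l} ^ 2 =
      4 * lv i f - 16 * cf f {i, k} ^ 2 := by
    rw [lv_eq', ← Finset.add_sum_erase _ _ hki, mul_add, Finset.mul_sum]
    have : ∀ l ∈ (univ.erase i).erase k, 4 * (4 * cf f {i, l} ^ 2) = 16 * cf f {i, l} ^ 2 :=
      fun l _ => by ring
    rw [Finset.sum_congr rfl this]
    ring
  have h2 : ∑ l ∈ (univ.erase i).erase k, av (fun A => dd i (dd l f) A ^ 2) =
      ∑ S : Finset α, (if i ∈ S then ((((univ.erase i).erase k ∩ S).card : ℝ)) *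
        (16 * cf f S ^ 2) else 0) := by
    have h3 : ∀ l ∈ (univ.erase i).erase k, av (fun A => dd i (dd l f) A ^ 2) =
        ∑ S : Finset α, (if l ∈ S then (if i ∈ S then 16 * cf f S ^ 2 else 0) else 0) :=
      fun l hl => av_dd2_sq (Finset.mem_erase.1 (Finset.mem_erase.1 hl).2).1 f
    rw [Finset.sum_congr rfl h3, Finset.sum_comm]
    refine Finset.sum_congr rfl (fun S _ => ?_)
    rw [Finset.sum_ite_mem]
    by_cases h : i ∈ S
    · rw [if_pos h, if_pos h, Finset.sum_const, nsmul_eq_mul]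
    · rw [if_neg h]
      simp [h]
  have h4 : 16 * cf f {i, k} ^ 2 = ∑ S : Finset α, (if S = {i, k} then 16 * cf f S ^ 2 else 0) := by
    rw [Finset.sum_ite_eq']
    simp
  rw [Finset.sum_sub_distrib, h1, h2, h4, lv_eq, Finset.sum_add_distrib, Finset.sum_sub_distrib,
    ← Finset.mul_sum]
  ring

theorem vr_pair (i k : α) (hik : k ≠ i) (f : Finset α → ℝ) :
    ∑ l ∈ (univ.erase i).erase k, vr i l f + ∑ l ∈ (univ.erase k).erase i, vr k l f ≤
      32 * th f := by
  rw [sum_vr_eq i k hik, sum_vr_eq k i hik.symm, th, Finset.mul_sum, ← Finset.sum_add_distrib]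
  refine Finset.sum_le_sum (fun S _ => ?_)
  have hsq : 0 ≤ cf f S ^ 2 := sq_nonneg _
  have hnn : (0 : ℝ) ≤ ((S.card - 2 : ℕ) : ℝ) := Nat.cast_nonneg _
  have hc : ({k, i} : Finset α) = {i, k} := Finset.pair_comm k i
  have hT : (univ.erase i).erase k ∩ S = (S.erase i).erase k := by
    ext x; simp
  have hT' : (univ.erase k).erase i ∩ S = (S.erase i).erase k := by
    ext x; simp; tauto
  rw [hc, hT, hT']
  by_cases h1 : i ∈ S
  · by_cases h2 : k ∈ S
    · have h3 : ((S.erase i).erase k).card = S.card - 2 := by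
        rw [Finset.card_erase_of_mem (Finset.mem_erase.2 ⟨hik, h2⟩), Finset.card_erase_of_mem h1]
        omega
      rw [if_pos h1, if_pos h2, if_pos h1, if_pos h2, h3]
      by_cases h4 : S.card = 2
      · have h5 : S = {i, k} := by
          symm
          apply Finset.eq_of_subset_of_card_le
          · intro x hx
            rw [Finset.mem_insert, Finset.mem_singleton] at hx
            rcases hx with rfl | rfl
            · exact h1
            · exact h2
          · rw [h4, Finset.card_pair hik.symm]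
        rw [if_pos h4, if_pos h5, h4]
        norm_num
        nlinarith
      · have h5 : S ≠ {i, k} := by
          intro h5
          apply h4
          rw [h5, Finset.card_pair hik.symm]
        rw [if_neg h4, if_neg h5]
        nlinarith
    · have h3 : ((S.erase i).erase k).card = S.card - 1 := by
        rw [Finset.erase_eq_of_notMem (fun h => h2 (Finset.mem_erase.1 h).2),
          Finset.card_erase_of_mem h1]
      have h5 : S ≠ {i, k} := by
        intro h5
        apply h2
        rw [h5]; simp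
      have h6 : 1 ≤ S.card := Finset.card_pos.2 ⟨i, h1⟩
      rw [if_pos h1, if_neg h2, if_pos h1, if_neg h2, if_neg h5, h3]
      by_cases h4 : S.card = 2
      · rw [if_pos h4, h4]
        norm_num
        nlinarith
      · rw [if_neg h4]
        by_cases h7 : S.card = 1
        · rw [h7]; norm_num
        · have h8 : 3 ≤ S.card := by omega
          have h9 : (3 : ℝ) ≤ S.card := by exact_mod_cast h8
          rw [Nat.cast_sub h6, Nat.cast_sub (by omega)]
          push_cast
          nlinarith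
  · by_cases h2 : k ∈ S
    · have h3 : ((S.erase i).erase k).card = S.card - 1 := by
        rw [Finset.erase_eq_of_notMem h1, Finset.card_erase_of_mem h2]
      have h5 : S ≠ {i, k} := by
        intro h5
        apply h1
        rw [h5]; simp
      have h6 : 1 ≤ S.card := Finset.card_pos.2 ⟨k, h2⟩
      rw [if_neg h1, if_pos h2, if_neg h1, if_pos h2, if_neg h5, h3]
      by_cases h4 : S.card = 2
      · rw [if_pos h4, h4]
        norm_num
        nlinarith
      · rw [if_neg h4]
        by_cases h7 : S.card = 1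
        · rw [h7]; norm_num
        · have h8 : 3 ≤ S.card := by omega
          have h9 : (3 : ℝ) ≤ S.card := by exact_mod_cast h8
          rw [Nat.cast_sub h6, Nat.cast_sub (by omega)]
          push_cast
          nlinarith
    · have h5 : S ≠ {i, k} := by
        intro h5
        apply h1
        rw [h5]; simp
      rw [if_neg h1, if_neg h2, if_neg h1, if_neg h2, if_neg h5]
      nlinarith

theorem basic (F : Finset (Finset α)) (hF : UC F) (h : ∀ l, 0 ≤ cf (ind F) {l}) (c : ℝ)
    (hc : av (ind F) = 1 / 2 - c) (hc0 : 0 < c) (hc1 : c ≤ 1 / 20) :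
    (∀ i, cf (ind F) {i} ≤ 1 / 50) ∧
      24 / 25 * ∑ i, cf (ind F) {i} + 2 * th (ind F) ≤ 4 * c ^ 2 := by
  have hN := norm_half F hF
  rw [hc] at hN
  have hth := th_nonneg (ind F)
  have hwa : ∀ i, cf (ind F) {i} ≤ 1 / 2 - c := by
    intro i; rw [← hc]; exact cf_le_av' F i
  have hterm : ∀ i, 0 ≤ cf (ind F) {i} * (1 - 2 * cf (ind F) {i}) :=
    fun i => mul_nonneg (h i) (by linarith [hwa i])
  have hone : ∀ i, cf (ind F) {i} * (1 - 2 * cf (ind F) {i}) ≤ 4 * c ^ 2 := by
    intro i
    have := Finset.single_le_sum (f := fun i => cf (ind F) {i} * (1 - 2 * cf (ind F) {i}))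
      (fun j _ => hterm j) (Finset.mem_univ i)
    linarith
  have h50 : ∀ i, cf (ind F) {i} ≤ 1 / 50 := by
    intro i
    have h1 := hone i
    have h2 : cf (ind F) {i} ≤ 1 / 4 := by
      by_contra hcon
      push Not at hcon
      have h3 : 0 ≤ (1 / 2 - c - cf (ind F) {i}) * (2 * cf (ind F) {i} - 2 * c) :=
        mul_nonneg (by linarith [hwa i]) (by linarith)
      nlinarith
    nlinarith [h i]
  refine ⟨h50, ?_⟩
  have h1 : ∑ i, 24 / 25 * cf (ind F) {i} ≤ ∑ i, cf (ind F) {i} * (1 - 2 * cf (ind F) {i}) := by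
    refine Finset.sum_le_sum (fun i _ => ?_)
    nlinarith [h i, h50 i]
  rw [← Finset.mul_sum] at h1
  linarith

theorem lo_norm (F : Finset (Finset α)) (hF : UC F) (c : ℝ)
    (hc : av (ind F) = 1 / 2 - c) (j : α) :
    ∑ l ∈ univ.erase j, cf (lo j (ind F)) {l} * (1 - 2 * cf (lo j (ind F)) {l}) ≤
      4 * (c - cf (ind F) {j}) ^ 2 := by
  have hN2 := norm_half (loF j F) (uc_lo hF)
  rw [ind_loF, av_lo, hc] at hN2
  have hthg := th_nonneg (lo j (ind F))
  have hgi0 : cf (lo j (ind F)) {j} = 0 := by rw [cf_lo_single, if_pos rfl]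
  rw [← Finset.add_sum_erase univ _ (Finset.mem_univ j), hgi0] at hN2
  nlinarith

theorem lo_le (F : Finset (Finset α)) (c : ℝ)
    (hc : av (ind F) = 1 / 2 - c) (j k : α) :
    cf (lo j (ind F)) {k} ≤ 1 / 2 - c + cf (ind F) {j} := by
  have := cf_le_av' (loF j F) k
  rwa [ind_loF, av_lo, hc] at this

/-- the case of two twins -/
theorem pivot (F : Finset (Finset α)) (hF : UC F) (h : ∀ l, 0 ≤ cf (ind F) {l}) (c : ℝ)
    (hc : av (ind F) = 1 / 2 - c) (hc0 : 0 < c) (hc1 : c ≤ 1 / 20) (j k : α) (hjk : k ≠ j)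
    (hR : ∑ l ∈ (univ.erase j).erase k, vr j l (ind F) ≤ 16 * th (ind F))
    (hbig : 23 / 100 ≤ cf (ind F) {j, k}) : False := by
  obtain ⟨h50, hS⟩ := basic F hF h c hc hc0 hc1
  have hth := th_nonneg (ind F)
  have hwj : cf (ind F) {j} ≤ ∑ i, cf (ind F) {i} :=
    Finset.single_le_sum (f := fun i => cf (ind F) {i}) (fun i _ => h i) (Finset.mem_univ j)
  have hS0 : 0 ≤ ∑ i, cf (ind F) {i} := Finset.sum_nonneg (fun i _ => h i)
  have hN := lo_norm F hF c hc j
  have hkm : k ∈ univ.erase j := Finset.mem_erase.2 ⟨hjk, Finset.mem_univ k⟩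
  have hc2 : c ^ 2 ≤ 1 / 20 * c := by nlinarith
  have hc3 : c ^ 2 ≤ 1 / 400 := by nlinarith
  have hlow : ∀ l ∈ (univ.erase j).erase k, -(21 / 64 * vr j l (ind F)) ≤
      cf (lo j (ind F)) {l} * (1 - 2 * cf (lo j (ind F)) {l}) := by
    intro l hl
    have hlj : l ≠ j := (Finset.mem_erase.1 (Finset.mem_erase.1 hl).2).1
    have h1 : vr j l (ind F) ≤ 16 * th (ind F) := by
      have := Finset.single_le_sum (f := fun l => vr j l (ind F)) (s := (univ.erase j).erase k)
        (fun m hm => vr_nonneg (Finset.mem_erase.1 (Finset.mem_erase.1 hm).2).1 (ind F)) hl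
      linarith
    have h2 := vr_nonneg hlj (ind F)
    have h3 := neg_part' F hF j l hlj h (by rw [hc]; linarith) (by nlinarith)
    have h4 : cf (lo j (ind F)) {l} = cf (ind F) {l} + cf (ind F) {j, l} := by
      rw [cf_lo_single, if_neg hlj]
    have h5 : -(5 / 16 * vr j l (ind F)) ≤ cf (lo j (ind F)) {l} := by
      rw [h4]; linarith [h l]
    have h6 := lo_le F c hc j l
    have h7 : vr j l (ind F) ≤ 8 / 100 := by nlinarith
    by_cases h8 : 0 ≤ cf (lo j (ind F)) {l}
    · have : 0 ≤ cf (lo j (ind F)) {l} * (1 - 2 * cf (lo j (ind F)) {l}) :=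
        mul_nonneg h8 (by nlinarith [h50 j])
      linarith
    · push Not at h8
      nlinarith
  rw [← Finset.add_sum_erase _ _ hkm] at hN
  have hsum : -(21 / 64 * (16 * th (ind F))) ≤ ∑ l ∈ (univ.erase j).erase k,
      cf (lo j (ind F)) {l} * (1 - 2 * cf (lo j (ind F)) {l}) := by
    have h1 := Finset.sum_le_sum hlow
    rw [Finset.sum_neg_distrib, ← Finset.mul_sum] at h1
    linarith
  have hu : cf (lo j (ind F)) {k} = cf (ind F) {k} + cf (ind F) {j, k} := by
    rw [cf_lo_single, if_neg hjk]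
  have hu1 : 23 / 100 ≤ cf (lo j (ind F)) {k} := by rw [hu]; linarith [h k]
  have hu2 := lo_le F c hc j k
  have hprod : 0 ≤ (1 / 2 - c + cf (ind F) {j} - cf (lo j (ind F)) {k}) *
      (2 * cf (lo j (ind F)) {k} - 2 * (c - cf (ind F) {j})) :=
    mul_nonneg (by linarith) (by linarith [h j])
  have hwj2 : cf (ind F) {j} ≤ 25 / 6 * c ^ 2 := by linarith
  have hwj3 : cf (ind F) {j} ≤ c := by nlinarith
  have hkey : c - cf (ind F) {j} - 6 * (c - cf (ind F) {j}) ^ 2 ≤ 21 / 4 * th (ind F) := by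
    nlinarith
  have hsq : (c - cf (ind F) {j}) ^ 2 ≤ c ^ 2 := by nlinarith [h j]
  have hth2 : 21 / 4 * th (ind F) ≤ 21 / 8 * (4 * c ^ 2 - 24 / 25 * cf (ind F) {j}) := by
    linarith
  nlinarith [h j]

/-- Between nine twentieths and one half. -/
theorem below_half' (F : Finset (Finset α)) (hF : UC F) (h : ∀ l, 0 ≤ cf (ind F) {l})
    (ha1 : 9 / 20 ≤ av (ind F)) (ha2 : av (ind F) < 1 / 2) : False := by
  obtain ⟨c, hc'⟩ : ∃ c : ℝ, c = 1 / 2 - av (ind F) := ⟨_, rfl⟩
  have hc : av (ind F) = 1 / 2 - c := by rw [hc']; ring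
  have hc0 : 0 < c := by linarith
  have hc1 : c ≤ 1 / 20 := by linarith
  obtain ⟨h50, hS⟩ := basic F hF h c hc hc0 hc1
  have hth := th_nonneg (ind F)
  have hS0 : 0 ≤ ∑ i, cf (ind F) {i} := Finset.sum_nonneg (fun i _ => h i)
  have hc2 : c ^ 2 ≤ 1 / 20 * c := by nlinarith
  have hc3 : c ^ 2 ≤ 1 / 400 := by nlinarith
  have hSs : ∑ i, cf (ind F) {i} ≤ 1 / 96 := by linarith
  have hth2 : th (ind F) ≤ 2 * c ^ 2 := by linarith
  have hwi : ∀ i, cf (ind F) {i} ≤ 1 / 96 := by
    intro i
    have := Finset.single_le_sum (f := fun i => cf (ind F) {i}) (fun j _ => h j) (Finset.mem_univ i)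
    linarith
  have hwc : ∀ i, cf (ind F) {i} ≤ c := by
    intro i
    have := Finset.single_le_sum (f := fun i => cf (ind F) {i}) (fun j _ => h j) (Finset.mem_univ i)
    linarith
  have hW : ∑ i, cf (ind F) {i} ^ 2 ≤ (1 / 96) ^ 2 := by
    have h1 : ∑ i, cf (ind F) {i} ^ 2 ≤ (∑ i, cf (ind F) {i}) ^ 2 :=
      Finset.sum_sq_le_sq_sum_of_nonneg (fun i _ => h i)
    nlinarith
  -- an influential element
  obtain ⟨i, hi⟩ : ∃ i, 1 / 8 ≤ av (fun A => dd i (ind F) A ^ 2) := by
    by_contra hcon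
    push Not at hcon
    have h1 := small_influences' F hcon
    rw [hc] at h1
    nlinarith
  have hvs : ∑ k ∈ univ.erase i, vr i k (ind F) ≤ 64 * c ^ 2 := by
    have := sum_vr_le i (ind F)
    linarith
  have hvs0 : 0 ≤ ∑ k ∈ univ.erase i, vr i k (ind F) :=
    Finset.sum_nonneg (fun k hk => vr_nonneg (Finset.mem_erase.1 hk).1 (ind F))
  have hv0 : ∀ k, k ≠ i → 0 ≤ vr i k (ind F) := fun k hk => vr_nonneg hk (ind F)
  have hv1 : ∀ k, k ≠ i → vr i k (ind F) ≤ 4 / 25 := by
    intro k hk
    have := Finset.single_le_sum (f := fun k => vr i k (ind F)) (s := univ.erase i)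
      (fun j hj => hv0 j (Finset.mem_erase.1 hj).1) (Finset.mem_erase.2 ⟨hk, Finset.mem_univ k⟩)
    linarith
  have hneg : ∀ k, k ≠ i → -(5 / 16 * vr i k (ind F)) ≤ cf (ind F) {i, k} := by
    intro k hk
    exact neg_part' F hF i k hk h ha1 (hv1 k hk)
  have hgi : ∀ k, k ≠ i → cf (lo i (ind F)) {k} = cf (ind F) {k} + cf (ind F) {i, k} := by
    intro k hk
    rw [cf_lo_single, if_neg hk]
  by_cases hbig : ∃ k, k ≠ i ∧ 1 / 4 < cf (lo i (ind F)) {k}
  · obtain ⟨k, hk, hk1⟩ := hbig
    rw [hgi k hk] at hk1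
    have hb : 23 / 100 ≤ cf (ind F) {i, k} := by linarith [h50 k]
    have hp := vr_pair i k hk (ind F)
    by_cases hR : ∑ l ∈ (univ.erase i).erase k, vr i l (ind F) ≤ 16 * th (ind F)
    · exact pivot F hF h c hc hc0 hc1 i k hk hR hb
    · push Not at hR
      refine pivot F hF h c hc hc0 hc1 k i hk.symm (by linarith) ?_
      rwa [Finset.pair_comm]
  · push Not at hbig
    have hN := lo_norm F hF c hc i
    have hc00 : (c - cf (ind F) {i}) ^ 2 ≤ c ^ 2 := by nlinarith [h i, hwc i]
    have hlow : ∀ k ∈ univ.erase i, max (cf (lo i (ind F)) {k}) 0 / 2 - 11 / 32 * vr i k (ind F) ≤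
        cf (lo i (ind F)) {k} * (1 - 2 * cf (lo i (ind F)) {k}) := by
      intro k hk
      have hki := (Finset.mem_erase.1 hk).1
      have h1 := hneg k hki
      have h2 := hv0 k hki
      have h3 := hv1 k hki
      have h4 := hbig k hki
      have h5 : -(5 / 16 * vr i k (ind F)) ≤ cf (lo i (ind F)) {k} := by
        rw [hgi k hki]; linarith [h k]
      by_cases h6 : 0 ≤ cf (lo i (ind F)) {k}
      · rw [max_eq_left h6]
        nlinarith
      · push Not at h6
        rw [max_eq_right h6.le]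
        nlinarith
    have hP : ∑ k ∈ univ.erase i, max (cf (lo i (ind F)) {k}) 0 ≤ 13 / 100 := by
      have h1 := Finset.sum_le_sum hlow
      rw [Finset.sum_sub_distrib, ← Finset.sum_div, ← Finset.mul_sum] at h1
      linarith
    have hP0 : 0 ≤ ∑ k ∈ univ.erase i, max (cf (lo i (ind F)) {k}) 0 :=
      Finset.sum_nonneg (fun k _ => le_max_right _ _)
    have hsq : ∀ k ∈ univ.erase i, cf (ind F) {i, k} ^ 2 ≤
        max (cf (lo i (ind F)) {k}) 0 ^ 2 + cf (ind F) {k} ^ 2 + (5 / 16 * vr i k (ind F)) ^ 2 := by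
      intro k hk
      have hki := (Finset.mem_erase.1 hk).1
      have h1 := hneg k hki
      have h2 := hv0 k hki
      have h3 : cf (ind F) {i, k} = cf (lo i (ind F)) {k} - cf (ind F) {k} := by
        rw [hgi k hki]; ring
      by_cases h6 : 0 ≤ cf (lo i (ind F)) {k}
      · rw [max_eq_left h6, h3]
        nlinarith [h k, mul_nonneg h6 (h k), sq_nonneg (5 / 16 * vr i k (ind F))]
      · push Not at h6
        rw [max_eq_right h6.le]
        have h7 : cf (ind F) {i, k} ≤ 0 := by rw [h3]; linarith [h k]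
        nlinarith [sq_nonneg (cf (ind F) {k})]
    have hsum := Finset.sum_le_sum hsq
    rw [Finset.sum_add_distrib, Finset.sum_add_distrib] at hsum
    have hb1 : ∑ k ∈ univ.erase i, max (cf (lo i (ind F)) {k}) 0 ^ 2 ≤ (13 / 100) ^ 2 := by
      have h1 := Finset.sum_sq_le_sq_sum_of_nonneg (s := univ.erase i)
        (f := fun k => max (cf (lo i (ind F)) {k}) 0) (fun k _ => le_max_right _ _)
      nlinarith
    have hb2 : ∑ k ∈ univ.erase i, cf (ind F) {k} ^ 2 ≤ (1 / 96) ^ 2 := by
      rw [← Finset.add_sum_erase univ _ (Finset.mem_univ i)] at hW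
      nlinarith [sq_nonneg (cf (ind F) {i})]
    have hb3 : ∑ k ∈ univ.erase i, (5 / 16 * vr i k (ind F)) ^ 2 ≤ (1 / 20) ^ 2 := by
      have h1 := Finset.sum_sq_le_sq_sum_of_nonneg (s := univ.erase i)
        (f := fun k => 5 / 16 * vr i k (ind F))
        (fun k hk => mul_nonneg (by norm_num) (hv0 k (Finset.mem_erase.1 hk).1))
      rw [← Finset.mul_sum] at h1
      nlinarith
    have hlv : lv i (ind F) ≤ 4 * ((13 / 100) ^ 2 + (1 / 96) ^ 2 + (1 / 20) ^ 2) := by
      rw [lv_eq', ← Finset.mul_sum]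
      linarith
    have hfin := lv_rest i (ind F)
    have h1 := hwi i
    have h2 := h i
    nlinarith

end Pool.Agent.H637R3.UC
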