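import Mathlib

set_option autoImplicit false
set_option linter.unusedSectionVars false

/-!
# Transport of a finite family to a finite type
-/

namespace Pool.Agent.H637R3.UC

open Finset

variable {α : Type*} [DecidableEq α]

/-- trace of a family on its universe, as a family on the subtype -/
def tr (A : Finset (Finset α)) : Finset (Finset {x // x ∈ A.sup id}) :=
  A.image (fun S => S.subtype (fun x => x ∈ A.sup id))

theorem sub_sup {A : Finset (Finset α)} {S : Finset α} (hS : S ∈ A) : S ⊆ A.sup id :=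
  Finset.le_sup (f := id) hS

theorem subtype_inj {U S T : Finset α} (hS : S ⊆ U) (hT : T ⊆ U)
    (h : S.subtype (fun x => x ∈ U) = T.subtype (fun x => x ∈ U)) : S = T := by
  ext x
  constructor
  · intro hx
    have h1 : (⟨x, hS hx⟩ : {x // x ∈ U}) ∈ S.subtype (fun x => x ∈ U) := by simpa using hx
    rw [h] at h1
    simpa using h1
  · intro hx
    have h1 : (⟨x, hT hx⟩ : {x // x ∈ U}) ∈ T.subtype (fun x => x ∈ U) := by simpa using hx
    rw [← h] at h1
    simpa using h1

theorem tr_injOn (A : Finset (Finset α)) :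
    Set.InjOn (fun S : Finset α => S.subtype (fun x => x ∈ A.sup id)) (A : Set (Finset α)) := by
  intro S hS T hT h
  exact subtype_inj (sub_sup hS) (sub_sup hT) h

theorem tr_card (A : Finset (Finset α)) : (tr A).card = A.card :=
  Finset.card_image_of_injOn (tr_injOn A)

theorem tr_filter_card (A : Finset (Finset α)) (i : {x // x ∈ A.sup id}) :
    ((tr A).filter (fun S => i ∈ S)).card = (A.filter (fun S => (i : α) ∈ S)).card := by
  unfold tr
  rw [Finset.filter_image]
  rw [Finset.card_image_of_injOn]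
  · congr 1
    ext S
    simp
  · intro S hS T hT h
    simp only [Finset.coe_filter, Set.mem_setOf_eq] at hS hT
    exact tr_injOn A hS.1 hT.1 h

theorem tr_union (A : Finset (Finset α)) (h : ∀ X ∈ A, ∀ Y ∈ A, X ∪ Y ∈ A) :
    ∀ X ∈ tr A, ∀ Y ∈ tr A, X ∪ Y ∈ tr A := by
  intro X hX Y hY
  unfold tr at *
  rw [Finset.mem_image] at *
  obtain ⟨S, hS, rfl⟩ := hX
  obtain ⟨T, hT, rfl⟩ := hY
  refine ⟨S ∪ T, h S hS T hT, ?_⟩
  ext x
  simp

theorem mem_sup_iff (A : Finset (Finset α)) (x : α) : x ∈ A.sup id ↔ ∃ S ∈ A, x ∈ S := by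
  rw [Finset.mem_sup]
  simp

theorem tr_cover (A : Finset (Finset α)) (i : {x // x ∈ A.sup id}) : ∃ S ∈ tr A, i ∈ S := by
  obtain ⟨S, hS, h⟩ := (mem_sup_iff A i).1 i.2
  exact ⟨_, Finset.mem_image_of_mem _ hS, by simpa using h⟩

theorem tr_sep (A : Finset (Finset α))
    (h : ∀ x ∈ A.sup id, ∀ y ∈ A.sup id, x ≠ y →
      ∃ S ∈ A, (x ∈ S ∧ y ∉ S) ∨ (y ∈ S ∧ x ∉ S)) (i j : {x // x ∈ A.sup id}) (hij : i ≠ j) :
    ∃ S ∈ tr A, (i ∈ S ∧ j ∉ S) ∨ (j ∈ S ∧ i ∉ S) := by
  obtain ⟨S, hS, h1⟩ := h i i.2 j j.2 (fun h2 => hij (Subtype.ext h2))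
  exact ⟨_, Finset.mem_image_of_mem _ hS, by simpa using h1⟩

theorem tr_eq_univ (A : Finset (Finset α)) (h : tr A = univ) : A = (A.sup id).powerset := by
  ext S
  rw [Finset.mem_powerset]
  constructor
  · intro hS
    exact sub_sup hS
  · intro hS
    have h1 : S.subtype (fun x => x ∈ A.sup id) ∈ tr A := by
      rw [h]; exact Finset.mem_univ _
    unfold tr at h1
    rw [Finset.mem_image] at h1
    obtain ⟨T, hT, h2⟩ := h1
    have h3 := subtype_inj (sub_sup hT) hS h2
    rwa [← h3]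

theorem card_sub (A : Finset (Finset α)) :
    Fintype.card {x // x ∈ A.sup id} = (A.sup id).card := by
  simp

end Pool.Agent.H637R3.UC
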