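import Mathlib
import Pool.Agent.H637R3.UC.Below
import Pool.Agent.H637R3.UC.Transport

set_option autoImplicit false
set_option linter.unusedSectionVars false
set_option linter.dupNamespace false

/-!
# Assembly of the results on dense union-closed families
-/

namespace Pool.Agent.H637R3.UC

open Finset

section fin

variable {α : Type*} [Fintype α] [DecidableEq α]

theorem cf_nonneg_of (F : Finset (Finset α)) (i : α)
    (h : 2 * (F.filter (fun S => i ∈ S)).card ≤ F.card) : 0 ≤ cf (ind F) {i} := by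
  rw [cf_single]
  refine div_nonneg ?_ npos.le
  rw [bias_eq]
  have h1 := card_split F i
  have h2 : (2 : ℝ) * (F.filter (fun S => i ∈ S)).card ≤ F.card := by exact_mod_cast h
  linarith

/-- slightly below half density -/
theorem half_dense (F : Finset (Finset α)) (hF : UC F)
    (hd : 9 * 2 ^ Fintype.card α ≤ 20 * F.card) (hlt : 2 * F.card < 2 ^ Fintype.card α) :
    ∃ i : α, F.card < 2 * (F.filter (fun S => i ∈ S)).card := by
  by_contra hcon
  push Not at hcon
  have hN : (0 : ℝ) < 2 ^ Fintype.card α := npos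
  refine below_half' F hF (fun i => cf_nonneg_of F i (hcon i)) ?_ ?_
  · rw [av_ind, le_div_iff₀ hN]
    have h1 : (9 : ℝ) * 2 ^ Fintype.card α ≤ 20 * F.card := by exact_mod_cast hd
    linarith
  · rw [av_ind, div_lt_iff₀ hN]
    have h1 : (2 : ℝ) * F.card < 2 ^ Fintype.card α := by exact_mod_cast hlt
    linarith

/-- above half density -/
theorem above_half (F : Finset (Finset α)) (hF : UC F) (hne : F ≠ univ)
    (hlt : 2 ^ Fintype.card α < 2 * F.card) :
    ∃ i : α, F.card < 2 * (F.filter (fun S => i ∈ S)).card := by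
  by_contra hcon
  push Not at hcon
  have hN : (0 : ℝ) < 2 ^ Fintype.card α := npos
  have hlt' : (F.card : ℝ) < 2 ^ Fintype.card α := by
    have h1 : F.card < Fintype.card (Finset α) := by
      rcases (Finset.card_le_univ F).lt_or_eq with h | h
      · exact h
      · exact (hne ((Finset.card_eq_iff_eq_univ F).1 h)).elim
    rw [Fintype.card_finset] at h1
    exact_mod_cast h1
  have hd' : (2 : ℝ) ^ Fintype.card α < 2 * F.card := by exact_mod_cast hlt
  have hb0 : ∀ i, 0 ≤ bias F i := by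
    intro i
    rw [bias_eq]
    have h1 := card_split F i
    have h2 : (2 : ℝ) * (F.filter (fun S => i ∈ S)).card ≤ F.card := by exact_mod_cast hcon i
    linarith
  have hb2 : ∀ i, 2 * bias F i ≤ 2 ^ Fintype.card α := by
    intro i
    rw [bias_eq]
    have h1 := card_notMem_le F i
    have h2 : (0 : ℝ) ≤ (F.filter (fun S => i ∈ S)).card := Nat.cast_nonneg _
    linarith
  have hmain := main_ineq F hF
  have hs : 0 ≤ ∑ i, bias F i * (2 ^ Fintype.card α - 2 * bias F i) :=
    Finset.sum_nonneg (fun i _ => mul_nonneg (hb0 i) (by linarith [hb2 i]))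
  nlinarith

/-- Poonen's strengthening for dense families on a finite type. -/
theorem dense_fin2 (F : Finset (Finset α)) (hF : ∀ X ∈ F, ∀ Y ∈ F, X ∪ Y ∈ F)
    (hU : ∀ i : α, ∃ S ∈ F, i ∈ S)
    (hsep : ∀ x y : α, x ≠ y → ∃ S ∈ F, (x ∈ S ∧ y ∉ S) ∨ (y ∈ S ∧ x ∉ S))
    (hne : F ≠ univ) (hd : 9 * 2 ^ Fintype.card α ≤ 20 * F.card) :
    ∃ i : α, F.card < 2 * (F.filter (fun S => i ∈ S)).card := by
  by_cases h : 2 ^ Fintype.card α ≤ 2 * F.card
  · exact dense_fin F hF hU hsep hne h
  · exact half_dense F hF hd (by omega)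

/-- Frankl's conjecture for dense families on a finite type. -/
theorem frankl_fin [Nonempty α] (F : Finset (Finset α)) (hF : ∀ X ∈ F, ∀ Y ∈ F, X ∪ Y ∈ F)
    (hU : ∀ i : α, ∃ S ∈ F, i ∈ S) (hd : 9 * 2 ^ Fintype.card α ≤ 20 * F.card) :
    ∃ i : α, F.card ≤ 2 * (F.filter (fun S => i ∈ S)).card := by
  by_cases h : 2 ^ Fintype.card α ≤ 2 * F.card
  · by_contra hcon
    push Not at hcon
    have hN : (0 : ℝ) < 2 ^ Fintype.card α := npos
    have hd' : (2 : ℝ) ^ Fintype.card α ≤ 2 * F.card := by exact_mod_cast h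
    have hb0 : ∀ i, 0 < bias F i := by
      intro i
      rw [bias_eq]
      have h1 := card_split F i
      have h2 : (2 : ℝ) * (F.filter (fun S => i ∈ S)).card < F.card := by exact_mod_cast hcon i
      linarith
    have hb2 : ∀ i, 2 * bias F i < 2 ^ Fintype.card α := by
      intro i
      obtain ⟨S, hS, hiS⟩ := hU i
      have h1 : 0 < (F.filter (fun S => i ∈ S)).card :=
        Finset.card_pos.2 ⟨S, Finset.mem_filter.2 ⟨hS, hiS⟩⟩
      have h2 : (0 : ℝ) < (F.filter (fun S => i ∈ S)).card := by exact_mod_cast h1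
      rw [bias_eq]
      have h3 := card_notMem_le F i
      linarith
    have hmain := main_ineq F hF
    have hs : 0 < ∑ i, bias F i * (2 ^ Fintype.card α - 2 * bias F i) :=
      Finset.sum_pos (fun i _ => mul_pos (hb0 i) (by linarith [hb2 i])) Finset.univ_nonempty
    have hle : (F.card : ℝ) ≤ 2 ^ Fintype.card α := by
      have := Finset.card_le_univ F
      rw [Fintype.card_finset] at this
      exact_mod_cast this
    nlinarith
  · obtain ⟨i, hi⟩ := half_dense F hF hd (by omega)
    exact ⟨i, hi.le⟩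

/-- Dense families without an abundant element. -/
theorem tight_fin (F : Finset (Finset α)) (hF : UC F)
    (hd : 9 * 2 ^ Fintype.card α ≤ 20 * F.card)
    (hle : ∀ i : α, 2 * (F.filter (fun S => i ∈ S)).card ≤ F.card) :
    F.card = 2 ^ Fintype.card α ∨ 2 * F.card = 2 ^ Fintype.card α := by
  rcases lt_trichotomy (2 * F.card) (2 ^ Fintype.card α) with h | h | h
  · obtain ⟨i, hi⟩ := half_dense F hF hd h
    have := hle i
    omega
  · right; exact h
  · by_cases hne : F = univ
    · left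
      rw [hne, Finset.card_univ, Fintype.card_finset]
    · obtain ⟨i, hi⟩ := above_half F hF hne h
      have := hle i
      omega

end fin

section general

variable {α : Type*} [DecidableEq α]

theorem dense_poonen (A : Finset (Finset α)) (huc : ∀ X ∈ A, ∀ Y ∈ A, X ∪ Y ∈ A)
    (hsep : ∀ x ∈ A.sup id, ∀ y ∈ A.sup id, x ≠ y →
      ∃ S ∈ A, (x ∈ S ∧ y ∉ S) ∨ (y ∈ S ∧ x ∉ S))
    (hne : A ≠ (A.sup id).powerset)
    (hd : 9 * 2 ^ (A.sup id).card ≤ 20 * A.card) :
    ∃ x ∈ A.sup id, A.card < 2 * (A.filter (fun S => x ∈ S)).card := by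
  obtain ⟨i, hi⟩ := dense_fin2 (tr A) (tr_union A huc) (tr_cover A)
    (fun x y hxy => tr_sep A hsep x y hxy) (fun h => hne (tr_eq_univ A h))
    (by rw [card_sub, tr_card]; exact hd)
  rw [tr_card, tr_filter_card] at hi
  exact ⟨i, i.2, hi⟩

theorem dense_frankl (A : Finset (Finset α)) (huc : ∀ X ∈ A, ∀ Y ∈ A, X ∪ Y ∈ A)
    (hne : (A.sup id).Nonempty)
    (hd : 9 * 2 ^ (A.sup id).card ≤ 20 * A.card) :
    ∃ x ∈ A.sup id, A.card ≤ 2 * (A.filter (fun S => x ∈ S)).card := by
  obtain ⟨x0, hx0⟩ := hne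
  have : Nonempty {x // x ∈ A.sup id} := ⟨⟨x0, hx0⟩⟩
  obtain ⟨i, hi⟩ := frankl_fin (tr A) (tr_union A huc) (tr_cover A)
    (by rw [card_sub, tr_card]; exact hd)
  rw [tr_card, tr_filter_card] at hi
  exact ⟨i, i.2, hi⟩

theorem dense_tight (A : Finset (Finset α)) (huc : ∀ X ∈ A, ∀ Y ∈ A, X ∪ Y ∈ A)
    (hd : 9 * 2 ^ (A.sup id).card ≤ 20 * A.card)
    (hle : ∀ i ∈ A.sup id, 2 * (A.filter (fun S => i ∈ S)).card ≤ A.card) :
    A.card = 2 ^ (A.sup id).card ∨ 2 * A.card = 2 ^ (A.sup id).card := by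
  have h := tight_fin (tr A) (tr_union A huc) (by rw [card_sub, tr_card]; exact hd)
    (by intro i; rw [tr_card, tr_filter_card]; exact hle i i.2)
  rwa [card_sub, tr_card] at h

end general

end Pool.Agent.H637R3.UC
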