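import Mathlib
import Pool.Agent.H637R3.UC.Fourth

set_option autoImplicit false
set_option linter.unusedSectionVars false
set_option linter.dupNamespace false

/-!
# The two to four inequality of Bonami and its consequence for influences
-/

namespace Pool.Agent.H637R3.UC

open Finset

variable {α : Type*} [Fintype α] [DecidableEq α]

/-- scaled Walsh polynomial supported on the subsets of `B` -/
noncomputable def wp (r : ℝ) (c : Finset α → ℝ) (B A : Finset α) : ℝ :=
  ∑ S ∈ B.powerset, r ^ S.card * c S * sg A S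

theorem wp_insert (r : ℝ) (c : Finset α → ℝ) (B A : Finset α) (b : α) (hb : b ∉ B) :
    wp r c (insert b B) A = wp r c B A + r * (sg1 A b * wp r (fun S => c (insert b S)) B A) := by
  unfold wp
  rw [Finset.sum_powerset_insert hb, Finset.mul_sum, Finset.mul_sum]
  congr 1
  refine Finset.sum_congr rfl (fun S hS => ?_)
  have hbS : b ∉ S := fun h => hb (Finset.mem_powerset.1 hS h)
  rw [Finset.card_insert_of_notMem hbS, sg_insert hbS]
  ring

theorem wp_insert_left (r : ℝ) (c : Finset α → ℝ) (B P : Finset α) (b : α) (hb : b ∉ B) :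
    wp r c B (insert b P) = wp r c B P := by
  unfold wp
  refine Finset.sum_congr rfl (fun S hS => ?_)
  have hbS : b ∉ S := fun h => hb (Finset.mem_powerset.1 hS h)
  rw [sg_insert_left_of_notMem hbS]

/-- Bonami's inequality -/
theorem bonami (r : ℝ) (hr : r ^ 2 = 1 / 3) (B : Finset α) : ∀ c : Finset α → ℝ,
    av (fun A => wp r c B A ^ 4) ≤ (∑ S ∈ B.powerset, c S ^ 2) ^ 2 := by
  induction B using Finset.induction_on with
  | empty =>
    intro c
    have h1 : ∀ A, wp r c ∅ A ^ 4 = c ∅ ^ 4 := by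
      intro A
      simp [wp, sg_empty]
    simp_rw [h1]
    rw [av_const]
    simp
    apply le_of_eq
    ring
  | insert b B hb ih =>
    intro c
    set G : Finset α → ℝ := fun A => wp r c B A with hG
    set H : Finset α → ℝ := fun A => wp r (fun S => c (insert b S)) B A with hH
    set g := ∑ S ∈ B.powerset, c S ^ 2 with hg
    set h := ∑ S ∈ B.powerset, c (insert b S) ^ 2 with hh
    have hg0 : 0 ≤ g := Finset.sum_nonneg (fun S _ => sq_nonneg _)
    have hh0 : 0 ≤ h := Finset.sum_nonneg (fun S _ => sq_nonneg _)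
    have iG : av (fun A => G A ^ 4) ≤ g ^ 2 := ih c
    have iH : av (fun A => H A ^ 4) ≤ h ^ 2 := ih (fun S => c (insert b S))
    have hexp : ∀ A, wp r c (insert b B) A ^ 4 = G A ^ 4 + (2 * (G A ^ 2 * H A ^ 2) +
        (1 / 9 * H A ^ 4 + ((4 * r) * (G A ^ 3 * H A * sg1 A b) +
          (4 * r ^ 3) * (G A * H A ^ 3 * sg1 A b)))) := by
      intro A
      rw [wp_insert r c B A b hb]
      have h1 := sg1_sq A b
      have h5 : sg1 A b ^ 3 = sg1 A b := by
        calc sg1 A b ^ 3 = sg1 A b ^ 2 * sg1 A b := by ring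
          _ = sg1 A b := by rw [h1]; ring
      have h6 : sg1 A b ^ 4 = 1 := by
        calc sg1 A b ^ 4 = (sg1 A b ^ 2) ^ 2 := by ring
          _ = 1 := by rw [h1]; ring
      have h7 : r ^ 4 = 1 / 9 := by
        calc r ^ 4 = (r ^ 2) ^ 2 := by ring
          _ = 1 / 9 := by rw [hr]; norm_num
      show (G A + r * (sg1 A b * H A)) ^ 4 = _
      have e1 : (G A + r * (sg1 A b * H A)) ^ 4 = G A ^ 4 + 4 * r * (G A ^ 3 * H A * sg1 A b) +
          6 * r ^ 2 * sg1 A b ^ 2 * (G A ^ 2 * H A ^ 2) + 4 * r ^ 3 * (G A * H A ^ 3 * sg1 A b ^ 3) +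
          r ^ 4 * sg1 A b ^ 4 * H A ^ 4 := by ring
      rw [e1, h1, h5, h6, h7, hr]
      ring
    simp_rw [hexp]
    rw [av_add, av_add, av_add, av_add, av_mul, av_mul, av_mul, av_mul]
    have z1 : av (fun A => G A ^ 3 * H A * sg1 A b) = 0 := by
      apply av_flip_zero b
      intro P hP
      simp only [hG, hH]
      rw [wp_insert_left r c B P b hb, wp_insert_left r _ B P b hb, sg1_insert_self b P hP]
      ring
    have z2 : av (fun A => G A * H A ^ 3 * sg1 A b) = 0 := by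
      apply av_flip_zero b
      intro P hP
      simp only [hG, hH]
      rw [wp_insert_left r c B P b hb, wp_insert_left r _ B P b hb, sg1_insert_self b P hP]
      ring
    rw [z1, z2]
    have hcs := av_cs (fun A => G A ^ 2) (fun A => H A ^ 2)
    have h6 : (fun A => (G A ^ 2) ^ 2) = fun A => G A ^ 4 := by
      funext A; rw [← pow_mul]
    have h7 : (fun A => (H A ^ 2) ^ 2) = fun A => H A ^ 4 := by
      funext A; rw [← pow_mul]
    rw [h6, h7] at hcs
    have hG4 : 0 ≤ av (fun A => G A ^ 4) := av_nonneg (fun A => by positivity)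
    have hH4 : 0 ≤ av (fun A => H A ^ 4) := av_nonneg (fun A => by positivity)
    have hmix : av (fun A => G A ^ 2 * H A ^ 2) ≤ g * h := by
      apply abs_le_of_sq_le_sq' _ (mul_nonneg hg0 hh0) |>.2
      calc av (fun A => G A ^ 2 * H A ^ 2) ^ 2 ≤ av (fun A => G A ^ 4) * av (fun A => H A ^ 4) := hcs
        _ ≤ g ^ 2 * h ^ 2 := mul_le_mul iG iH hH4 (sq_nonneg _)
        _ = (g * h) ^ 2 := by ring
    have hsum : ∑ S ∈ (insert b B).powerset, c S ^ 2 = g + h := by
      rw [Finset.sum_powerset_insert hb]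
    rw [hsum]
    nlinarith [sq_nonneg h]

/-- noisy weight of a function with values in `{-1, 0, 1}` -/
theorem noisy_small (g : Finset α → ℝ) (hg : ∀ A, g A ^ 3 = g A) :
    (∑ S, (1 / 3 : ℝ) ^ S.card * cf g S ^ 2) ^ 2 ≤ av (fun A => g A ^ 2) ^ 3 := by
  obtain ⟨r, hr0, hr⟩ : ∃ r : ℝ, 0 ≤ r ∧ r ^ 2 = 1 / 3 :=
    ⟨Real.sqrt (1 / 3), Real.sqrt_nonneg _, Real.sq_sqrt (by norm_num)⟩
  set L := ∑ S, (1 / 3 : ℝ) ^ S.card * cf g S ^ 2 with hL
  set v := av (fun A => g A ^ 2) with hv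
  set l : Finset α → ℝ := fun A => wp r (fun S => r ^ S.card * cf g S) univ A with hl
  have hLnn : 0 ≤ L := Finset.sum_nonneg (fun k _ => mul_nonneg (by positivity) (sq_nonneg _))
  have hvnn : 0 ≤ v := av_nonneg (fun A => sq_nonneg _)
  have hpow : ∀ m : ℕ, r ^ m * r ^ m = (1 / 3 : ℝ) ^ m := by
    intro m
    rw [← mul_pow, ← sq, hr]
  have h1 : av (fun A => g A * l A) = L := by
    have h2 : ∀ A, g A * l A = ∑ S, ((1 / 3 : ℝ) ^ S.card * cf g S) * (g A * sg A S) := by
      intro A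
      rw [hl]
      unfold wp
      rw [Finset.powerset_univ, Finset.mul_sum]
      refine Finset.sum_congr rfl (fun S _ => ?_)
      rw [← hpow S.card]
      ring
    simp_rw [h2]
    rw [av_sum]
    simp_rw [av_mul]
    rw [hL]
    refine Finset.sum_congr rfl (fun S _ => ?_)
    rw [← cf_eq]
    ring
  have h4 : av (fun A => l A ^ 4) ≤ L ^ 2 := by
    have h5 := bonami r hr (univ : Finset α) (fun S => r ^ S.card * cf g S)
    have h6 : ∑ S ∈ (univ : Finset α).powerset, (r ^ S.card * cf g S) ^ 2 = L := by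
      rw [hL, Finset.powerset_univ]
      refine Finset.sum_congr rfl (fun S _ => ?_)
      rw [← hpow S.card]
      ring
    rw [h6] at h5
    exact h5
  have hg4 : ∀ A, g A ^ 4 = g A ^ 2 := by
    intro A
    calc g A ^ 4 = g A ^ 3 * g A := by ring
      _ = g A ^ 2 := by rw [hg]; ring
  have c1 : L ^ 2 ≤ v * av (fun A => g A ^ 2 * l A ^ 2) := by
    have h5 := av_cs g (fun A => g A ^ 2 * l A)
    have h6 : (fun A => g A * (g A ^ 2 * l A)) = fun A => g A * l A := by
      funext A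
      calc g A * (g A ^ 2 * l A) = g A ^ 3 * l A := by ring
        _ = g A * l A := by rw [hg]
    have h7 : (fun A => (g A ^ 2 * l A) ^ 2) = fun A => g A ^ 2 * l A ^ 2 := by
      funext A
      calc (g A ^ 2 * l A) ^ 2 = g A ^ 4 * l A ^ 2 := by ring
        _ = g A ^ 2 * l A ^ 2 := by rw [hg4]
    rw [h6, h7, h1] at h5
    exact h5
  have c2 : av (fun A => g A ^ 2 * l A ^ 2) ^ 2 ≤ v * L ^ 2 := by
    have h5 := av_cs (fun A => g A ^ 2) (fun A => l A ^ 2)
    have h6 : (fun A => (g A ^ 2) ^ 2) = fun A => g A ^ 2 := by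
      funext A
      rw [← pow_mul]
      exact hg4 A
    have h7 : (fun A => (l A ^ 2) ^ 2) = fun A => l A ^ 4 := by
      funext A
      rw [← pow_mul]
    rw [h6, h7] at h5
    exact h5.trans (mul_le_mul_of_nonneg_left h4 hvnn)
  rcases hLnn.eq_or_lt with h0 | hpos
  · rw [← h0]
    have := pow_nonneg hvnn 3
    linarith
  · have hW : 0 ≤ av (fun A => g A ^ 2 * l A ^ 2) :=
      av_nonneg (fun A => mul_nonneg (sq_nonneg _) (sq_nonneg _))
    have c3 : L ^ 2 * L ^ 2 ≤ v ^ 3 * L ^ 2 := by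
      calc L ^ 2 * L ^ 2 ≤ (v * av (fun A => g A ^ 2 * l A ^ 2)) *
            (v * av (fun A => g A ^ 2 * l A ^ 2)) :=
            mul_le_mul c1 c1 (sq_nonneg _) (mul_nonneg hvnn hW)
        _ = v ^ 2 * av (fun A => g A ^ 2 * l A ^ 2) ^ 2 := by ring
        _ ≤ v ^ 2 * (v * L ^ 2) := mul_le_mul_of_nonneg_left c2 (sq_nonneg _)
        _ = v ^ 3 * L ^ 2 := by ring
    have hL2 : 0 < L ^ 2 := by positivity
    exact le_of_mul_le_mul_right c3 hL2

/-- If all influences are at most `s ^ 2`, the noisy energy is at most `s` times the energy. -/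
theorem kkl_upper (f : Finset α → ℝ) (hf : ∀ i A, dd i f A ^ 3 = dd i f A) (s : ℝ) (hs : 0 ≤ s)
    (h : ∀ i, av (fun A => dd i f A ^ 2) ≤ s ^ 2) :
    ∑ S : Finset α, (S.card : ℝ) * (12 * ((1 / 3 : ℝ) ^ S.card * cf f S ^ 2)) ≤
      s * ∑ i, av (fun A => dd i f A ^ 2) := by
  have h1 : ∀ i, ∑ S, (1 / 3 : ℝ) ^ S.card * cf (dd i f) S ^ 2 ≤
      s * av (fun A => dd i f A ^ 2) := by
    intro i
    have h2 := noisy_small (dd i f) (hf i)
    have h3 : 0 ≤ av (fun A => dd i f A ^ 2) := av_nonneg (fun A => sq_nonneg _)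
    apply abs_le_of_sq_le_sq' _ (mul_nonneg hs h3) |>.2
    calc (∑ S, (1 / 3 : ℝ) ^ S.card * cf (dd i f) S ^ 2) ^ 2
        ≤ av (fun A => dd i f A ^ 2) ^ 3 := h2
      _ = av (fun A => dd i f A ^ 2) * av (fun A => dd i f A ^ 2) ^ 2 := by ring
      _ ≤ s ^ 2 * av (fun A => dd i f A ^ 2) ^ 2 :=
          mul_le_mul_of_nonneg_right (h i) (sq_nonneg _)
      _ = (s * av (fun A => dd i f A ^ 2)) ^ 2 := by ring
  have h2 : ∀ i, ∑ S, (1 / 3 : ℝ) ^ S.card * cf (dd i f) S ^ 2 =
      ∑ S : Finset α, (if i ∈ S then 12 * ((1 / 3 : ℝ) ^ S.card * cf f S ^ 2) else 0) := by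
    intro i
    rw [← sum_insert_eq (fun S => 12 * ((1 / 3 : ℝ) ^ S.card * cf f S ^ 2)) i]
    refine Finset.sum_congr rfl (fun S _ => ?_)
    rw [cf_dd]
    by_cases h : i ∈ S
    · simp [h]
    · rw [if_neg h, if_neg h, Finset.card_insert_of_notMem h, pow_succ]
      ring
  have h3 : ∑ S : Finset α, (S.card : ℝ) * (12 * ((1 / 3 : ℝ) ^ S.card * cf f S ^ 2)) =
      ∑ i, ∑ S, (1 / 3 : ℝ) ^ S.card * cf (dd i f) S ^ 2 := by
    simp_rw [h2]
    rw [Finset.sum_comm]
    refine Finset.sum_congr rfl (fun S _ => ?_)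
    rw [Finset.sum_ite_mem]
    simp
  rw [h3, Finset.mul_sum]
  exact Finset.sum_le_sum (fun i _ => h1 i)

/-- lower bound for the noisy energy -/
theorem kkl_lower (f : Finset α → ℝ) (D : ℝ)
    (hD : ∑ S : Finset α, (S.card : ℝ) * cf f S ^ 2 ≤ D * (av (fun A => f A ^ 2) - av f ^ 2)) :
    12 * (Real.exp (-(Real.log 3 * D)) * (av (fun A => f A ^ 2) - av f ^ 2)) ≤
      ∑ S : Finset α, (S.card : ℝ) * (12 * ((1 / 3 : ℝ) ^ S.card * cf f S ^ 2)) := by
  have hlog : 0 < Real.log 3 := Real.log_pos (by norm_num)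
  have hpow : ∀ m : ℕ, (1 / 3 : ℝ) ^ m = Real.exp (-(Real.log 3 * m)) := by
    intro m
    rw [Real.exp_neg, mul_comm, Real.exp_nat_mul, Real.exp_log (by norm_num), one_div, inv_pow]
  have hE : 0 < Real.exp (-(Real.log 3 * D)) := Real.exp_pos _
  -- termwise tangent inequality
  have ht : ∀ S : Finset α, S ≠ ∅ → 12 * (Real.exp (-(Real.log 3 * D)) *
      (1 - Real.log 3 * (S.card - D)) * cf f S ^ 2) ≤
      (S.card : ℝ) * (12 * ((1 / 3 : ℝ) ^ S.card * cf f S ^ 2)) := by
    intro S hS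
    have h1 : (1 : ℝ) ≤ S.card := by
      exact_mod_cast Finset.card_pos.2 (Finset.nonempty_iff_ne_empty.2 hS)
    have h2 : Real.exp (-(Real.log 3 * D)) * (1 - Real.log 3 * (S.card - D)) ≤
        (1 / 3 : ℝ) ^ S.card := by
      rw [hpow]
      have h3 : -(Real.log 3 * (S.card : ℝ)) = -(Real.log 3 * D) + -(Real.log 3 * (S.card - D)) := by
        ring
      rw [h3, Real.exp_add]
      apply mul_le_mul_of_nonneg_left _ hE.le
      have := Real.add_one_le_exp (-(Real.log 3 * (S.card - D)))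
      linarith
    have h4 : 0 ≤ (1 / 3 : ℝ) ^ S.card * cf f S ^ 2 := by positivity
    have h5 := mul_le_mul_of_nonneg_right h2 (sq_nonneg (cf f S))
    nlinarith
  have hsum : ∑ S : Finset α, (if S = ∅ then 0 else 12 * (Real.exp (-(Real.log 3 * D)) *
      (1 - Real.log 3 * (S.card - D)) * cf f S ^ 2)) ≤
      ∑ S : Finset α, (S.card : ℝ) * (12 * ((1 / 3 : ℝ) ^ S.card * cf f S ^ 2)) := by
    refine Finset.sum_le_sum (fun S _ => ?_)
    split_ifs with h
    · subst h; simp
    · exact ht S h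
  refine le_trans ?_ hsum
  have heq : ∑ S : Finset α, (if S = ∅ then 0 else 12 * (Real.exp (-(Real.log 3 * D)) *
      (1 - Real.log 3 * (S.card - D)) * cf f S ^ 2)) =
      12 * Real.exp (-(Real.log 3 * D)) * ((1 + Real.log 3 * D) *
        (av (fun A => f A ^ 2) - av f ^ 2) -
        Real.log 3 * ∑ S : Finset α, (S.card : ℝ) * cf f S ^ 2) := by
    rw [← cf_parseval, ← cf_empty_sum, ← Finset.sum_sub_distrib, Finset.mul_sum, Finset.mul_sum,
      ← Finset.sum_sub_distrib, Finset.mul_sum]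
    refine Finset.sum_congr rfl (fun S _ => ?_)
    by_cases h : S = ∅
    · subst h; simp
    · rw [if_neg h, if_neg h]
      ring
  rw [heq]
  have h1 := mul_le_mul_of_nonneg_left hD hlog.le
  have h2 : 12 * (Real.exp (-(Real.log 3 * D)) * (av (fun A => f A ^ 2) - av f ^ 2)) =
      12 * Real.exp (-(Real.log 3 * D)) * (av (fun A => f A ^ 2) - av f ^ 2) := by ring
  rw [h2]
  apply mul_le_mul_of_nonneg_left _ (by positivity)
  linarith

end Pool.Agent.H637R3.UC
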