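import Mathlib
import Pool.Agent.H637R3.UC.Below
import Pool.Agent.H637R3.UC.Bonami
import Pool.Agent.H616R3.Reimer

set_option autoImplicit false
set_option linter.unusedSectionVars false
set_option linter.dupNamespace false

/-!
# Up-compression: influences, sizes and the entropy bound
-/

namespace Pool.Agent.H637R3.UC

open Finset

variable {α : Type*} [Fintype α] [DecidableEq α]

theorem ind_fstep_insert (i : α) (F : Finset (Finset α)) (A : Finset α) (hA : i ∉ A) :
    ind (H616R3.fstep i F) (insert i A) = max (ind F A) (ind F (insert i A)) := by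
  have h1 : insert i A ∈ H616R3.fstep i F ↔ (A ∈ F ∨ insert i A ∈ F) := by
    rw [H616R3.mem_fstep]
    constructor
    · rintro (⟨_, B, hB, h⟩ | ⟨h, _, _⟩)
      · by_cases hi : i ∈ B
        · rw [Finset.insert_eq_of_mem hi] at h
          right; rwa [← h]
        · left
          have h2 := congrArg (fun s => Finset.erase s i) h
          simp only [Finset.erase_insert hi, Finset.erase_insert hA] at h2
          rwa [← h2]
      · exact (h (Finset.mem_insert_self i A)).elim
    · rintro (h | h)
      · left; exact ⟨Finset.mem_insert_self i A, A, h, rfl⟩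
      · left; exact ⟨Finset.mem_insert_self i A, insert i A, h, by simp⟩
  unfold ind
  by_cases h2 : A ∈ F <;> by_cases h3 : insert i A ∈ F <;> simp [h1, h2, h3]

theorem ind_fstep_self (i : α) (F : Finset (Finset α)) (A : Finset α) (hA : i ∉ A) :
    ind (H616R3.fstep i F) A = min (ind F A) (ind F (insert i A)) := by
  have h1 : A ∈ H616R3.fstep i F ↔ (A ∈ F ∧ insert i A ∈ F) := by
    rw [H616R3.mem_fstep]
    constructor
    · rintro (⟨h, _⟩ | ⟨_, h⟩)
      · exact (hA h).elim
      · exact h
    · intro h
      right; exact ⟨hA, h⟩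
  unfold ind
  by_cases h2 : A ∈ F <;> by_cases h3 : insert i A ∈ F <;> simp [h1, h2, h3]

theorem rearr (x y z w : ℝ) :
    (min x y - min z w) ^ 2 + (max x y - max z w) ^ 2 ≤ (x - z) ^ 2 + (y - w) ^ 2 := by
  rcases le_total x y with h1 | h1 <;> rcases le_total z w with h2 | h2
  · rw [min_eq_left h1, max_eq_right h1, min_eq_left h2, max_eq_right h2]
  · rw [min_eq_left h1, max_eq_right h1, min_eq_right h2, max_eq_left h2]
    nlinarith [mul_nonneg (sub_nonneg.2 h1) (sub_nonneg.2 h2)]
  · rw [min_eq_right h1, max_eq_left h1, min_eq_left h2, max_eq_right h2]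
    nlinarith [mul_nonneg (sub_nonneg.2 h1) (sub_nonneg.2 h2)]
  · rw [min_eq_right h1, max_eq_left h1, min_eq_right h2, max_eq_left h2]
    linarith

/-- compressions do not increase influences -/
theorem infl_fstep (i j : α) (F : Finset (Finset α)) :
    av (fun A => dd j (ind (H616R3.fstep i F)) A ^ 2) ≤ av (fun A => dd j (ind F) A ^ 2) := by
  unfold av
  apply div_le_div_of_nonneg_right _ npos.le
  rw [split_sum _ i, split_sum (fun A => dd j (ind F) A ^ 2) i]
  refine Finset.sum_le_sum (fun P hP => ?_)
  simp at hP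
  unfold dd lo hi
  by_cases hij : j = i
  · subst hij
    rw [Finset.erase_insert hP, Finset.erase_eq_of_notMem hP, Finset.insert_idem,
      ind_fstep_insert j F P hP, ind_fstep_self j F P hP]
    have h1 := rearr (ind F P) (ind F (insert j P)) (ind F (insert j P)) (ind F P)
    rcases le_total (ind F P) (ind F (insert j P)) with h2 | h2
    · rw [min_eq_left h2, max_eq_right h2]
    · rw [min_eq_right h2, max_eq_left h2]
      apply le_of_eq; ring
  · have e1 : (insert i P).erase j = insert i (P.erase j) := by
      rw [Finset.erase_insert_of_ne (fun h => hij h.symm)]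
    have e2 : insert j (insert i P) = insert i (insert j P) := Finset.insert_comm j i P
    have n1 : i ∉ P.erase j := fun h => hP (Finset.mem_of_mem_erase h)
    have n2 : i ∉ insert j P := by
      rw [Finset.mem_insert]
      rintro (h | h)
      · exact hij h.symm
      · exact hP h
    rw [e1, e2, ind_fstep_insert i F _ n1, ind_fstep_insert i F _ n2, ind_fstep_self i F _ n1,
      ind_fstep_self i F _ n2]
    exact rearr _ _ _ _

theorem infl_cfam (l : List α) (j : α) (F : Finset (Finset α)) :
    av (fun A => dd j (ind (H616R3.cfam l F)) A ^ 2) ≤ av (fun A => dd j (ind F) A ^ 2) := by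
  induction l generalizing F with
  | nil => exact le_rfl
  | cons i l ih => exact (ih (H616R3.fstep i F)).trans (infl_fstep i j F)

/-- the sum of the biases in terms of sizes -/
theorem sw_sizes (F : Finset (Finset α)) :
    2 ^ Fintype.card α * sw F = ∑ S ∈ F, ((Fintype.card α : ℝ) - 2 * S.card) := by
  unfold sw
  have hN : (2 : ℝ) ^ Fintype.card α ≠ 0 := npos.ne'
  rw [Finset.mul_sum]
  have h1 : ∀ i : α, (2 : ℝ) ^ Fintype.card α * cf (ind F) {i} =
      ∑ S ∈ F, ((1 : ℝ) - 2 * (if i ∈ S then 1 else 0)) := by
    intro i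
    rw [cf_single, mul_div_cancel₀ _ hN, bias_eq, Finset.card_filter, Finset.card_filter]
    push_cast
    rw [← Finset.sum_sub_distrib]
    refine Finset.sum_congr rfl (fun S _ => ?_)
    by_cases h : i ∈ S <;> simp [h]
    norm_num
  simp_rw [h1]
  rw [Finset.sum_comm]
  refine Finset.sum_congr rfl (fun S _ => ?_)
  rw [Finset.sum_sub_distrib, ← Finset.mul_sum]
  simp

theorem cfam_card (l : List α) (F : Finset (Finset α)) : (H616R3.cfam l F).card = F.card := by
  rw [H616R3.cfam_eq]
  exact Finset.card_image_of_injOn (H616R3.cmap_injOn l F)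

theorem sw_cfam (l : List α) (F : Finset (Finset α)) :
    2 ^ Fintype.card α * sw F = 2 ^ Fintype.card α * sw (H616R3.cfam l F) +
      2 * ∑ S ∈ F, (((H616R3.cmap l F S).card : ℝ) - S.card) := by
  rw [sw_sizes, sw_sizes, H616R3.cfam_eq, Finset.sum_image (H616R3.cmap_injOn l F),
    Finset.mul_sum, ← Finset.sum_add_distrib]
  refine Finset.sum_congr rfl (fun S _ => by ring)

/-- the intervals are disjoint -/
theorem interval_total (l : List α) (F : Finset (Finset α)) (hF : UC F) :
    ∑ S ∈ F, (2 : ℝ) ^ ((H616R3.cmap l F S).card - S.card) ≤ 2 ^ Fintype.card α := by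
  have h1 : ∀ S ∈ F, 2 ^ ((H616R3.cmap l F S).card - S.card) =
      (Icc S (H616R3.cmap l F S)).card := by
    intro S _
    rw [card_Icc_finset (H616R3.subset_cmap _ _ _)]
  have h2 : ∑ S ∈ F, 2 ^ ((H616R3.cmap l F S).card - S.card) ≤ 2 ^ Fintype.card α := by
    rw [sum_congr rfl h1, ← card_biUnion]
    · have := Finset.card_le_univ (F.biUnion (fun S => Icc S (H616R3.cmap l F S)))
      rwa [Fintype.card_finset] at this
    · intro A hA B hB hAB
      rw [Function.onFun, disjoint_left]
      intro C hC hC'
      rw [mem_Icc] at hC hC'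
      exact hAB (H616R3.interval_disjoint _ F hF A B C hA hB hC.1 hC.2 hC'.1 hC'.2)
  exact_mod_cast h2

/-- the entropy bound of Reimer -/
theorem size_gain (l : List α) (F : Finset (Finset α)) (hF : UC F) (hne : F.Nonempty) :
    Real.log 2 * ∑ S ∈ F, (((H616R3.cmap l F S).card : ℝ) - S.card) ≤
      F.card * Real.log (1 / av (ind F)) := by
  have hc : (0 : ℝ) < F.card := by exact_mod_cast Finset.card_pos.2 hne
  have hN : (0 : ℝ) < 2 ^ Fintype.card α := npos
  have ha : 0 < av (ind F) := by rw [av_ind]; positivity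
  have h1 : ∀ S ∈ F, Real.log 2 * (((H616R3.cmap l F S).card : ℝ) - S.card) ≤
      Real.log (1 / av (ind F)) +
        ((2 : ℝ) ^ ((H616R3.cmap l F S).card - S.card) * av (ind F) - 1) := by
    intro S _
    have h2 : ((H616R3.cmap l F S).card : ℝ) - S.card =
        (((H616R3.cmap l F S).card - S.card : ℕ) : ℝ) := by
      rw [Nat.cast_sub (Finset.card_le_card (H616R3.subset_cmap _ _ _))]
    rw [h2]
    set x := (H616R3.cmap l F S).card - S.card with hx
    have h3 : Real.log 2 * (x : ℝ) = Real.log ((2 : ℝ) ^ x) := by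
      rw [Real.log_pow]; ring
    have h4 : Real.log ((2 : ℝ) ^ x) = Real.log (1 / av (ind F)) +
        Real.log ((2 : ℝ) ^ x * av (ind F)) := by
      rw [← Real.log_mul (by positivity) (by positivity)]
      congr 1
      field_simp
    rw [h3, h4]
    have h5 := Real.log_le_sub_one_of_pos (show 0 < (2 : ℝ) ^ x * av (ind F) by positivity)
    linarith
  rw [Finset.mul_sum]
  refine (Finset.sum_le_sum h1).trans ?_
  rw [Finset.sum_add_distrib, Finset.sum_const, nsmul_eq_mul, Finset.sum_sub_distrib,
    ← Finset.sum_mul, Finset.sum_const, nsmul_eq_mul, mul_one]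
  have h2 := interval_total l F hF
  have h3 := mul_le_mul_of_nonneg_right h2 ha.le
  have h4 : (2 : ℝ) ^ Fintype.card α * av (ind F) = F.card := by
    rw [av_ind]; field_simp
  linarith

theorem ub_up (K : Finset (Finset α)) (h : ∀ j, H616R3.Up j K) : ub K = 0 := by
  unfold ub
  rw [div_eq_zero_iff]
  left
  refine Finset.sum_eq_zero (fun i _ => ?_)
  unfold upb
  refine Finset.sum_eq_zero (fun P _ => ?_)
  unfold ind
  by_cases h1 : P ∈ K
  · have h2 := h i P h1
    simp [h1, h2]
  · simp [h1]

/-- If the sum of biases of a union-closed family is nonnegative, its full up-compression has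
small total influence. -/
theorem compressed_energy (F : Finset (Finset α)) (hF : UC F) (hne : F.Nonempty)
    (hs : 0 ≤ sw F) :
    Real.log 2 * ∑ i, av (fun A => dd i (ind (H616R3.cfam univ.toList F)) A ^ 2) ≤
      4 * (av (ind F) * Real.log (1 / av (ind F))) := by
  have hN : (0 : ℝ) < 2 ^ Fintype.card α := npos
  set K := H616R3.cfam univ.toList F with hK
  have hup : ∀ j, H616R3.Up j K := fun j => H616R3.up_cfam _ F j (by simp)
  have h1 := sw_eq K
  rw [ub_up K hup] at h1
  have h2 := sw_cfam univ.toList F
  rw [← hK] at h2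
  have h3 := size_gain univ.toList F hF hne
  have hlog : 0 < Real.log 2 := Real.log_pos (by norm_num)
  have h4 : (F.card : ℝ) = 2 ^ Fintype.card α * av (ind F) := by
    rw [av_ind]; field_simp
  rw [h4] at h3
  have h5 : 0 ≤ 2 ^ Fintype.card α * sw F := mul_nonneg hN.le hs
  have h6 : 2 ^ Fintype.card α * (Real.log 2 * (-(sw K))) ≤
      2 ^ Fintype.card α * (2 * (av (ind F) * Real.log (1 / av (ind F)))) := by
    have h7 := mul_nonneg hlog.le h5
    rw [h2] at h7
    nlinarith
  have h7 := le_of_mul_le_mul_left h6 hN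
  rw [h1]
  linarith

end Pool.Agent.H637R3.UC
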