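import Mathlib
import Pool.Agent.H637R3.UC.Compress
import Pool.Agent.H637R3.UC.Assemble

set_option autoImplicit false
set_option linter.unusedSectionVars false
set_option linter.dupNamespace false

/-!
# Union-closed families without influential elements
-/

namespace Pool.Agent.H637R3.UC

open Finset

variable {α : Type*} [Fintype α] [DecidableEq α]

/-- numerical inequality -/
theorem num_aux (l : ℝ) (hl : 0 < l) (h : 2 * Real.exp ((2 * Real.log 2 - Real.log 3) * l) ^ 2 ≤ l ^ 2) :
    False := by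
  have hc : 2 / 7 ≤ 2 * Real.log 2 - Real.log 3 := by
    have h1 : 2 * Real.log 2 - Real.log 3 = Real.log (4 / 3) := by
      rw [Real.log_div (by norm_num) (by norm_num)]
      have : Real.log 4 = 2 * Real.log 2 := by
        rw [show (4 : ℝ) = 2 ^ 2 by norm_num, Real.log_pow]
        norm_num
      rw [this]
    rw [h1]
    have h2 : (2 : ℝ) ≤ 7 * Real.log (4 / 3) := by
      have h3 : 7 * Real.log (4 / 3) = Real.log ((4 / 3) ^ 7) := by
        rw [Real.log_pow]; norm_num
      rw [h3, Real.le_log_iff_exp_le (by norm_num)]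
      have h4 : Real.exp 2 = Real.exp 1 * Real.exp 1 := by
        rw [← Real.exp_add]; norm_num
      have h5 := Real.exp_one_lt_d9
      have h6 := Real.exp_pos 1
      rw [h4]
      nlinarith
    linarith
  have h1 := Real.add_one_le_exp ((2 * Real.log 2 - Real.log 3) * l - 1)
  have h2 : Real.exp ((2 * Real.log 2 - Real.log 3) * l) =
      Real.exp 1 * Real.exp ((2 * Real.log 2 - Real.log 3) * l - 1) := by
    rw [← Real.exp_add]; congr 1; ring
  have h3 := Real.exp_one_gt_d9
  have h4 : 2 / 7 * l ≤ Real.exp ((2 * Real.log 2 - Real.log 3) * l - 1) := by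
    have := mul_le_mul_of_nonneg_right hc hl.le
    linarith
  have h5 : 77 / 100 * l ≤ Real.exp ((2 * Real.log 2 - Real.log 3) * l) := by
    rw [h2]
    have h6 : (2.7 : ℝ) * (2 / 7 * l) ≤
        Real.exp 1 * Real.exp ((2 * Real.log 2 - Real.log 3) * l - 1) :=
      mul_le_mul (by linarith) h4 (by positivity) (by positivity)
    linarith
  have h6 : (77 / 100 * l) ^ 2 ≤ Real.exp ((2 * Real.log 2 - Real.log 3) * l) ^ 2 :=
    pow_le_pow_left₀ (by positivity) h5 2
  nlinarith [sq_nonneg l, mul_pos hl hl]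

/-- A union-closed family of density at most one half, all of whose influences are small, has
a negative sum of biases. -/
theorem small_core (F : Finset (Finset α)) (hF : UC F) (hne : F.Nonempty)
    (ha : av (ind F) ≤ 1 / 2)
    (h : ∀ i, av (fun A => dd i (ind F) A ^ 2) ≤ av (ind F) ^ 4 / 8) : sw F < 0 := by
  by_contra hcon
  push Not at hcon
  have hN : (0 : ℝ) < 2 ^ Fintype.card α := npos
  have hc : (0 : ℝ) < F.card := by exact_mod_cast Finset.card_pos.2 hne
  have ha0 : 0 < av (ind F) := by rw [av_ind]; positivity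
  have hE := compressed_energy F hF hne hcon
  set K := H616R3.cfam univ.toList F with hK
  have hav : av (ind K) = av (ind F) := by
    rw [av_ind, av_ind, hK, cfam_card]
  have hinf : ∀ i, av (fun A => dd i (ind K) A ^ 2) ≤ av (ind F) ^ 4 / 8 :=
    fun i => (infl_cfam _ i F).trans (h i)
  set a := av (ind F) with haa
  have hlog2 : 0 < Real.log 2 := Real.log_pos (by norm_num)
  have hlog2' : 1 / 2 < Real.log 2 := by
    have := Real.log_two_gt_d9
    linarith
  obtain ⟨l, hl⟩ : ∃ l : ℝ, l = Real.log (1 / a) / Real.log 2 := ⟨_, rfl⟩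
  have hl2 : Real.log 2 * l = Real.log (1 / a) := by
    rw [hl]; field_simp
  have hlog1 : Real.log (1 / a) = - Real.log a := by
    rw [one_div, Real.log_inv]
  have hl1 : 1 ≤ l := by
    rw [hl, le_div_iff₀ hlog2, one_mul]
    apply Real.log_le_log (by norm_num)
    rw [le_div_iff₀ ha0]
    linarith
  have hal : a = Real.exp (-(Real.log 2 * l)) := by
    rw [hl2, hlog1, neg_neg, Real.exp_log ha0]
  -- energy of the compressed family
  have hI : ∑ i, av (fun A => dd i (ind K) A ^ 2) ≤ 4 * (a * l) := by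
    have h1 : Real.log 2 * ∑ i, av (fun A => dd i (ind K) A ^ 2) ≤ Real.log 2 * (4 * (a * l)) := by
      calc Real.log 2 * ∑ i, av (fun A => dd i (ind K) A ^ 2) ≤ 4 * (a * Real.log (1 / a)) := hE
        _ = Real.log 2 * (4 * (a * l)) := by rw [← hl2]; ring
    exact le_of_mul_le_mul_left h1 hlog2
  have hdeg : ∑ S : Finset α, (S.card : ℝ) * cf (ind K) S ^ 2 ≤ a * l := by
    rw [sum_dd_sq] at hI
    have h1 : ∑ S : Finset α, 4 * (S.card : ℝ) * cf (ind K) S ^ 2 =
        4 * ∑ S : Finset α, (S.card : ℝ) * cf (ind K) S ^ 2 := by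
      rw [Finset.mul_sum]
      exact Finset.sum_congr rfl (fun S _ => by ring)
    rw [h1] at hI
    linarith
  have hV : av (fun A => ind K A ^ 2) - av (ind K) ^ 2 = a * (1 - a) := by
    rw [av_ind_sq, hav]; ring
  -- a (l + 1) ≤ 1
  have hal1 : a * (l + 1) ≤ 1 := by
    have h1 : Real.log (1 / a) ≤ Real.log 2 + (1 / (2 * a) - 1) := by
      have h2 : Real.log (1 / a) = Real.log 2 + Real.log (1 / (2 * a)) := by
        rw [← Real.log_mul (by norm_num) (by positivity)]
        congr 1
        field_simp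
      have h3 := Real.log_le_sub_one_of_pos (show 0 < 1 / (2 * a) by positivity)
      linarith
    have h2 : a * Real.log (1 / a) ≤ a * Real.log 2 + (1 / 2 - a) := by
      have h3 := mul_le_mul_of_nonneg_left h1 ha0.le
      have h4 : a * (Real.log 2 + (1 / (2 * a) - 1)) = a * Real.log 2 + (1 / 2 - a) := by
        field_simp
      linarith
    rw [← hl2] at h2
    have h3 : Real.log 2 * (a * (l + 1)) ≤ Real.log 2 * 1 := by
      nlinarith
    exact le_of_mul_le_mul_left h3 hlog2
  have hD : ∑ S : Finset α, (S.card : ℝ) * cf (ind K) S ^ 2 ≤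
      (l + 1) * (av (fun A => ind K A ^ 2) - av (ind K) ^ 2) := by
    rw [hV]
    refine hdeg.trans ?_
    nlinarith
  have hlower := kkl_lower (ind K) (l + 1) hD
  have hs : Real.sqrt (a ^ 4 / 8) ^ 2 = a ^ 4 / 8 := Real.sq_sqrt (by positivity)
  have hs0 : 0 ≤ Real.sqrt (a ^ 4 / 8) := Real.sqrt_nonneg _
  have hupper := kkl_upper (ind K) (fun i A => dd_cube i K A) (Real.sqrt (a ^ 4 / 8)) hs0
    (fun i => by rw [hs]; exact hinf i)
  rw [hV] at hlower
  set s := Real.sqrt (a ^ 4 / 8) with hsdef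
  have h1 : 12 * (Real.exp (-(Real.log 3 * (l + 1))) * (a * (1 - a))) ≤ s * (4 * (a * l)) :=
    (hlower.trans hupper).trans (mul_le_mul_of_nonneg_left hI hs0)
  have h2 : Real.exp (-(Real.log 3 * (l + 1))) = Real.exp (-(Real.log 3 * l)) / 3 := by
    have : -(Real.log 3 * (l + 1)) = -(Real.log 3 * l) + -(Real.log 3) := by ring
    rw [this, Real.exp_add, Real.exp_neg (Real.log 3), Real.exp_log (by norm_num)]
    ring
  have h3 : Real.exp (-(Real.log 3 * l)) = a ^ 2 * Real.exp ((2 * Real.log 2 - Real.log 3) * l) := by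
    rw [hal, ← Real.exp_nat_mul, ← Real.exp_add]
    congr 1
    push_cast
    ring
  set y := Real.exp ((2 * Real.log 2 - Real.log 3) * l) with hy
  have hy0 : 0 < y := Real.exp_pos _
  rw [h2, h3] at h1
  have h4 : a * (a ^ 2 * y * (1 - a)) ≤ a * (s * l) := by nlinarith
  have h5 : a ^ 2 * y * (1 - a) ≤ s * l := le_of_mul_le_mul_left h4 ha0
  have h6 : a ^ 2 * y * (1 / 2) ≤ s * l := by
    refine le_trans ?_ h5
    apply mul_le_mul_of_nonneg_left _ (by positivity)
    linarith
  have h7 : (a ^ 2 * y * (1 / 2)) ^ 2 ≤ (s * l) ^ 2 := pow_le_pow_left₀ (by positivity) h6 2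
  have h8 : a ^ 4 * (2 * y ^ 2) ≤ a ^ 4 * l ^ 2 := by
    have h9 : (s * l) ^ 2 = a ^ 4 / 8 * l ^ 2 := by rw [mul_pow, hs]
    rw [h9] at h7
    nlinarith
  have h9 : 2 * y ^ 2 ≤ l ^ 2 := le_of_mul_le_mul_left h8 (by positivity)
  exact num_aux l (by linarith) h9

theorem exists_of_sw_neg (F : Finset (Finset α)) (h : sw F < 0) :
    ∃ i : α, F.card < 2 * (F.filter (fun S => i ∈ S)).card := by
  by_contra hcon
  push Not at hcon
  have h1 : 0 ≤ sw F := Finset.sum_nonneg (fun i _ => cf_nonneg_of F i (hcon i))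
  linarith

/-- symmetries preserve influences -/
theorem infl_perm (F : Finset (Finset α)) (σ : Equiv.Perm α)
    (hσ : F.image (fun S => S.image σ) = F) (i : α) :
    av (fun A => dd (σ i) (ind F) A ^ 2) = av (fun A => dd i (ind F) A ^ 2) := by
  have hmem : ∀ S : Finset α, S.map σ.toEmbedding ∈ F ↔ S ∈ F := by
    intro S
    have hS : S.map σ.toEmbedding = S.image σ := by
      rw [Finset.map_eq_image]; rfl
    rw [hS]
    constructor
    · intro h
      rw [← hσ, Finset.mem_image] at h
      obtain ⟨T, hT, hTS⟩ := h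
      rwa [← Finset.image_injective σ.injective hTS]
    · intro h
      rw [← hσ]
      exact Finset.mem_image_of_mem _ h
  have hind : ∀ S : Finset α, ind F (S.map σ.toEmbedding) = ind F S := by
    intro S
    unfold ind
    simp only [hmem]
  unfold av
  congr 1
  rw [← Equiv.sum_comp (Equiv.finsetCongr σ)]
  refine Finset.sum_congr rfl (fun A _ => ?_)
  have e1 : (A.map σ.toEmbedding).erase (σ i) = (A.erase i).map σ.toEmbedding := by
    rw [Finset.map_erase]; rfl
  have e2 : insert (σ i) (A.map σ.toEmbedding) = (insert i A).map σ.toEmbedding := by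
    rw [Finset.map_insert]; rfl
  show (ind F ((A.map σ.toEmbedding).erase (σ i)) - ind F (insert (σ i) (A.map σ.toEmbedding))) ^ 2
    = (ind F (A.erase i) - ind F (insert i A)) ^ 2
  rw [e1, e2, hind, hind]

/-- total influence of a family with nonnegative sum of biases -/
theorem total_le_two (F : Finset (Finset α)) (hF : UC F) (hs : 0 ≤ sw F) :
    ∑ i, av (fun A => dd i (ind F) A ^ 2) ≤ 2 := by
  rw [sw_eq]
  have h1 : ub F ≤ 1 / 2 := by
    unfold ub
    rw [div_le_iff₀ npos]
    linarith [upb_sum_half F hF]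
  linarith

/-- Families whose symmetry group has only large orbits. -/
theorem orbit_fin (F : Finset (Finset α)) (hF : UC F) (hne : F ≠ univ) (m : ℕ)
    (hm : ∀ x : α, ∃ T : Finset α, m ≤ T.card ∧ ∀ y ∈ T, ∃ σ : Equiv.Perm α,
      F.image (fun S => S.image σ) = F ∧ σ x = y)
    (hd : 16 * (2 ^ Fintype.card α) ^ 4 ≤ m * F.card ^ 4) :
    ∃ i : α, F.card < 2 * (F.filter (fun S => i ∈ S)).card := by
  have hN : (0 : ℝ) < 2 ^ Fintype.card α := npos
  have hmF : 0 < m * F.card ^ 4 := lt_of_lt_of_le (by positivity) hd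
  have hm0 : 0 < m := by
    rcases Nat.eq_zero_or_pos m with h0 | h0
    · rw [h0] at hmF; simp at hmF
    · exact h0
  have hF0 : F.Nonempty := by
    rw [Finset.nonempty_iff_ne_empty]
    intro h
    rw [h] at hmF
    simp at hmF
  by_contra hcon
  push Not at hcon
  have hcf : ∀ i, 0 ≤ cf (ind F) {i} := fun i => cf_nonneg_of F i (hcon i)
  have hsw : 0 ≤ sw F := Finset.sum_nonneg (fun i _ => hcf i)
  have ha : av (ind F) ≤ 1 / 2 := by
    by_contra h2
    push Not at h2
    rw [av_ind, lt_div_iff₀ hN] at h2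
    have h3 : 2 ^ Fintype.card α < 2 * F.card := by
      have : (2 : ℝ) ^ Fintype.card α < 2 * F.card := by linarith
      exact_mod_cast this
    obtain ⟨i, hi⟩ := above_half F hF hne h3
    have := hcon i
    omega
  have htot := total_le_two F hF hsw
  have hd' : 16 ≤ (m : ℝ) * av (ind F) ^ 4 := by
    have h1 : (16 : ℝ) * (2 ^ Fintype.card α) ^ 4 ≤ m * (F.card : ℝ) ^ 4 := by exact_mod_cast hd
    rw [av_ind, div_pow, ← mul_div_assoc, le_div_iff₀ (by positivity)]
    exact h1
  have hmr : (0 : ℝ) < m := by exact_mod_cast hm0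
  have hinf : ∀ x, av (fun A => dd x (ind F) A ^ 2) ≤ av (ind F) ^ 4 / 8 := by
    intro x
    obtain ⟨T, hT, hTσ⟩ := hm x
    have h1 : ∀ y ∈ T, av (fun A => dd y (ind F) A ^ 2) = av (fun A => dd x (ind F) A ^ 2) := by
      intro y hy
      obtain ⟨σ, hσ, hxy⟩ := hTσ y hy
      rw [← hxy]
      exact infl_perm F σ hσ x
    have h2 : ∑ y ∈ T, av (fun A => dd y (ind F) A ^ 2) ≤
        ∑ y, av (fun A => dd y (ind F) A ^ 2) :=
      Finset.sum_le_sum_of_subset_of_nonneg (Finset.subset_univ T)
        (fun i _ _ => av_nonneg (fun A => sq_nonneg _))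
    rw [Finset.sum_congr rfl h1, Finset.sum_const, nsmul_eq_mul] at h2
    have h3 : 0 ≤ av (fun A => dd x (ind F) A ^ 2) := av_nonneg (fun A => sq_nonneg _)
    have h4 : (m : ℝ) ≤ T.card := by exact_mod_cast hT
    have h5 : (m : ℝ) * av (fun A => dd x (ind F) A ^ 2) ≤ (m : ℝ) * (av (ind F) ^ 4 / 8) := by
      have h6 := mul_le_mul_of_nonneg_right h4 h3
      linarith
    exact le_of_mul_le_mul_left h5 hmr
  have := small_core F hF hF0 ha hinf
  linarith

end Pool.Agent.H637R3.UC
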