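import Mathlib
import Pool.Agent.H637R3.UC.Small

set_option autoImplicit false
set_option linter.unusedSectionVars false
set_option linter.dupNamespace false

/-!
# Families without influential elements, integer form
-/

namespace Pool.Agent.H637R3.UC

open Finset

variable {α : Type*} [Fintype α] [DecidableEq α]

theorem infl_card (F : Finset (Finset α)) (i : α) :
    av (fun A => dd i (ind F) A ^ 2) =
      ((univ.filter (fun S : Finset α => ¬ (S ∈ F ↔ symmDiff S {i} ∈ F))).card : ℝ) /
        2 ^ Fintype.card α := by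
  unfold av
  congr 1
  rw [Finset.card_filter]
  push_cast
  refine Finset.sum_congr rfl (fun S _ => ?_)
  rw [dd_sq_pt]
  unfold ind
  by_cases h1 : S ∈ F <;> by_cases h2 : symmDiff S {i} ∈ F <;> simp [h1, h2]

theorem small_fin (F : Finset (Finset α)) (hF : ∀ X ∈ F, ∀ Y ∈ F, X ∪ Y ∈ F)
    (h0 : F.Nonempty) (hne : F ≠ univ)
    (h : ∀ x : α, 8 * (2 ^ Fintype.card α) ^ 3 *
      (univ.filter (fun S : Finset α => ¬ (S ∈ F ↔ symmDiff S {x} ∈ F))).card ≤ F.card ^ 4) :
    ∃ i : α, F.card < 2 * (F.filter (fun S => i ∈ S)).card := by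
  have hN : (0 : ℝ) < 2 ^ Fintype.card α := npos
  by_cases ha : av (ind F) ≤ 1 / 2
  · apply exists_of_sw_neg
    apply small_core F hF h0 ha
    intro i
    rw [infl_card, av_ind, div_pow, div_div, div_le_div_iff₀ hN (by positivity)]
    have h1 : (8 : ℝ) * (2 ^ Fintype.card α) ^ 3 *
      ((univ.filter (fun S : Finset α => ¬ (S ∈ F ↔ symmDiff S {i} ∈ F))).card : ℝ) ≤
        (F.card : ℝ) ^ 4 := by exact_mod_cast h i
    have h2 := mul_le_mul_of_nonneg_right h1 hN.le
    calc _ = 8 * (2 ^ Fintype.card α) ^ 3 *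
      ((univ.filter (fun S : Finset α => ¬ (S ∈ F ↔ symmDiff S {i} ∈ F))).card : ℝ) *
        2 ^ Fintype.card α := by ring
      _ ≤ _ := h2
  · push Not at ha
    rw [av_ind, lt_div_iff₀ hN] at ha
    have h3 : 2 ^ Fintype.card α < 2 * F.card := by
      have : (2 : ℝ) ^ Fintype.card α < 2 * F.card := by linarith
      exact_mod_cast this
    exact above_half F hF hne h3

end Pool.Agent.H637R3.UC
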